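import Pool.Agent.R743.PB.Stm

/-!
# Paired branches of double point curves (MP_729182_ag), piece BR: the branches and the pairing
-/

set_option autoImplicit false

open Filter Topology Set

namespace Pool.Agent.R743.PB

theorem br_key (t : ℂ) : Φ (t ^ 2, t) = Φ (t ^ 2, t ^ 3) := by
  unfold Φ qq rr
  refine Prod.ext rfl (Prod.ext ?_ ?_)
  · show t ^ 3 - t ^ 2 * (1 + t ^ 2 + (t ^ 2) ^ 2) * t =
      (t ^ 3) ^ 3 - t ^ 2 * (1 + t ^ 2 + (t ^ 2) ^ 2) * t ^ 3
    ring
  · show t ^ 4 - t ^ 2 * (1 + (t ^ 2) ^ 2) * t ^ 2 =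
      (t ^ 3) ^ 4 - t ^ 2 * (1 + (t ^ 2) ^ 2) * (t ^ 3) ^ 2
    ring

/-- points of the cusp are parametrised -/
theorem br_par (p : C2) (hp : p ∈ D3) : ∃ t : ℂ, p = (t ^ 2, t ^ 3) ∧ ‖t‖ ^ 2 = ‖p.1‖ := by
  have h : p.2 ^ 2 = p.1 ^ 3 := hp
  by_cases h1 : p.1 = 0
  · have h2 : p.2 = 0 := by
      rw [h1] at h
      exact pow_eq_zero_iff (two_ne_zero) |>.1 (by rw [h]; ring)
    refine ⟨0, Prod.ext ?_ ?_, ?_⟩
    · show p.1 = 0 ^ 2
      rw [h1]; ring
    · show p.2 = 0 ^ 3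
      rw [h2]; ring
    · rw [h1, norm_zero]; ring
  · have ht : (p.2 / p.1) ^ 2 = p.1 := by
      rw [div_pow, h]
      field_simp
    refine ⟨p.2 / p.1, Prod.ext ?_ ?_, ?_⟩
    · exact ht.symm
    · show p.2 = (p.2 / p.1) ^ 3
      rw [pow_succ, ht]
      field_simp
    · rw [← norm_pow, ht]

theorem br_near (ε : ℝ) (hε : 0 < ε) : ∀ᶠ p in 𝓝 (0 : C2), ‖p.1‖ < ε ^ 2 ∧ ‖p.2‖ < ε := by
  have h : ∀ᶠ p in 𝓝 (0 : C2), p ∈ Metric.ball (0 : C2) (min (ε ^ 2) ε) :=
    Metric.ball_mem_nhds _ (lt_min (by positivity) hε)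
  filter_upwards [h] with p hp
  rw [mem_ball_zero_iff] at hp
  exact ⟨lt_of_le_of_lt (norm_fst_le p) (lt_of_lt_of_le hp (min_le_left _ _)),
    lt_of_le_of_lt (norm_snd_le p) (lt_of_lt_of_le hp (min_le_right _ _))⟩

theorem br_D2 : IsBranch D2 := by
  refine ⟨fun t => (t ^ 2, t), ?_, ?_, 1, one_pos, ?_, ?_⟩
  · exact (analyticAt_id.pow 2).prod analyticAt_id
  · simp
  · intro s _ t _ h
    exact (Prod.ext_iff.1 h).2
  · intro ε hε _
    filter_upwards [br_near ε hε] with p hp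
    constructor
    · intro h
      have h' : p.2 ^ 2 = p.1 := h
      refine ⟨p.2, mem_ball_zero_iff.2 hp.2, ?_⟩
      exact Prod.ext h' rfl
    · rintro ⟨t, _, rfl⟩
      rfl

theorem br_D3 : IsBranch D3 := by
  refine ⟨fun t => (t ^ 2, t ^ 3), ?_, ?_, 1, one_pos, ?_, ?_⟩
  · exact (analyticAt_id.pow 2).prod (analyticAt_id.pow 3)
  · simp
  · intro s _ t _ h
    have h1 : s ^ 2 = t ^ 2 := (Prod.ext_iff.1 h).1
    have h2 : s ^ 3 = t ^ 3 := (Prod.ext_iff.1 h).2
    by_cases hs : s = 0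
    · rw [hs] at h1 ⊢
      have : t ^ 2 = 0 := by rw [← h1]; ring
      exact (pow_eq_zero_iff two_ne_zero |>.1 this).symm
    · have h3 : s ^ 2 * s = s ^ 2 * t := by
        calc s ^ 2 * s = s ^ 3 := by ring
          _ = t ^ 3 := h2
          _ = t ^ 2 * t := by ring
          _ = s ^ 2 * t := by rw [h1]
      exact mul_left_cancel₀ (pow_ne_zero 2 hs) h3
  · intro ε hε _
    filter_upwards [br_near ε hε] with p hp
    constructor
    · intro h
      obtain ⟨t, ht, hn⟩ := br_par p h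
      refine ⟨t, mem_ball_zero_iff.2 ?_, ht.symm⟩
      have : ‖t‖ ^ 2 < ε ^ 2 := by rw [hn]; exact hp.1
      exact lt_of_pow_lt_pow_left₀ 2 hε.le this
    · rintro ⟨t, _, rfl⟩
      show (t ^ 3) ^ 2 = (t ^ 2) ^ 3
      ring

theorem br_pair (hP : S_PAIR) : Paired Φ D2 D3 := by
  constructor
  · refine ⟨Metric.ball 0 (1 / 2), Metric.ball_mem_nhds _ (by norm_num), ?_⟩
    intro p hp p' hp' hne hΦ
    rw [mem_ball_zero_iff] at hp hp'
    obtain ⟨h1, hx, hy, hy', hcase⟩ := hP p p' hp hp' hne hΦ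
    have hn : ‖p.1‖ < 1 / 2 := lt_of_le_of_lt (norm_fst_le p) hp
    have hm1 : p.1 ≠ -1 := by
      intro h
      rw [h, norm_neg, norm_one] at hn
      norm_num at hn
    have hsq : p.1 ^ 2 ≠ 1 := by
      intro h
      have h2 : ‖p.1‖ ^ 2 = 1 := by rw [← norm_pow, h, norm_one]
      nlinarith [norm_nonneg p.1]
    have e2 : p ∈ D2 ↔ p.2 ^ 2 = p.1 := Iff.rfl
    have e3 : p' ∈ D3 ↔ p'.2 ^ 2 = p.1 ^ 3 := by rw [h1]; exact Iff.rfl
    rw [e2, e3]
    rcases hcase with ⟨ha, hb⟩ | ⟨_, hb, hc⟩ | ⟨_, hb, hc⟩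
    · constructor
      · intro h
        exfalso
        apply hm1
        rw [h] at hb
        unfold qq at hb
        have h3 : p.1 * (p.1 * (1 + p.1)) = 0 := by linear_combination -hb
        have h4 := (mul_eq_zero.1 h3).resolve_left hx
        have h5 := (mul_eq_zero.1 h4).resolve_left hx
        linear_combination h5
      · intro h
        exfalso
        apply hm1
        rw [ha] at h
        have h' : p.2 ^ 2 = p.1 ^ 3 := by rw [← h]; ring
        rw [h'] at hb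
        unfold qq at hb
        have h3 : p.1 * (1 + p.1) = 0 := by linear_combination -hb
        have h4 := (mul_eq_zero.1 h3).resolve_left hx
        linear_combination h4
    · exact ⟨fun _ => hc, fun _ => hb⟩
    · constructor
      · intro h
        exfalso
        apply hsq
        rw [h] at hb
        have h3 : p.1 * (p.1 ^ 2 - 1) = 0 := by linear_combination -hb
        have h4 := (mul_eq_zero.1 h3).resolve_left hx
        linear_combination h4
      · intro h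
        exfalso
        apply hsq
        rw [h] at hc
        have h3 : p.1 * (p.1 ^ 2 - 1) = 0 := by linear_combination hc
        have h4 := (mul_eq_zero.1 h3).resolve_left hx
        linear_combination h4
  · intro U hU
    obtain ⟨δ₀, hδ₀, hb⟩ := Metric.mem_nhds_iff.1 hU
    obtain ⟨δ, hδ, hδ1, hδ2⟩ : ∃ δ : ℝ, 0 < δ ∧ δ ≤ δ₀ ∧ δ ≤ 1 / 2 :=
      ⟨min δ₀ (1 / 2), lt_min hδ₀ (by norm_num), min_le_left _ _, min_le_right _ _⟩
    have hball : ∀ t : ℂ, ‖t‖ < δ → ‖t ^ 2‖ < δ ∧ ‖t ^ 3‖ < δ := by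
      intro t ht
      have h0 := norm_nonneg t
      have h1 : ‖t‖ ≤ 1 := by linarith
      constructor
      · rw [norm_pow]
        calc ‖t‖ ^ 2 = ‖t‖ * ‖t‖ := by ring
          _ ≤ ‖t‖ * 1 := mul_le_mul_of_nonneg_left h1 h0
          _ < δ := by linarith
      · rw [norm_pow]
        have h2 : ‖t‖ ^ 2 ≤ 1 := pow_le_one₀ h0 h1
        calc ‖t‖ ^ 3 = ‖t‖ * ‖t‖ ^ 2 := by ring
          _ ≤ ‖t‖ * 1 := mul_le_mul_of_nonneg_left h2 h0
          _ < δ := by linarith
    have hmem : ∀ a b : ℂ, ‖a‖ < δ → ‖b‖ < δ → ((a, b) : C2) ∈ U := by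
      intro a b ha hb'
      apply hb
      rw [mem_ball_zero_iff]
      exact lt_of_lt_of_le (max_lt ha hb') hδ1
    have hne : ∀ t : ℂ, ‖t‖ < δ → t ≠ 0 → t ≠ t ^ 3 := by
      intro t ht ht0 h
      have h3 : t * (t ^ 2 - 1) = 0 := by linear_combination -h
      have h4 := (mul_eq_zero.1 h3).resolve_left ht0
      have h5 : t ^ 2 = 1 := by linear_combination h4
      have h6 : ‖t ^ 2‖ = 1 := by rw [h5, norm_one]
      have := (hball t ht).1
      linarith
    filter_upwards [br_near δ hδ] with p hp hpD hp0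
    rcases hpD with h | h
    · have h' : p.2 ^ 2 = p.1 := h
      have hpe : p = (p.2 ^ 2, p.2) := Prod.ext h'.symm rfl
      have hy : p.2 ≠ 0 := by
        intro hy
        apply hp0
        rw [hpe, hy]
        simp
      refine ⟨(p.2 ^ 2, p.2 ^ 3), hmem _ _ (hball _ hp.2).1 (hball _ hp.2).2, ?_, ?_⟩
      · rw [hpe]
        intro hc
        exact hne p.2 hp.2 hy (Prod.ext_iff.1 hc).2
      · rw [← br_key, ← hpe]
    · obtain ⟨t, ht, hn⟩ := br_par p h
      have htn : ‖t‖ < δ := by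
        have : ‖t‖ ^ 2 < δ ^ 2 := by rw [hn]; exact hp.1
        exact lt_of_pow_lt_pow_left₀ 2 hδ.le this
      have ht0 : t ≠ 0 := by
        intro h0
        apply hp0
        rw [ht, h0]
        simp
      refine ⟨(t ^ 2, t), hmem _ _ (hball _ htn).1 htn, ?_, ?_⟩
      · rw [ht]
        intro hc
        exact hne t htn ht0 (Prod.ext_iff.1 hc).2.symm
      · rw [ht, br_key]

theorem br (hP : S_PAIR) : S_BR := by
  refine ⟨?_, br_D2, br_D3, br_pair hP⟩
  have h1 : AnalyticAt ℂ (fun p : C2 => p.1) 0 := analyticAt_fst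
  have h2 : AnalyticAt ℂ (fun p : C2 => p.2) 0 := analyticAt_snd
  have hc : AnalyticAt ℂ (fun _ : C2 => (1 : ℂ)) 0 := analyticAt_const
  exact h1.prod (((h2.pow 3).sub ((h1.mul ((hc.add h1).add (h1.pow 2))).mul h2)).prod
    ((h2.pow 4).sub ((h1.mul (hc.add (h1.pow 2))).mul (h2.pow 2))))

end Pool.Agent.R743.PB
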