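import Pool.Agent.R743.PB.Stm

/-!
# PB-COV: the map `cm` is a covering off the cusp
-/

set_option autoImplicit false

open Filter Topology Set

namespace Pool.Agent.R743.PB

namespace COV

theorem cm_cont : Continuous cm := by
  unfold cm
  fun_prop

theorem bound (X t : ℂ) (R : ℝ) (hR : 0 ≤ R) (h1 : ‖X‖ ≤ R) (h2 : ‖(3 * X * t - t ^ 3) / 2‖ ≤ R) :
    ‖t‖ ≤ 1 + 5 * R := by
  by_contra hcon
  push Not at hcon
  have h3 : ‖t ^ 3‖ ≤ ‖3 * X * t‖ + ‖3 * X * t - t ^ 3‖ := by
    have := norm_sub_le (3 * X * t) (3 * X * t - t ^ 3)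
    rwa [sub_sub_cancel] at this
  have h4 : ‖3 * X * t - t ^ 3‖ ≤ 2 * R := by
    rw [norm_div] at h2
    have h5 : ‖(2 : ℂ)‖ = 2 := by norm_num
    rw [h5, div_le_iff₀ (by norm_num)] at h2
    linarith
  have h5 : ‖3 * X * t‖ ≤ 3 * R * ‖t‖ := by
    rw [norm_mul, norm_mul]
    have h6 : ‖(3 : ℂ)‖ = 3 := by norm_num
    rw [h6]
    exact mul_le_mul_of_nonneg_right (by linarith) (norm_nonneg _)
  rw [norm_pow] at h3
  set u := ‖t‖ with hu
  have h6 : u ^ 3 ≤ 3 * R * u + 2 * R := by linarith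
  have h7 : 1 ≤ u := by linarith
  have h8 : (1 + 5 * R) ≤ u * u := by nlinarith
  nlinarith [mul_le_mul_of_nonneg_left h8 (by linarith : (0 : ℝ) ≤ u)]

theorem cm_proper : IsProperMap cm := by
  rw [isProperMap_iff_isCompact_preimage]
  refine ⟨cm_cont, ?_⟩
  intro K hK
  obtain ⟨R, hR⟩ := hK.isBounded.subset_closedBall (0 : C2)
  rw [Metric.isCompact_iff_isClosed_bounded]
  refine ⟨hK.isClosed.preimage cm_cont, ?_⟩
  apply (Metric.isBounded_closedBall (x := (0 : C2)) (r := 1 + 5 * |R|)).subset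
  intro p hp
  have h1 := hR hp
  rw [mem_closedBall_zero_iff] at h1 ⊢
  have h2 : ‖cm p‖ ≤ |R| := h1.trans (le_abs_self R)
  rw [Prod.norm_def, max_le_iff] at h2
  have h3 := bound p.1 p.2 |R| (abs_nonneg _) h2.1 h2.2
  rw [Prod.norm_def, max_le_iff]
  refine ⟨?_, h3⟩
  have h4 : ‖p.1‖ ≤ |R| := h2.1
  have := abs_nonneg R
  linarith

theorem fib_finite (x : C2) : (cm ⁻¹' {x}).Finite := by
  have h1 : (({x.1} : Set ℂ) ×ˢ {t : ℂ | t ^ 3 - 3 * x.1 * t + 2 * x.2 = 0}).Finite := by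
    apply (Set.finite_singleton _).prod
    have hp : (Polynomial.X ^ 3 - Polynomial.C (3 * x.1) * Polynomial.X +
        Polynomial.C (2 * x.2) : Polynomial ℂ) ≠ 0 := by
      intro h
      have := congrArg (fun q => Polynomial.coeff q 3) h
      simp [Polynomial.coeff_X, Polynomial.coeff_C] at this
    refine (Polynomial.finite_setOf_isRoot hp).subset ?_
    intro t ht
    simpa [Polynomial.IsRoot] using ht
  refine h1.subset ?_
  rintro ⟨X, t⟩ hp
  have h2 : cm (X, t) = x := hp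
  rw [← h2]
  refine ⟨rfl, ?_⟩
  show t ^ 3 - 3 * X * t + 2 * ((3 * X * t - t ^ 3) / 2) = 0
  ring

/-- the derivative -/
noncomputable def dcm (X t : ℂ) (h : X ≠ t ^ 2) : C2 ≃ₗ[ℂ] C2 where
  toFun v := (v.1, (3 * t * v.1 + (3 * X - 3 * t ^ 2) * v.2) / 2)
  invFun v := (v.1, (2 * v.2 - 3 * t * v.1) / (3 * X - 3 * t ^ 2))
  map_add' v w := by
    ext
    · rfl
    · simp; ring
  map_smul' c v := by
    ext
    · rfl
    · simp; ring
  left_inv v := by
    have h1 : 3 * X - 3 * t ^ 2 ≠ 0 := by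
      intro h2
      apply h
      linear_combination h2 / 3
    ext
    · rfl
    · simp only
      field_simp
      ring
  right_inv v := by
    have h1 : 3 * X - 3 * t ^ 2 ≠ 0 := by
      intro h2
      apply h
      linear_combination h2 / 3
    ext
    · rfl
    · simp only
      field_simp
      ring

theorem cm_deriv (p : C2) (h : p.1 ≠ p.2 ^ 2) :
    HasStrictFDerivAt cm ((dcm p.1 p.2 h).toContinuousLinearEquiv : C2 →L[ℂ] C2) p := by
  have h1 : HasStrictFDerivAt (fun z : C2 => z.1) (ContinuousLinearMap.fst ℂ ℂ ℂ) p :=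
    hasStrictFDerivAt_fst
  have h2 : HasStrictFDerivAt (fun z : C2 => z.2) (ContinuousLinearMap.snd ℂ ℂ ℂ) p :=
    hasStrictFDerivAt_snd
  have h3 := (((h1.const_mul 3).mul h2).sub (h2.pow 3)).mul_const (2⁻¹ : ℂ)
  have h4 := h1.prodMk h3
  refine (h4.congr_fderiv ?_).congr_of_eventuallyEq ?_
  · apply ContinuousLinearMap.ext
    intro v
    ext
    · rfl
    · simp [dcm]
      ring
  · exact Filter.Eventually.of_forall fun z => by
      simp [cm, div_eq_mul_inv]

theorem cm_localHomeo : IsLocalHomeomorphOn cm (cm ⁻¹' D3ᶜ) := by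
  intro p hp
  have h : p.1 ≠ p.2 ^ 2 := by
    intro h
    apply hp
    show ((3 * p.1 * p.2 - p.2 ^ 3) / 2) ^ 2 = p.1 ^ 3
    rw [h]
    ring
  exact ⟨(cm_deriv p h).toOpenPartialHomeomorph cm, (cm_deriv p h).mem_toOpenPartialHomeomorph_source,
    by simp⟩

end COV

/-- the map is a covering off the cusp -/
theorem cov : S_COV :=
  COV.cm_proper.isClosedMap.isCoveringMapOn_of_isLocalHomeomorphOn (fun x _ => COV.fib_finite x)
    COV.cm_localHomeo

end Pool.Agent.R743.PB
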