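import Pool.Agent.R743.PB.Stm

/-! PB-DBL: the double point set of `Φ` (helper619 for helper743) -/

set_option autoImplicit false

open Filter Topology Set

namespace Pool.Agent.R743.PB

theorem qq_zero {x : ℂ} (hx : ‖x‖ < 1 / 2) (h : qq x = 0) : x = 0 := by
  unfold qq at h
  rcases mul_eq_zero.1 h with h | h
  · exact h
  · exfalso
    have h1 : (1 : ℂ) = -(x + x ^ 2) := by linear_combination h
    have h2 : ‖(1 : ℂ)‖ ≤ ‖x‖ + ‖x‖ ^ 2 := by
      calc ‖(1 : ℂ)‖ = ‖-(x + x ^ 2)‖ := congrArg norm h1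
        _ = ‖x + x ^ 2‖ := norm_neg _
        _ ≤ ‖x‖ + ‖x ^ 2‖ := norm_add_le _ _
        _ = ‖x‖ + ‖x‖ ^ 2 := by rw [norm_pow]
    rw [norm_one] at h2
    nlinarith [norm_nonneg x]

theorem phi_D1 {x y : ℂ} (h : y ^ 2 = qq x) : Φ (x, -y) = Φ (x, y) := by
  unfold Φ
  refine Prod.ext rfl (Prod.ext ?_ ?_)
  · show (-y) ^ 3 - qq x * (-y) = y ^ 3 - qq x * y
    linear_combination (-2 * y) * h
  · show (-y) ^ 4 - rr x * (-y) ^ 2 = y ^ 4 - rr x * y ^ 2
    ring

theorem phi_D2 {x y : ℂ} (h : y ^ 2 = x) : Φ (x, x * y) = Φ (x, y) := by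
  subst h
  unfold Φ
  refine Prod.ext rfl (Prod.ext ?_ ?_)
  · show (y ^ 2 * y) ^ 3 - qq (y ^ 2) * (y ^ 2 * y) = y ^ 3 - qq (y ^ 2) * y
    unfold qq
    ring
  · show (y ^ 2 * y) ^ 4 - rr (y ^ 2) * (y ^ 2 * y) ^ 2 = y ^ 4 - rr (y ^ 2) * y ^ 2
    unfold rr
    ring

theorem norm_lt_iff {x y : ℂ} {δ : ℝ} : ‖((x, y) : C2)‖ < δ ↔ ‖x‖ < δ ∧ ‖y‖ < δ := by
  rw [Prod.norm_def, max_lt_iff]

/-- nonzero points of the three branches near `0` are double points of `Φ|U` -/
theorem mem_dbl_set {U : Set C2} {δ : ℝ} (hδ : 0 < δ) (hδ2 : δ ≤ 1 / 2)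
    (hU : Metric.ball (0 : C2) δ ⊆ U) {p : C2} (hp : ‖p‖ < δ ^ 2) (h0 : p ≠ 0)
    (hD : p ∈ D1 ∪ D2 ∪ D3) : p ∈ U ∧ ∃ p' ∈ U, p' ≠ p ∧ Φ p' = Φ p := by
  obtain ⟨x, y⟩ := p
  rw [norm_lt_iff] at hp
  have hδ3 : δ ^ 2 ≤ δ := by nlinarith
  have hx1 : ‖x‖ < 1 / 2 := by linarith [hp.1]
  have hmem : ∀ a b : ℂ, ‖a‖ < δ → ‖b‖ < δ → ((a, b) : C2) ∈ U := by
    intro a b ha hb
    apply hU
    rw [mem_ball_zero_iff, norm_lt_iff]
    exact ⟨ha, hb⟩
  have hxδ : ‖x‖ < δ := by linarith [hp.1]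
  have hyδ : ‖y‖ < δ := by linarith [hp.2]
  refine ⟨hmem x y hxδ hyδ, ?_⟩
  have hne1 : x ≠ 1 := by
    rintro rfl
    rw [norm_one] at hx1
    linarith
  rcases hD with (hD | hD) | hD
  · have h : y ^ 2 = qq x := hD
    have hy : y ≠ 0 := by
      rintro rfl
      apply h0
      have : qq x = 0 := by rw [← h]; ring
      rw [qq_zero hx1 this]
      rfl
    refine ⟨(x, -y), hmem x (-y) hxδ (by rwa [norm_neg]), ?_, phi_D1 h⟩
    intro he
    have h1 : -y = y := congrArg Prod.snd he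
    apply hy
    have h2 : (2 : ℂ) * y = 0 := by linear_combination -h1
    rcases mul_eq_zero.1 h2 with h3 | h3
    · norm_num at h3
    · exact h3
  · have h : y ^ 2 = x := hD
    have hy : y ≠ 0 := by
      rintro rfl
      apply h0
      rw [← h]
      norm_num
    refine ⟨(x, x * y), hmem x (x * y) hxδ ?_, ?_, phi_D2 h⟩
    · rw [norm_mul]
      nlinarith [norm_nonneg x, norm_nonneg y]
    · intro he
      have h1 : x * y = y := congrArg Prod.snd he
      have h2 : (x - 1) * y = 0 := by linear_combination h1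
      rcases mul_eq_zero.1 h2 with h3 | h3
      · exact hne1 (by linear_combination h3)
      · exact hy h3
  · have h : y ^ 2 = x ^ 3 := hD
    have hx : x ≠ 0 := by
      rintro rfl
      apply h0
      have h1 : y ^ 2 = 0 := by rw [h]; norm_num
      have h2 : y = 0 := by simpa using h1
      rw [h2]
      rfl
    have hy : y ≠ 0 := by
      rintro rfl
      have h1 : x ^ 3 = 0 := by rw [← h]; norm_num
      exact hx (by simpa using h1)
    have hz : (y / x) ^ 2 = x := by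
      rw [div_pow, h]
      field_simp
    have hxz : x * (y / x) = y := by field_simp
    have hzn : ‖y / x‖ < δ := by
      have h1 : ‖y / x‖ ^ 2 < δ ^ 2 := by
        rw [← norm_pow, hz]
        exact hp.1
      exact lt_of_pow_lt_pow_left₀ 2 hδ.le h1
    refine ⟨(x, y / x), hmem x (y / x) hxδ hzn, ?_, ?_⟩
    · intro he
      have h1 : y / x = y := congrArg Prod.snd he
      have h2 : (x - 1) * y = 0 := by
        have : x * (y / x) = x * y := by rw [h1]
        rw [hxz] at this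
        linear_combination -this
      rcases mul_eq_zero.1 h2 with h3 | h3
      · exact hne1 (by linear_combination h3)
      · exact hy h3
    · have h1 := phi_D2 hz
      rw [hxz] at h1
      exact h1.symm

theorem isClosed_D : IsClosed (D1 ∪ D2 ∪ D3) := by
  refine (IsClosed.union (IsClosed.union ?_ ?_) ?_)
  · unfold D1 qq
    exact isClosed_eq (by fun_prop) (by fun_prop)
  · unfold D2
    exact isClosed_eq (by fun_prop) (by fun_prop)
  · unfold D3
    exact isClosed_eq (by fun_prop) (by fun_prop)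

theorem dbl (hP : S_PAIR) : S_DBL := by
  refine ⟨Metric.ball 0 (1 / 2), Metric.ball_mem_nhds _ (by norm_num), ?_⟩
  intro U hU hU0
  obtain ⟨δ₀, hδ₀, hball⟩ := Metric.mem_nhds_iff.1 hU
  set δ : ℝ := min δ₀ (1 / 2) with hδdef
  have hδ : 0 < δ := lt_min hδ₀ (by norm_num)
  have hδ2 : δ ≤ 1 / 2 := min_le_right _ _
  have hUδ : Metric.ball (0 : C2) δ ⊆ U :=
    (Metric.ball_subset_ball (min_le_left _ _)).trans hball
  have hδsq : 0 < δ ^ 2 := by positivity
  filter_upwards [Metric.ball_mem_nhds (0 : C2) hδsq] with p hp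
  rw [mem_ball_zero_iff] at hp
  constructor
  · intro hpD
    have hsub : {p : C2 | p ∈ U ∧ ∃ p' ∈ U, p' ≠ p ∧ Φ p' = Φ p} ⊆ D1 ∪ D2 ∪ D3 := by
      rintro a ⟨ha, b, hb, hne, heq⟩
      have ha' : ‖a‖ < 1 / 2 := by simpa using hU0 ha
      have hb' : ‖b‖ < 1 / 2 := by simpa using hU0 hb
      obtain ⟨h1, h2, h3, h4, h5⟩ := hP a b ha' hb' hne.symm heq.symm
      rcases h5 with h5 | h5 | h5
      · exact Or.inl (Or.inl h5.2)
      · exact Or.inl (Or.inr h5.2.1)
      · exact Or.inr h5.2.1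
    exact closure_minimal hsub isClosed_D hpD
  · intro hpD
    by_cases h0 : p = 0
    · subst h0
      show (0 : C2) ∈ closure _
      rw [Metric.mem_closure_iff]
      intro ε hε
      have hm : 0 < min ε (δ ^ 2) := lt_min hε hδsq
      set t : ℝ := min ε (δ ^ 2) / 2 with ht
      have ht0 : 0 < t := by positivity
      have htε : t < ε := by
        have : min ε (δ ^ 2) ≤ ε := min_le_left _ _
        rw [ht]; linarith
      have htδ : t < δ ^ 2 := by
        have : min ε (δ ^ 2) ≤ δ ^ 2 := min_le_right _ _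
        rw [ht]; linarith
      have hδ4 : δ ^ 2 ≤ 1 / 4 := by nlinarith
      have ht1 : t < 1 := by linarith
      have htn : ‖(t : ℂ)‖ = t := by
        rw [Complex.norm_real, Real.norm_eq_abs, abs_of_pos ht0]
      have htn2 : ‖(t : ℂ) ^ 2‖ ≤ t := by
        rw [norm_pow, htn]
        nlinarith
      refine ⟨((t : ℂ) ^ 2, (t : ℂ)), ?_, ?_⟩
      · refine mem_dbl_set hδ hδ2 hUδ ?_ ?_ ?_
        · rw [norm_lt_iff]
          exact ⟨by linarith, by linarith⟩
        · intro he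
          have h1 : (t : ℂ) = 0 := congrArg Prod.snd he
          have h2 : t = 0 := by exact_mod_cast h1
          linarith
        · exact Or.inl (Or.inr rfl)
      · rw [dist_comm, dist_zero_right, norm_lt_iff]
        exact ⟨by linarith, by linarith⟩
    · exact subset_closure (mem_dbl_set hδ hδ2 hUδ hp h0 hpD)

end Pool.Agent.R743.PB
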