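import Pool.Agent.R743.PB.Stm2

/-! FD-A: the Banach algebra of absolutely convergent power series in two variables, built as
the one-variable construction applied twice. -/

set_option autoImplicit false

namespace Pool.Agent.R743.PB.FA

section one
variable (R : Type) [NormedCommRing R] [NormedAlgebra ℂ R]

/-- the absolutely convergent power series -/
noncomputable def l1Sub : Subalgebra ℂ (PowerSeries R) where
  carrier := {f | Summable fun n => ‖PowerSeries.coeff n f‖}
  mul_mem' := by
    intro f g hf hg
    have h := summable_norm_sum_mul_antidiagonal_of_summable_norm hf hg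
    refine h.congr (fun n => ?_)
    rw [PowerSeries.coeff_mul]
  add_mem' := by
    intro f g hf hg
    have h := Summable.add hf hg
    refine Summable.of_nonneg_of_le (fun n => norm_nonneg _) (fun n => ?_) h
    rw [map_add]
    exact norm_add_le _ _
  algebraMap_mem' := by
    intro z
    refine summable_of_ne_finset_zero (s := {0}) (fun n hn => ?_)
    have hn' : n ≠ 0 := by simpa using hn
    rw [PowerSeries.algebraMap_apply, PowerSeries.coeff_C, if_neg hn', norm_zero]

/-- the type of absolutely convergent power series -/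
def L1 : Type := ↥(l1Sub R)

noncomputable instance : CommRing (L1 R) := inferInstanceAs (CommRing ↥(l1Sub R))
noncomputable instance : Algebra ℂ (L1 R) := inferInstanceAs (Algebra ℂ ↥(l1Sub R))

variable {R}

/-- coefficient -/
noncomputable def co (n : ℕ) (f : L1 R) : R := PowerSeries.coeff n (f.1 : PowerSeries R)

theorem co_summ (f : L1 R) : Summable fun n => ‖co n f‖ := f.2

theorem co_ext {f g : L1 R} (h : ∀ n, co n f = co n g) : f = g :=
  Subtype.ext (PowerSeries.ext h)

theorem co_add (n : ℕ) (f g : L1 R) : co n (f + g) = co n f + co n g :=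
  map_add (PowerSeries.coeff n) f.1 g.1

theorem co_zero (n : ℕ) : co n (0 : L1 R) = 0 :=
  map_zero (PowerSeries.coeff n)

theorem co_neg (n : ℕ) (f : L1 R) : co n (-f) = - co n f :=
  map_neg (PowerSeries.coeff n) f.1

theorem co_smul (n : ℕ) (z : ℂ) (f : L1 R) : co n (z • f) = z • co n f := by
  change PowerSeries.coeff n (z • f.1) = z • PowerSeries.coeff n f.1
  exact PowerSeries.coeff_smul _ _ _

theorem co_mul (n : ℕ) (f g : L1 R) :
    co n (f * g) =
      (Finset.HasAntidiagonal.antidiagonal n).sum fun s : ℕ × ℕ => co s.1 f * co s.2 g :=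
  PowerSeries.coeff_mul n f.1 g.1

theorem co_one (n : ℕ) : co n (1 : L1 R) = if n = 0 then 1 else 0 :=
  PowerSeries.coeff_one n

theorem exists_of_summable (d : ℕ → R) (hd : Summable fun n => ‖d n‖) :
    ∃ f : L1 R, ∀ n, co n f = d n := by
  refine ⟨⟨PowerSeries.mk d, ?_⟩, fun n => PowerSeries.coeff_mk n d⟩
  change Summable fun n => ‖PowerSeries.coeff n (PowerSeries.mk d)‖
  refine hd.congr (fun n => ?_)
  rw [PowerSeries.coeff_mk]

/-- the norm -/
noncomputable def nrm (f : L1 R) : ℝ := ∑' n, ‖co n f‖

/-- the group norm -/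
noncomputable def gnorm : AddGroupNorm (L1 R) where
  toFun := nrm
  map_zero' := by
    unfold nrm
    simp only [co_zero, norm_zero, tsum_zero]
  add_le' := by
    intro f g
    unfold nrm
    rw [← Summable.tsum_add (co_summ f) (co_summ g)]
    refine Summable.tsum_le_tsum (fun n => ?_) (co_summ _) ((co_summ f).add (co_summ g))
    rw [co_add]
    exact norm_add_le _ _
  neg' := by
    intro f
    unfold nrm
    simp only [co_neg, norm_neg]
  eq_zero_of_map_eq_zero' := by
    intro f hf
    have h := (co_summ f).hasSum
    change HasSum _ (nrm f) at h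
    rw [hf] at h
    have h2 := (hasSum_zero_iff_of_nonneg (fun n => norm_nonneg (co n f))).1 h
    apply co_ext
    intro n
    rw [co_zero]
    have h3 := congrFun h2 n
    exact norm_eq_zero.1 h3

noncomputable instance : NormedAddCommGroup (L1 R) := AddGroupNorm.toNormedAddCommGroup gnorm

theorem norm_def (f : L1 R) : ‖f‖ = ∑' n, ‖co n f‖ := rfl

noncomputable instance : NormedCommRing (L1 R) :=
  { (inferInstance : CommRing (L1 R)), (inferInstance : NormedAddCommGroup (L1 R)) with
    norm_mul_le := by
      intro f g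
      change nrm (f * g) ≤ nrm f * nrm g
      unfold nrm
      have h1 := summable_norm_sum_mul_antidiagonal_of_summable_norm (co_summ f) (co_summ g)
      have h2 := summable_norm_sum_mul_antidiagonal_of_summable_norm (f := fun n => ‖co n f‖)
        (g := fun n => ‖co n g‖) (by simpa using co_summ f) (by simpa using co_summ g)
      have h2' := h2.congr (fun n => Real.norm_of_nonneg
        (Finset.sum_nonneg (fun s _ => mul_nonneg (norm_nonneg _) (norm_nonneg _))))
      have h3 := tsum_mul_tsum_eq_tsum_sum_antidiagonal_of_summable_norm (f := fun n => ‖co n f‖)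
        (g := fun n => ‖co n g‖) (by simpa using co_summ f) (by simpa using co_summ g)
      rw [h3]
      refine Summable.tsum_le_tsum (fun n => ?_) (co_summ _) h2'
      rw [co_mul]
      refine (norm_sum_le _ _).trans ?_
      exact Finset.sum_le_sum (fun s _ => norm_mul_le _ _) }

noncomputable instance : NormedAlgebra ℂ (L1 R) where
  norm_smul_le := by
    intro z f
    rw [norm_def, norm_def, ← tsum_mul_left]
    refine Summable.tsum_le_tsum (fun n => ?_) (co_summ _) ((co_summ f).mul_left _)
    rw [co_smul]
    exact norm_smul_le _ _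

/-- comparison with the space of absolutely summable sequences -/
noncomputable def toLp (f : L1 R) : lp (fun _ : ℕ => R) 1 :=
  ⟨fun n => co n f, by
    apply memℓp_gen
    simpa using co_summ f⟩

theorem toLp_isom : Isometry (toLp (R := R)) := by
  apply Isometry.of_dist_eq
  intro f g
  rw [dist_eq_norm, dist_eq_norm, norm_def, lp.norm_eq_tsum_rpow (by norm_num)]
  simp only [ENNReal.toReal_one, Real.rpow_one, div_one]
  apply tsum_congr
  intro n
  rw [sub_eq_add_neg, sub_eq_add_neg, co_add, co_neg]
  rfl

theorem toLp_surj : Function.Surjective (toLp (R := R)) := by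
  intro g
  have hg : Summable fun n => ‖g n‖ := by
    have h := (memℓp_gen_iff (p := 1) (by norm_num)).1 g.2
    simpa using h
  obtain ⟨f, hf⟩ := exists_of_summable (fun n => g n) hg
  refine ⟨f, ?_⟩
  apply Subtype.ext
  funext n
  exact hf n

instance [CompleteSpace R] : CompleteSpace (L1 R) :=
  (IsometryEquiv.mk (Equiv.ofBijective _ ⟨toLp_isom.injective, toLp_surj⟩) toLp_isom).completeSpace

end one

section two

/-- the algebra in two variables -/
abbrev A2 : Type := L1 (L1 ℂ)

/-- the coefficients -/
noncomputable def cc (i j : ℕ) (f : A2) : ℂ := co j (co i f)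

/-- the constant series -/
theorem exists_const (R : Type) [NormedCommRing R] [NormedAlgebra ℂ R] (a : R) (k : ℕ) :
    ∃ f : L1 R, ∀ n, co n f = if n = k then a else 0 := by
  apply exists_of_summable
  refine summable_of_ne_finset_zero (s := {k}) (fun n hn => ?_)
  have hn' : n ≠ k := by simpa using hn
  rw [if_neg hn', norm_zero]

theorem cc_summ (f : A2) : Summable fun t : ℕ × ℕ => ‖cc t.1 t.2 f‖ := by
  rw [summable_prod_of_nonneg (fun t => norm_nonneg _)]
  refine ⟨fun i => co_summ (co i f), ?_⟩
  exact co_summ f

theorem cc_surj (d : ℕ → ℕ → ℂ) (hd : Summable fun t : ℕ × ℕ => ‖d t.1 t.2‖) :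
    ∃ f : A2, ∀ i j, cc i j f = d i j := by
  rw [summable_prod_of_nonneg (fun t => norm_nonneg _)] at hd
  obtain ⟨h1, h2⟩ := hd
  choose g hg using fun i => exists_of_summable (fun j => d i j) (h1 i)
  have hn : ∀ i, ‖g i‖ = ∑' j, ‖d i j‖ := by
    intro i
    rw [norm_def]
    exact tsum_congr (fun j => by rw [hg])
  obtain ⟨f, hf⟩ := exists_of_summable g (h2.congr (fun i => (hn i).symm))
  refine ⟨f, fun i j => ?_⟩
  unfold cc
  rw [hf, hg]

theorem cc_mul (i j : ℕ) (f g : A2) : cc i j (f * g) =
    (Finset.HasAntidiagonal.antidiagonal i).sum fun s : ℕ × ℕ =>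
      (Finset.HasAntidiagonal.antidiagonal j).sum fun t : ℕ × ℕ => cc s.1 t.1 f * cc s.2 t.2 g := by
  unfold cc
  rw [co_mul]
  let φ : L1 ℂ →+ ℂ := ⟨⟨fun h => co j h, co_zero j⟩, co_add j⟩
  have h := map_sum φ (fun s : ℕ × ℕ => co s.1 f * co s.2 g)
    (Finset.HasAntidiagonal.antidiagonal i)
  refine h.trans (Finset.sum_congr rfl (fun s _ => ?_))
  exact co_mul j (co s.1 f) (co s.2 g)

/-- the structure -/
noncomputable def theMA : MA A2 where
  X := (exists_const (L1 ℂ) 1 1).choose
  Y := (exists_const (L1 ℂ) (exists_const ℂ 1 1).choose 0).choose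
  c := cc
  summ := cc_summ
  norm_eq := by
    intro f
    rw [norm_def, Summable.tsum_prod (cc_summ f)]
    exact tsum_congr (fun i => norm_def (co i f))
  ext := by
    intro f g h
    exact co_ext (fun i => co_ext (fun j => h i j))
  surj := cc_surj
  c_add := by
    intro i j f g
    unfold cc
    rw [co_add, co_add]
  c_smul := by
    intro i j z f
    unfold cc
    rw [co_smul, co_smul, smul_eq_mul]
  c_mul := cc_mul
  c_X := by
    intro i j
    unfold cc
    rw [(exists_const (L1 ℂ) 1 1).choose_spec i]
    by_cases hi : i = 1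
    · rw [if_pos hi, co_one]
      by_cases hj : j = 0
      · rw [if_pos hj, if_pos ⟨hi, hj⟩]
      · rw [if_neg hj, if_neg (fun h => hj h.2)]
    · rw [if_neg hi, co_zero, if_neg (fun h => hi h.1)]
  c_Y := by
    intro i j
    unfold cc
    rw [(exists_const (L1 ℂ) (exists_const ℂ 1 1).choose 0).choose_spec i]
    by_cases hi : i = 0
    · rw [if_pos hi, (exists_const ℂ 1 1).choose_spec j]
      by_cases hj : j = 1
      · rw [if_pos hj, if_pos ⟨hi, hj⟩]
      · rw [if_neg hj, if_neg (fun h => hj h.2)]
    · rw [if_neg hi, co_zero, if_neg (fun h => hi h.1)]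
  c_one := by
    intro i j
    unfold cc
    rw [co_one]
    by_cases hi : i = 0
    · rw [if_pos hi, co_one]
      by_cases hj : j = 0
      · rw [if_pos hj, if_pos ⟨hi, hj⟩]
      · rw [if_neg hj, if_neg (fun h => hj h.2)]
    · rw [if_neg hi, co_zero, if_neg (fun h => hi h.1)]

end two

end Pool.Agent.R743.PB.FA

namespace Pool.Agent.R743.PB

/-- FD-A -/
theorem algA : S_A :=
  ⟨FA.A2, inferInstance, inferInstance, inferInstance, ⟨FA.theMA⟩⟩

end Pool.Agent.R743.PB
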