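import Pool.Agent.R743.PB.Stm2

/-!
# FD-EVA: evaluation in the power series algebra is a homomorphism and analytic
-/

set_option autoImplicit false

open Filter Topology Set Asymptotics

namespace Pool.Agent.R743.PB

namespace EvA

/-- pairs of pairs of natural numbers with given sum -/
local instance had : Finset.HasAntidiagonal (ℕ × ℕ) where
  antidiagonal n := ((Finset.HasAntidiagonal.antidiagonal n.1) ×ˢ
    (Finset.HasAntidiagonal.antidiagonal n.2)).map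
      ⟨fun z => ((z.1.1, z.2.1), (z.1.2, z.2.2)), by
        rintro ⟨⟨a, b⟩, ⟨c, d⟩⟩ ⟨⟨a', b'⟩, ⟨c', d'⟩⟩ h
        simp only [Prod.mk.injEq] at h ⊢
        tauto⟩
  mem_antidiagonal := by
    rintro ⟨n1, n2⟩ ⟨⟨a, b⟩, ⟨c, d⟩⟩
    simp only [Finset.mem_map, Finset.mem_product, Function.Embedding.coeFn_mk, Prod.exists,
      Finset.HasAntidiagonal.mem_antidiagonal, Prod.mk.injEq, Prod.mk_add_mk]
    constructor
    · rintro ⟨a', b', c', d', ⟨h1, h2⟩, ⟨h3, h4⟩, h5, h6⟩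
      subst h3 h4 h5 h6
      exact ⟨h1, h2⟩
    · rintro ⟨h1, h2⟩
      exact ⟨a, c, b, d, ⟨h1, h2⟩, ⟨rfl, rfl⟩, rfl, rfl⟩

theorem sum_had (n : ℕ × ℕ) (F : (ℕ × ℕ) × (ℕ × ℕ) → ℂ) :
    ∑ kl ∈ Finset.HasAntidiagonal.antidiagonal n, F kl =
      (Finset.HasAntidiagonal.antidiagonal n.1).sum fun s : ℕ × ℕ =>
        (Finset.HasAntidiagonal.antidiagonal n.2).sum fun t : ℕ × ℕ => F ((s.1, t.1), (s.2, t.2)) := by
  show ∑ kl ∈ Finset.map _ _, F kl = _
  rw [Finset.sum_map, Finset.sum_product]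
  rfl

variable {A : Type} [NormedCommRing A] [NormedAlgebra ℂ A] (m : MA A)

theorem term_le {p : C2} (hp : ‖p‖ ≤ 1) (f : A) (t : ℕ × ℕ) :
    ‖m.c t.1 t.2 f * p.1 ^ t.1 * p.2 ^ t.2‖ ≤ ‖m.c t.1 t.2 f‖ := by
  have h1 : ‖p.1‖ ≤ 1 := (norm_fst_le p).trans hp
  have h2 : ‖p.2‖ ≤ 1 := (norm_snd_le p).trans hp
  rw [norm_mul, norm_mul, norm_pow, norm_pow]
  calc ‖m.c t.1 t.2 f‖ * ‖p.1‖ ^ t.1 * ‖p.2‖ ^ t.2 ≤ ‖m.c t.1 t.2 f‖ * 1 * 1 := by
        gcongr
        · exact pow_le_one₀ (norm_nonneg _) h1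
        · exact pow_le_one₀ (norm_nonneg _) h2
    _ = _ := by ring

theorem sN {p : C2} (hp : ‖p‖ ≤ 1) (f : A) :
    Summable fun t : ℕ × ℕ => ‖m.c t.1 t.2 f * p.1 ^ t.1 * p.2 ^ t.2‖ :=
  Summable.of_nonneg_of_le (fun _ => norm_nonneg _) (term_le m hp f) (m.summ f)

theorem sS {p : C2} (hp : ‖p‖ ≤ 1) (f : A) :
    Summable fun t : ℕ × ℕ => m.c t.1 t.2 f * p.1 ^ t.1 * p.2 ^ t.2 := (sN m hp f).of_norm

theorem ev_add {p : C2} (hp : ‖p‖ ≤ 1) (f g : A) : m.ev p (f + g) = m.ev p f + m.ev p g := by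
  unfold MA.ev
  rw [← (sS m hp f).tsum_add (sS m hp g)]
  refine tsum_congr fun t => ?_
  rw [m.c_add]
  ring

theorem cauchy {F G : ℕ × ℕ → ℂ} (hF : Summable fun t => ‖F t‖) (hG : Summable fun t => ‖G t‖) :
    (∑' t, F t) * (∑' t, G t) = ∑' n : ℕ × ℕ,
      (Finset.HasAntidiagonal.antidiagonal n.1).sum fun s : ℕ × ℕ =>
        (Finset.HasAntidiagonal.antidiagonal n.2).sum fun t : ℕ × ℕ =>
          F (s.1, t.1) * G (s.2, t.2) := by
  have h := Summable.tsum_mul_tsum_eq_tsum_sum_antidiagonal (A := ℕ × ℕ) (f := F) (g := G)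
    hF.of_norm hG.of_norm (summable_mul_of_summable_norm hF hG)
  rw [h]
  refine tsum_congr fun n => ?_
  exact sum_had n fun kl => F kl.1 * G kl.2

theorem ev_mul {p : C2} (hp : ‖p‖ ≤ 1) (f g : A) : m.ev p (f * g) = m.ev p f * m.ev p g := by
  unfold MA.ev
  rw [cauchy (sN m hp f) (sN m hp g)]
  refine tsum_congr fun t => ?_
  rw [m.c_mul, Finset.sum_mul, Finset.sum_mul]
  refine Finset.sum_congr rfl fun s hs => ?_
  rw [Finset.sum_mul, Finset.sum_mul]
  refine Finset.sum_congr rfl fun t' ht' => ?_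
  rw [Finset.HasAntidiagonal.mem_antidiagonal] at hs ht'
  rw [← hs, ← ht', pow_add, pow_add]
  ring

theorem ev_alg (p : C2) (z : ℂ) : m.ev p (algebraMap ℂ A z) = z := by
  unfold MA.ev
  rw [tsum_eq_single (0, 0)]
  · rw [Algebra.algebraMap_eq_smul_one, m.c_smul, m.c_one]
    simp
  · rintro ⟨i, j⟩ h
    rw [Algebra.algebraMap_eq_smul_one, m.c_smul, m.c_one]
    have : ¬ (i = 0 ∧ j = 0) := by
      rintro ⟨rfl, rfl⟩
      exact h rfl
    simp [this]

theorem ev_X (p : C2) : m.ev p m.X = p.1 := by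
  unfold MA.ev
  rw [tsum_eq_single (1, 0)]
  · rw [m.c_X]
    simp
  · rintro ⟨i, j⟩ h
    rw [m.c_X]
    have : ¬ (i = 1 ∧ j = 0) := by
      rintro ⟨rfl, rfl⟩
      exact h rfl
    simp [this]

theorem ev_Y (p : C2) : m.ev p m.Y = p.2 := by
  unfold MA.ev
  rw [tsum_eq_single (0, 1)]
  · rw [m.c_Y]
    simp
  · rintro ⟨i, j⟩ h
    rw [m.c_Y]
    have : ¬ (i = 0 ∧ j = 1) := by
      rintro ⟨rfl, rfl⟩
      exact h rfl
    simp [this]

theorem ev_norm {p : C2} (hp : ‖p‖ ≤ 1) (f : A) : ‖m.ev p f‖ ≤ ‖f‖ := by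
  rw [m.norm_eq f]
  exact tsum_of_norm_bounded (m.summ f).hasSum (term_le m hp f)

/-- the monomial `x^i y^(n-i)` as a multilinear map -/
noncomputable def mon (n i : ℕ) : ContinuousMultilinearMap ℂ (fun _ : Fin n => C2) ℂ :=
  (ContinuousMultilinearMap.mkPiAlgebra ℂ (Fin n) ℂ).compContinuousLinearMap
    (fun l : Fin n => if l.val < i then ContinuousLinearMap.fst ℂ ℂ ℂ
      else ContinuousLinearMap.snd ℂ ℂ ℂ)

theorem mon_norm (n i : ℕ) : ‖mon n i‖ ≤ 1 := by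
  refine (ContinuousMultilinearMap.norm_compContinuousLinearMap_le _ _).trans ?_
  rw [ContinuousMultilinearMap.norm_mkPiAlgebra, one_mul]
  refine Finset.prod_le_one (fun _ _ => norm_nonneg _) fun l _ => ?_
  split_ifs
  · exact ContinuousLinearMap.norm_fst_le _ _ _
  · exact ContinuousLinearMap.norm_snd_le _ _ _

theorem mon_apply (n i : ℕ) (h : i ≤ n) (y : C2) :
    mon n i (fun _ => y) = y.1 ^ i * y.2 ^ (n - i) := by
  unfold mon
  rw [ContinuousMultilinearMap.compContinuousLinearMap_apply,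
    ContinuousMultilinearMap.mkPiAlgebra_apply]
  have h1 : ∀ l : Fin n, ((if l.val < i then ContinuousLinearMap.fst ℂ ℂ ℂ
      else ContinuousLinearMap.snd ℂ ℂ ℂ) y) = if l.val < i then y.1 else y.2 := by
    intro l
    split_ifs <;> rfl
  simp only [h1]
  rw [Fin.prod_univ_eq_prod_range (fun l => if l < i then y.1 else y.2) n]
  obtain ⟨k, rfl⟩ := Nat.exists_eq_add_of_le h
  rw [Finset.prod_range_add]
  congr 1
  · rw [Finset.prod_congr rfl (g := fun _ => y.1), Finset.prod_const, Finset.card_range]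
    intro l hl
    rw [if_pos (Finset.mem_range.1 hl)]
  · rw [Finset.prod_congr rfl (g := fun _ => y.2), Finset.prod_const, Finset.card_range]
    · congr 1
      omega
    · intro l _
      rw [if_neg (by omega)]

/-- the power series of the evaluation map -/
noncomputable def fps (f : A) : FormalMultilinearSeries ℂ C2 ℂ := fun n =>
  ∑ t ∈ Finset.HasAntidiagonal.antidiagonal n, m.c t.1 t.2 f • mon n t.1

theorem fps_norm (f : A) (n : ℕ) : ‖fps m f n‖ ≤ ‖f‖ := by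
  unfold fps
  refine (norm_sum_le _ _).trans ?_
  rw [m.norm_eq f]
  refine le_trans (Finset.sum_le_sum fun t _ => ?_)
    ((m.summ f).sum_le_tsum (Finset.HasAntidiagonal.antidiagonal n) fun _ _ => norm_nonneg _)
  rw [norm_smul]
  calc ‖m.c t.1 t.2 f‖ * ‖mon n t.1‖ ≤ ‖m.c t.1 t.2 f‖ * 1 := by
        gcongr
        exact mon_norm _ _
    _ = _ := mul_one _

theorem fps_apply (f : A) (n : ℕ) (y : C2) :
    fps m f n (fun _ => y) =
      ∑ t ∈ Finset.HasAntidiagonal.antidiagonal n, m.c t.1 t.2 f * y.1 ^ t.1 * y.2 ^ t.2 := by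
  unfold fps
  rw [ContinuousMultilinearMap.sum_apply]
  refine Finset.sum_congr rfl fun t ht => ?_
  rw [Finset.HasAntidiagonal.mem_antidiagonal] at ht
  rw [ContinuousMultilinearMap.smul_apply, mon_apply n t.1 (by omega), smul_eq_mul]
  have : n - t.1 = t.2 := by omega
  rw [this, mul_assoc]

theorem ev_an (f : A) : AnalyticAt ℂ (fun p => m.ev p f) 0 := by
  refine ⟨fps m f, 1, ?_⟩
  refine ⟨?_, one_pos, ?_⟩
  · have := (fps m f).le_radius_of_bound (r := 1) ‖f‖ (fun n => by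
      simpa using fps_norm m f n)
    simpa using this
  · intro y hy
    rw [zero_add]
    have hy1 : ‖y‖ ≤ 1 := by
      have h := hy
      rw [Metric.mem_eball, edist_zero_right] at h
      have h2 : ‖y‖ₑ ≤ 1 := h.le
      rw [← ofReal_norm, ENNReal.ofReal_le_one] at h2
      exact h2
    have h0 := (sS m hy1 f).hasSum
    have h1 := (Finset.HasAntidiagonal.sigmaAntidiagonalEquivProd (A := ℕ)).hasSum_iff.2 h0
    have h2 := h1.sigma (fun n => hasSum_fintype _)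
    have h3 : (fun n => fps m f n fun _ => y) = fun n =>
        ∑ b : Finset.HasAntidiagonal.antidiagonal n,
          ((fun t : ℕ × ℕ => m.c t.1 t.2 f * y.1 ^ t.1 * y.2 ^ t.2) ∘
            (Finset.HasAntidiagonal.sigmaAntidiagonalEquivProd (A := ℕ))) ⟨n, b⟩ := by
      funext n
      rw [fps_apply]
      exact (Finset.sum_coe_sort _ _).symm
    rw [h3]
    exact h2

theorem ev_ord (f : A) (hf : f ∈ m.W 4) : (fun p => m.ev p f) =O[𝓝 0] fun p => ‖p‖ ^ 2 := by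
  refine IsBigO.of_bound ‖f‖ ?_
  have h : ∀ᶠ p : C2 in 𝓝 0, ‖p‖ < 1 := by
    have := (continuous_norm (E := C2)).tendsto 0
    rw [norm_zero] at this
    exact this.eventually (gt_mem_nhds one_pos)
  filter_upwards [h] with p hp
  rw [Real.norm_of_nonneg (by positivity : 0 ≤ ‖p‖ ^ 2), m.norm_eq f, ← tsum_mul_right]
  refine tsum_of_norm_bounded ((m.summ f).mul_right _).hasSum fun t => ?_
  by_cases h4 : 2 * t.1 + 3 * t.2 < 4
  · rw [hf t.1 t.2 h4]
    simp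
  · have h5 : 2 ≤ t.1 + t.2 := by omega
    rw [norm_mul, norm_mul, norm_pow, norm_pow, mul_assoc]
    have h1 : ‖p.1‖ ≤ ‖p‖ := norm_fst_le p
    have h2 : ‖p.2‖ ≤ ‖p‖ := norm_snd_le p
    calc ‖m.c t.1 t.2 f‖ * (‖p.1‖ ^ t.1 * ‖p.2‖ ^ t.2)
        ≤ ‖m.c t.1 t.2 f‖ * (‖p‖ ^ t.1 * ‖p‖ ^ t.2) := by gcongr
      _ = ‖m.c t.1 t.2 f‖ * ‖p‖ ^ (t.1 + t.2) := by rw [pow_add]
      _ ≤ ‖m.c t.1 t.2 f‖ * ‖p‖ ^ 2 := by
          have := pow_le_pow_of_le_one (norm_nonneg p) hp.le h5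
          gcongr

end EvA

theorem evA : S_EVA := by
  intro A _ _ m
  refine ⟨fun p hp => ⟨EvA.ev_add m hp, EvA.ev_mul m hp, EvA.ev_alg m p, EvA.ev_norm m hp,
    EvA.ev_X m p, EvA.ev_Y m p⟩, EvA.ev_an m, EvA.ev_ord m⟩

end Pool.Agent.R743.PB
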