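import Pool.Agent.R743.PB.Stm2

/-!
FD-V (MP_729182_ag): weights in the extension.
-/

set_option autoImplicit false

open Filter Topology Set

namespace Pool.Agent.R743.PB

namespace FVx

variable {A : Type} [NormedCommRing A] [NormedAlgebra ℂ A] {q p : A} {E : Type}
  [NormedCommRing E] [NormedAlgebra ℂ E]

theorem co_ι (e : Cub q p E) (a : A) : e.al (e.ι a) = a ∧ e.be (e.ι a) = 0 ∧ e.ga (e.ι a) = 0 := by
  have h := e.co a 0 0
  rwa [map_zero, zero_mul, zero_mul, add_zero, add_zero] at h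

theorem co_y (e : Cub q p E) : e.al e.y = 0 ∧ e.be e.y = 1 ∧ e.ga e.y = 0 := by
  have h := e.co 0 1 0
  rwa [map_zero, map_one, zero_mul, one_mul, add_zero, zero_add] at h

theorem co_mul (e : Cub q p E) (f g : E) :
    e.al (f * g) = e.al f * e.al g + p * (e.be f * e.ga g + e.ga f * e.be g) ∧
    e.be (f * g) = e.al f * e.be g + e.be f * e.al g + q * (e.be f * e.ga g + e.ga f * e.be g) +
      p * (e.ga f * e.ga g) ∧
    e.ga (f * g) = e.al f * e.ga g + e.be f * e.be g + e.ga f * e.al g +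
      q * (e.ga f * e.ga g) := by
  have hf := e.dec f
  have hg := e.dec g
  have hr := e.rel
  set a := e.al f
  set b := e.be f
  set c := e.ga f
  set a' := e.al g
  set b' := e.be g
  set c' := e.ga g
  have key : f * g = e.ι (a * a' + p * (b * c' + c * b')) +
      e.ι (a * b' + b * a' + q * (b * c' + c * b') + p * (c * c')) * e.y +
      e.ι (a * c' + b * b' + c * a' + q * (c * c')) * e.y ^ 2 := by
    rw [hf, hg]
    simp only [map_add, map_mul]
    linear_combination (e.ι b * e.ι c' + e.ι c * e.ι b' + e.ι c * e.ι c' * e.y) * hr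
  have h := e.co (a * a' + p * (b * c' + c * b'))
    (a * b' + b * a' + q * (b * c' + c * b') + p * (c * c')) (a * c' + b * b' + c * a' + q * (c * c'))
  rw [← key] at h
  exact h

theorem mem_V (e : Cub q p E) (m : MA A) (n : ℕ) (f : E) :
    f ∈ e.V m n ↔ e.al f ∈ m.W n ∧ e.be f ∈ m.W (n - 1) ∧ e.ga f ∈ m.W (n - 2) := by
  unfold Cub.V
  rw [Submodule.mem_inf, Submodule.mem_inf, Submodule.mem_comap, Submodule.mem_comap,
    Submodule.mem_comap, and_assoc]

theorem nle (e : Cub q p E) (f : E) : ‖e.al f‖ ≤ ‖f‖ ∧ ‖e.be f‖ ≤ ‖f‖ ∧ ‖e.ga f‖ ≤ ‖f‖ := by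
  have h := e.nrm f
  have h1 := norm_nonneg (e.al f)
  have h2 := norm_nonneg (e.be f)
  have h3 := norm_nonneg (e.ga f)
  refine ⟨?_, ?_, ?_⟩ <;> linarith

theorem cont_of_le (T : E →ₗ[ℂ] A) (h : ∀ f, ‖T f‖ ≤ ‖f‖) : Continuous T :=
  (T.mkContinuous 1 (fun f => by rw [one_mul]; exact h f)).continuous

end FVx

open FVx in
theorem vE (hW : S_W) : S_V := by
  intro A _ _ m q p E _ _ e hq hp
  obtain ⟨-, -, -, hcl, hanti, htop, -, -, hmul, -⟩ := hW A m
  refine ⟨fun n => ?_, fun k n hkn => ?_, ?_, ?_, fun n a ha => ?_, fun k n f g hf hg => ?_,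
    fun a => ?_, ?_⟩
  · have h1 : (e.V m n : Set E) = e.al ⁻¹' (m.W n : Set A) ∩ e.be ⁻¹' (m.W (n - 1) : Set A) ∩
        e.ga ⁻¹' (m.W (n - 2) : Set A) := by
      ext f
      rw [SetLike.mem_coe, mem_V, Set.mem_inter_iff, Set.mem_inter_iff, Set.mem_preimage,
        Set.mem_preimage, Set.mem_preimage, SetLike.mem_coe, SetLike.mem_coe, SetLike.mem_coe,
        and_assoc]
    rw [h1]
    exact (((hcl n).preimage (cont_of_le e.al fun f => (nle e f).1)).inter
      ((hcl (n - 1)).preimage (cont_of_le e.be fun f => (nle e f).2.1))).inter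
      ((hcl (n - 2)).preimage (cont_of_le e.ga fun f => (nle e f).2.2))
  · intro f hf
    rw [mem_V] at hf ⊢
    exact ⟨hanti _ _ hkn hf.1, hanti _ _ (by omega) hf.2.1, hanti _ _ (by omega) hf.2.2⟩
  · rw [eq_top_iff]
    intro f _
    rw [mem_V]
    simp only [Nat.zero_sub, htop]
    exact ⟨Submodule.mem_top, Submodule.mem_top, Submodule.mem_top⟩
  · rw [mem_V]
    obtain ⟨h1, h2, h3⟩ := co_y e
    rw [h1, h2, h3]
    refine ⟨Submodule.zero_mem _, ?_, Submodule.zero_mem _⟩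
    rw [Nat.sub_self, htop]
    exact Submodule.mem_top
  · rw [mem_V]
    obtain ⟨h1, h2, h3⟩ := co_ι e a
    rw [h1, h2, h3]
    exact ⟨ha, Submodule.zero_mem _, Submodule.zero_mem _⟩
  · rw [mem_V] at hf hg ⊢
    obtain ⟨ha, hb, hc⟩ := hf
    obtain ⟨ha', hb', hc'⟩ := hg
    obtain ⟨h1, h2, h3⟩ := co_mul e f g
    rw [h1, h2, h3]
    refine ⟨?_, ?_, ?_⟩
    · refine Submodule.add_mem _ (hmul _ _ _ _ ha ha') ?_
      rw [mul_add]
      refine Submodule.add_mem _ ?_ ?_
      · exact hanti _ _ (by omega) (hmul _ _ _ _ hp (hmul _ _ _ _ hb hc'))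
      · exact hanti _ _ (by omega) (hmul _ _ _ _ hp (hmul _ _ _ _ hc hb'))
    · refine Submodule.add_mem _ (Submodule.add_mem _ (Submodule.add_mem _ ?_ ?_) ?_) ?_
      · exact hanti _ _ (by omega) (hmul _ _ _ _ ha hb')
      · exact hanti _ _ (by omega) (hmul _ _ _ _ hb ha')
      · rw [mul_add]
        refine Submodule.add_mem _ ?_ ?_
        · exact hanti _ _ (by omega) (hmul _ _ _ _ hq (hmul _ _ _ _ hb hc'))
        · exact hanti _ _ (by omega) (hmul _ _ _ _ hq (hmul _ _ _ _ hc hb'))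
      · exact hanti _ _ (by omega) (hmul _ _ _ _ hp (hmul _ _ _ _ hc hc'))
    · refine Submodule.add_mem _ (Submodule.add_mem _ (Submodule.add_mem _ ?_ ?_) ?_) ?_
      · exact hanti _ _ (by omega) (hmul _ _ _ _ ha hc')
      · exact hanti _ _ (by omega) (hmul _ _ _ _ hb hb')
      · exact hanti _ _ (by omega) (hmul _ _ _ _ hc ha')
      · exact hanti _ _ (by omega) (hmul _ _ _ _ hq (hmul _ _ _ _ hc hc'))
  · obtain ⟨h1, h2, h3⟩ := co_ι e a
    rw [e.nrm, h1, h2, h3, norm_zero, add_zero, add_zero]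
  · obtain ⟨h1, h2, h3⟩ := co_y e
    rw [e.nrm, h1, h2, h3, norm_zero, add_zero, zero_add]

end Pool.Agent.R743.PB
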