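import Pool.Agent.R743.PB.Stm2
import Pool.Agent.R743.PB.FV

/-!
FD-EVE (MP_729182_ag): evaluation in the extension.
-/

set_option autoImplicit false

open Filter Topology Set Asymptotics

namespace Pool.Agent.R743.PB

namespace FEx

variable {A : Type} [NormedCommRing A] [NormedAlgebra ℂ A]

/-- the point of evaluation -/
noncomputable def sg (r : ℝ) (z : C2) : C2 :=
  (8 * z.1 / r ^ 2, 2 * (z.2 ^ 3 - qq z.1 * z.2) / r ^ 3)

/-- the linear scaling -/
noncomputable def sl (r : ℝ) (z : C2) : C2 := (8 * z.1 / r ^ 2, 2 * z.2 / r ^ 3)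

theorem sg_zero (r : ℝ) : sg r 0 = 0 := by
  unfold sg
  simp [qq]

theorem sl_zero (r : ℝ) : sl r 0 = 0 := by
  unfold sl
  simp

theorem sg_an' (r : ℝ) (u v : C2 → ℂ) (hu : AnalyticAt ℂ u 0) (hv : AnalyticAt ℂ v 0) :
    AnalyticAt ℂ (fun z => ((8 * u z / r ^ 2,
      2 * (v z ^ 3 - u z * (1 + u z + u z ^ 2) * v z) / r ^ 3) : C2)) 0 := by
  refine AnalyticAt.prod ?_ ?_
  · simp only [div_eq_mul_inv]
    fun_prop
  · simp only [div_eq_mul_inv]
    fun_prop

theorem sg_an (r : ℝ) : AnalyticAt ℂ (sg r) 0 :=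
  sg_an' r (fun z => z.1) (fun z => z.2) analyticAt_fst analyticAt_snd

theorem sl_an' (r : ℝ) (u v : C2 → ℂ) (hu : AnalyticAt ℂ u 0) (hv : AnalyticAt ℂ v 0) :
    AnalyticAt ℂ (fun z => ((8 * u z / r ^ 2, 2 * v z / r ^ 3) : C2)) 0 := by
  refine AnalyticAt.prod ?_ ?_
  · simp only [div_eq_mul_inv]
    fun_prop
  · simp only [div_eq_mul_inv]
    fun_prop

theorem sl_an (r : ℝ) : AnalyticAt ℂ (sl r) 0 :=
  sl_an' r (fun z => z.1) (fun z => z.2) analyticAt_fst analyticAt_snd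

theorem O_of_an (s : C2 → C2) (h : AnalyticAt ℂ s 0) (h0 : s 0 = 0) :
    s =O[𝓝 0] fun z => ‖z‖ := by
  have h1 := h.differentiableAt.isBigO_sub
  simp only [h0, sub_zero] at h1
  exact h1.norm_right

theorem tends (s : C2 → C2) (h : AnalyticAt ℂ s 0) (h0 : s 0 = 0) :
    Tendsto s (𝓝 0) (𝓝 0) := by
  have := h.continuousAt.tendsto
  rwa [h0] at this

end FEx

open FVx FEx in
theorem evE (hW : S_W) (hA : S_EVA) (hV : S_V) : S_EVE := by
  intro A _ _ m r hr E _ _ e
  obtain ⟨-, -, -, -, hanti, -, -, -, -, -⟩ := hW A m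
  obtain ⟨hev, han, hord⟩ := hA A m
  have hr0 : (r : ℂ) ≠ 0 := by exact_mod_cast hr.ne'
  have hevdef : ∀ z f, e.ev m r z f = m.ev (sg r z) (e.al f) + m.ev (sg r z) (e.be f) * (z.2 / r) +
      m.ev (sg r z) (e.ga f) * (z.2 / r) ^ 2 := fun z f => rfl
  have hcomp : ∀ (s : C2 → C2), AnalyticAt ℂ s 0 → s 0 = 0 → ∀ a : A,
      AnalyticAt ℂ (fun z => m.ev (s z) a) 0 := by
    intro s hs hs0 a
    have h1 := han a
    rw [← hs0] at h1
    exact h1.comp hs
  have hcompO : ∀ (s : C2 → C2), AnalyticAt ℂ s 0 → s 0 = 0 → ∀ a ∈ m.W 4,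
      (fun z => m.ev (s z) a) =O[𝓝 0] fun z => ‖z‖ ^ 2 := by
    intro s hs hs0 a ha
    have h1 := (hord a ha).comp_tendsto (tends s hs hs0)
    refine h1.trans ?_
    exact ((O_of_an s hs hs0).norm_left.pow 2)
  have hz : ∀ a : A, m.ev 0 a = m.ev 0 a := fun _ => rfl
  refine ⟨?_, ?_, ?_, ?_⟩
  · have hs1 : ∀ᶠ z in 𝓝 (0 : C2), ‖sg r z‖ ≤ 1 := by
      have h1 := (tends (sg r) (sg_an r) (sg_zero r)).norm
      rw [norm_zero] at h1
      exact (h1.eventually (gt_mem_nhds one_pos)).mono fun z hz => le_of_lt hz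
    have hs2 : ∀ᶠ z in 𝓝 (0 : C2), ‖z.2 / (r : ℂ)‖ ≤ 1 := by
      have h1 : Tendsto (fun z : C2 => ‖z.2 / (r : ℂ)‖) (𝓝 0) (𝓝 0) := by
        have h2 : Continuous (fun z : C2 => ‖z.2 / (r : ℂ)‖) := by fun_prop
        have h3 := h2.tendsto (0 : C2)
        simpa using h3
      exact (h1.eventually (gt_mem_nhds one_pos)).mono fun z hz => le_of_lt hz
    filter_upwards [hs1, hs2] with z hz1 hz2
    obtain ⟨hadd, hmul, hal, hnm, hX, hY⟩ := hev (sg r z) hz1
    have hzero : m.ev (sg r z) 0 = 0 := by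
      have := hal 0
      rwa [map_zero] at this
    have hone : m.ev (sg r z) 1 = 1 := by
      have := hal 1
      rwa [map_one] at this
    have hsm : ∀ (c : ℂ) (a : A), m.ev (sg r z) (c • a) = c * m.ev (sg r z) a := by
      intro c a
      rw [Algebra.smul_def, hmul, hal]
    have hxs : m.ev (sg r z) (m.xs r) = z.1 := by
      unfold MA.xs
      rw [hsm, hX]
      unfold sg
      push_cast
      field_simp
    have hqs : m.ev (sg r z) (m.qs r) = qq z.1 / r ^ 2 := by
      unfold MA.qs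
      rw [hsm, hmul, hadd, hadd, hone, pow_two (m.xs r), hmul, hxs, hX]
      unfold sg qq
      push_cast
      field_simp
    have hps : m.ev (sg r z) m.ps = (z.2 ^ 3 - qq z.1 * z.2) / r ^ 3 := by
      unfold MA.ps
      rw [hsm, hY]
      unfold sg
      push_cast
      field_simp
    have hι : ∀ a : A, e.ev m r z (e.ι a) = m.ev (sg r z) a := by
      intro a
      obtain ⟨h1, h2, h3⟩ := co_ι e a
      rw [hevdef, h1, h2, h3, hzero, zero_mul, zero_mul, add_zero, add_zero]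
    refine ⟨fun f g => ?_, fun f g => ?_, fun w => ?_, fun f => ?_, ?_, ?_⟩
    · rw [hevdef, hevdef, hevdef, map_add, map_add, map_add, hadd, hadd, hadd]
      ring
    · rw [hevdef, hevdef, hevdef]
      obtain ⟨h1, h2, h3⟩ := co_mul e f g
      rw [h1, h2, h3]
      simp only [hadd, hmul, hqs, hps]
      generalize m.ev (sg r z) (e.al f) = a
      generalize m.ev (sg r z) (e.be f) = b
      generalize m.ev (sg r z) (e.ga f) = c
      generalize m.ev (sg r z) (e.al g) = a'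
      generalize m.ev (sg r z) (e.be g) = b'
      generalize m.ev (sg r z) (e.ga g) = c'
      generalize qq z.1 = u
      field_simp
      ring
    · rw [← e.ι.commutes w, hι, hal]
    · rw [hevdef, e.nrm f]
      have h1 := hnm (e.al f)
      have h2 := hnm (e.be f)
      have h3 := hnm (e.ga f)
      have h4 : ‖m.ev (sg r z) (e.be f) * (z.2 / r)‖ ≤ ‖e.be f‖ := by
        rw [norm_mul]
        calc ‖m.ev (sg r z) (e.be f)‖ * ‖z.2 / (r : ℂ)‖ ≤ ‖e.be f‖ * 1 := by
              gcongr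
          _ = ‖e.be f‖ := mul_one _
      have h5 : ‖m.ev (sg r z) (e.ga f) * (z.2 / r) ^ 2‖ ≤ ‖e.ga f‖ := by
        rw [norm_mul, norm_pow]
        calc ‖m.ev (sg r z) (e.ga f)‖ * ‖z.2 / (r : ℂ)‖ ^ 2 ≤ ‖e.ga f‖ * 1 ^ 2 := by
              gcongr
          _ = ‖e.ga f‖ := by rw [one_pow, mul_one]
      refine (norm_add_le _ _).trans (add_le_add ((norm_add_le _ _).trans (add_le_add h1 h4)) h5)
    · rw [hι, hxs]
    · obtain ⟨h1, h2, h3⟩ := co_y e
      rw [hevdef, map_smul, map_smul, map_smul, h1, h2, h3, smul_zero, hzero, hsm, hone]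
      field_simp
      ring
  · intro f
    have h1 := hcomp (sg r) (sg_an r) (sg_zero r)
    have h2 : AnalyticAt ℂ (fun z : C2 => z.2 / (r : ℂ)) 0 := by
      simp only [div_eq_mul_inv]
      exact analyticAt_snd.mul analyticAt_const
    exact ((h1 (e.al f)).add ((h1 (e.be f)).mul h2)).add ((h1 (e.ga f)).mul (h2.pow 2))
  · intro f hf
    rw [mem_V] at hf
    obtain ⟨ha, hb, hc⟩ := hf
    have h1 := hcompO (sg r) (sg_an r) (sg_zero r)
    have h2 : (fun z : C2 => z.2 / (r : ℂ)) =O[𝓝 0] fun _ => (1 : ℝ) := by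
      have h3 : Continuous (fun z : C2 => z.2 / (r : ℂ)) := by fun_prop
      exact (h3.tendsto (0 : C2)).isBigO_one ℝ
    have e1 := h1 (e.al f) (hanti _ _ (by norm_num) ha)
    have e2 := (h1 (e.be f) (hanti _ _ (by norm_num) hb)).mul h2
    have e3 := (h1 (e.ga f) (hanti _ _ (by norm_num) hc)).mul (h2.pow 2)
    simp only [mul_one, one_pow] at e2 e3
    exact (e1.add e2).add e3
  · intro a
    refine ⟨fun z => m.ev (sl r z) a, hcomp (sl r) (sl_an r) (sl_zero r) a, ?_, fun ha => ?_⟩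
    · have hs1 : ∀ᶠ z in 𝓝 (0 : C2), ‖sg r z‖ ≤ 1 := by
        have h1 := (tends (sg r) (sg_an r) (sg_zero r)).norm
        rw [norm_zero] at h1
        exact (h1.eventually (gt_mem_nhds one_pos)).mono fun z hz => le_of_lt hz
      filter_upwards [hs1] with z hz1
      obtain ⟨hadd, hmul, hal, hnm, hX, hY⟩ := hev (sg r z) hz1
      have hzero : m.ev (sg r z) 0 = 0 := by
        have := hal 0
        rwa [map_zero] at this
      obtain ⟨h1, h2, h3⟩ := co_ι e a
      rw [hevdef, h1, h2, h3, hzero, zero_mul, zero_mul, add_zero, add_zero]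
      rfl
    · exact hcompO (sl r) (sl_an r) (sl_zero r) a (hanti _ _ (by norm_num) ha)

end Pool.Agent.R743.PB
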