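import Pool.Agent.R743.PB.Stm2

/-!
# The cubic extension `A ⊕ A y ⊕ A y²`, `y³ = q y + p`, of a commutative Banach algebra
-/

set_option autoImplicit false

open Filter Topology

namespace Pool.Agent.R743.PB

namespace ExtX

/-- triples `a + b y + c y²` with `y³ = q y + p` -/
@[ext]
structure Ext {A : Type} (q p : A) : Type where
  a : A
  b : A
  c : A

variable {A : Type} [NormedCommRing A] {q p : A}

instance : Zero (Ext q p) := ⟨⟨0, 0, 0⟩⟩
instance : One (Ext q p) := ⟨⟨1, 0, 0⟩⟩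
instance : Add (Ext q p) := ⟨fun f g => ⟨f.a + g.a, f.b + g.b, f.c + g.c⟩⟩
instance : Neg (Ext q p) := ⟨fun f => ⟨-f.a, -f.b, -f.c⟩⟩
instance : Mul (Ext q p) := ⟨fun f g =>
  ⟨f.a * g.a + p * (f.b * g.c + f.c * g.b),
   f.a * g.b + f.b * g.a + q * (f.b * g.c + f.c * g.b) + p * (f.c * g.c),
   f.a * g.c + f.b * g.b + f.c * g.a + q * (f.c * g.c)⟩⟩

@[simp] theorem zero_a : (0 : Ext q p).a = 0 := rfl
@[simp] theorem zero_b : (0 : Ext q p).b = 0 := rfl
@[simp] theorem zero_c : (0 : Ext q p).c = 0 := rfl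
@[simp] theorem one_a : (1 : Ext q p).a = 1 := rfl
@[simp] theorem one_b : (1 : Ext q p).b = 0 := rfl
@[simp] theorem one_c : (1 : Ext q p).c = 0 := rfl
@[simp] theorem add_a (f g : Ext q p) : (f + g).a = f.a + g.a := rfl
@[simp] theorem add_b (f g : Ext q p) : (f + g).b = f.b + g.b := rfl
@[simp] theorem add_c (f g : Ext q p) : (f + g).c = f.c + g.c := rfl
@[simp] theorem neg_a (f : Ext q p) : (-f).a = -f.a := rfl
@[simp] theorem neg_b (f : Ext q p) : (-f).b = -f.b := rfl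
@[simp] theorem neg_c (f : Ext q p) : (-f).c = -f.c := rfl
@[simp] theorem mul_a (f g : Ext q p) :
    (f * g).a = f.a * g.a + p * (f.b * g.c + f.c * g.b) := rfl
@[simp] theorem mul_b (f g : Ext q p) :
    (f * g).b = f.a * g.b + f.b * g.a + q * (f.b * g.c + f.c * g.b) + p * (f.c * g.c) := rfl
@[simp] theorem mul_c (f g : Ext q p) :
    (f * g).c = f.a * g.c + f.b * g.b + f.c * g.a + q * (f.c * g.c) := rfl

instance : CommRing (Ext q p) where
  add_assoc := by intros; ext <;> simp <;> ring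
  zero_add := by intros; ext <;> simp
  add_zero := by intros; ext <;> simp
  add_comm := by intros; ext <;> simp <;> ring
  neg_add_cancel := by intros; ext <;> simp
  mul_assoc := by intros; ext <;> simp <;> ring
  one_mul := by intros; ext <;> simp
  mul_one := by intros; ext <;> simp
  zero_mul := by intros; ext <;> simp
  mul_zero := by intros; ext <;> simp
  left_distrib := by intros; ext <;> simp <;> ring
  right_distrib := by intros; ext <;> simp <;> ring
  mul_comm := by intros; ext <;> simp <;> ring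
  nsmul := nsmulRec
  zsmul := zsmulRec

noncomputable instance : NormedAddCommGroup (Ext q p) :=
  AddGroupNorm.toNormedAddCommGroup
    { toFun := fun f => ‖f.a‖ + ‖f.b‖ + ‖f.c‖
      map_zero' := by simp
      add_le' := by
        intro f g
        have h1 := norm_add_le f.a g.a
        have h2 := norm_add_le f.b g.b
        have h3 := norm_add_le f.c g.c
        simp only [add_a, add_b, add_c]
        linarith
      neg' := by intro f; simp
      eq_zero_of_map_eq_zero' := by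
        intro f hf
        have h1 := norm_nonneg f.a
        have h2 := norm_nonneg f.b
        have h3 := norm_nonneg f.c
        ext
        · exact norm_eq_zero.1 (by linarith)
        · exact norm_eq_zero.1 (by linarith)
        · exact norm_eq_zero.1 (by linarith) }

theorem norm_def (f : Ext q p) : ‖f‖ = ‖f.a‖ + ‖f.b‖ + ‖f.c‖ := rfl

theorem mul_le [h : Fact (‖q‖ + ‖p‖ ≤ 1)] (f g : Ext q p) : ‖f * g‖ ≤ ‖f‖ * ‖g‖ := by
  have hh := h.out
  rw [norm_def, norm_def, norm_def, mul_a, mul_b, mul_c]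
  obtain ⟨a, b, c⟩ := f
  obtain ⟨a', b', c'⟩ := g
  simp only
  have n1 : ‖a * a'‖ ≤ ‖a‖ * ‖a'‖ := norm_mul_le _ _
  have n2 : ‖a * b'‖ ≤ ‖a‖ * ‖b'‖ := norm_mul_le _ _
  have n3 : ‖a * c'‖ ≤ ‖a‖ * ‖c'‖ := norm_mul_le _ _
  have n4 : ‖b * a'‖ ≤ ‖b‖ * ‖a'‖ := norm_mul_le _ _
  have n5 : ‖b * b'‖ ≤ ‖b‖ * ‖b'‖ := norm_mul_le _ _
  have n6 : ‖b * c'‖ ≤ ‖b‖ * ‖c'‖ := norm_mul_le _ _
  have n7 : ‖c * a'‖ ≤ ‖c‖ * ‖a'‖ := norm_mul_le _ _
  have n8 : ‖c * b'‖ ≤ ‖c‖ * ‖b'‖ := norm_mul_le _ _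
  have n9 : ‖c * c'‖ ≤ ‖c‖ * ‖c'‖ := norm_mul_le _ _
  have c3 : ‖b * c' + c * b'‖ ≤ ‖b‖ * ‖c'‖ + ‖c‖ * ‖b'‖ := by
    have := norm_add_le (b * c') (c * b')
    linarith
  have p3 : ‖p * (b * c' + c * b')‖ ≤ ‖p‖ * ‖b * c' + c * b'‖ := norm_mul_le _ _
  have q3 : ‖q * (b * c' + c * b')‖ ≤ ‖q‖ * ‖b * c' + c * b'‖ := norm_mul_le _ _
  have p4 : ‖p * (c * c')‖ ≤ ‖p‖ * ‖c * c'‖ := norm_mul_le _ _
  have q4 : ‖q * (c * c')‖ ≤ ‖q‖ * ‖c * c'‖ := norm_mul_le _ _
  have s1 : ‖a * a' + p * (b * c' + c * b')‖ ≤ ‖a * a'‖ + ‖p * (b * c' + c * b')‖ :=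
    norm_add_le _ _
  have s2 : ‖a * b' + b * a' + q * (b * c' + c * b') + p * (c * c')‖ ≤
      ‖a * b'‖ + ‖b * a'‖ + ‖q * (b * c' + c * b')‖ + ‖p * (c * c')‖ := by
    refine (norm_add_le _ _).trans (add_le_add ?_ le_rfl)
    refine (norm_add_le _ _).trans (add_le_add ?_ le_rfl)
    exact norm_add_le _ _
  have s3 : ‖a * c' + b * b' + c * a' + q * (c * c')‖ ≤
      ‖a * c'‖ + ‖b * b'‖ + ‖c * a'‖ + ‖q * (c * c')‖ := by
    refine (norm_add_le _ _).trans (add_le_add ?_ le_rfl)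
    refine (norm_add_le _ _).trans (add_le_add ?_ le_rfl)
    exact norm_add_le _ _
  have t3 : (‖q‖ + ‖p‖) * ‖b * c' + c * b'‖ ≤ ‖b * c' + c * b'‖ :=
    mul_le_of_le_one_left (norm_nonneg _) hh
  have t4 : (‖q‖ + ‖p‖) * ‖c * c'‖ ≤ ‖c * c'‖ := mul_le_of_le_one_left (norm_nonneg _) hh
  have hfin : (‖a‖ + ‖b‖ + ‖c‖) * (‖a'‖ + ‖b'‖ + ‖c'‖) =
      ‖a‖ * ‖a'‖ + ‖a‖ * ‖b'‖ + ‖a‖ * ‖c'‖ + ‖b‖ * ‖a'‖ + ‖b‖ * ‖b'‖ + ‖b‖ * ‖c'‖
        + ‖c‖ * ‖a'‖ + ‖c‖ * ‖b'‖ + ‖c‖ * ‖c'‖ := by ring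
  rw [hfin]
  linarith

noncomputable instance [Fact (‖q‖ + ‖p‖ ≤ 1)] : NormedCommRing (Ext q p) :=
  { (inferInstance : NormedAddCommGroup (Ext q p)), (inferInstance : CommRing (Ext q p)) with
    norm_mul_le := mul_le }

variable [NormedAlgebra ℂ A]

noncomputable instance : SMul ℂ (Ext q p) := ⟨fun z f => ⟨z • f.a, z • f.b, z • f.c⟩⟩

@[simp] theorem smul_a (z : ℂ) (f : Ext q p) : (z • f).a = z • f.a := rfl
@[simp] theorem smul_b (z : ℂ) (f : Ext q p) : (z • f).b = z • f.b := rfl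
@[simp] theorem smul_c (z : ℂ) (f : Ext q p) : (z • f).c = z • f.c := rfl

/-- the inclusion as a ring homomorphism -/
noncomputable def inc (q p : A) : A →+* Ext q p where
  toFun x := ⟨x, 0, 0⟩
  map_one' := rfl
  map_zero' := rfl
  map_add' x y := by ext <;> simp
  map_mul' x y := by ext <;> simp

@[simp] theorem inc_a (x : A) : (inc q p x).a = x := rfl
@[simp] theorem inc_b (x : A) : (inc q p x).b = 0 := rfl
@[simp] theorem inc_c (x : A) : (inc q p x).c = 0 := rfl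

noncomputable instance : Algebra ℂ (Ext q p) where
  algebraMap := (inc q p).comp (algebraMap ℂ A)
  commutes' := by intro z f; rw [mul_comm]
  smul_def' := by
    intro z f
    ext <;> simp [Algebra.smul_def]

noncomputable instance [Fact (‖q‖ + ‖p‖ ≤ 1)] : NormedAlgebra ℂ (Ext q p) where
  norm_smul_le := by
    intro z f
    rw [norm_def, norm_def, smul_a, smul_b, smul_c, norm_smul, norm_smul, norm_smul]
    exact le_of_eq (by ring)

theorem complete [CompleteSpace A] : CompleteSpace (Ext q p) := by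
  refine Metric.complete_of_cauchySeq_tendsto fun u hu => ?_
  have key : ∀ φ : Ext q p → A, (∀ f g, φ (f - g) = φ f - φ g) → (∀ f, ‖φ f‖ ≤ ‖f‖) →
      ∃ x, Tendsto (fun n => φ (u n)) atTop (𝓝 x) := by
    intro φ h1 h2
    refine cauchySeq_tendsto_of_complete ?_
    rw [Metric.cauchySeq_iff] at hu ⊢
    intro ε hε
    obtain ⟨N, hN⟩ := hu ε hε
    refine ⟨N, fun m hm n hn => ?_⟩
    have h3 := hN m hm n hn
    rw [dist_eq_norm] at h3 ⊢
    rw [← h1]
    exact (h2 _).trans_lt h3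
  have hsub_a : ∀ f g : Ext q p, (f - g).a = f.a - g.a := fun f g => by
    rw [sub_eq_add_neg, add_a, neg_a, ← sub_eq_add_neg]
  have hsub_b : ∀ f g : Ext q p, (f - g).b = f.b - g.b := fun f g => by
    rw [sub_eq_add_neg, add_b, neg_b, ← sub_eq_add_neg]
  have hsub_c : ∀ f g : Ext q p, (f - g).c = f.c - g.c := fun f g => by
    rw [sub_eq_add_neg, add_c, neg_c, ← sub_eq_add_neg]
  obtain ⟨x, hx⟩ := key (fun f => f.a) hsub_a (fun f => by
    rw [norm_def]; linarith [norm_nonneg f.b, norm_nonneg f.c])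
  obtain ⟨y, hy⟩ := key (fun f => f.b) hsub_b (fun f => by
    rw [norm_def]; linarith [norm_nonneg f.a, norm_nonneg f.c])
  obtain ⟨z, hz⟩ := key (fun f => f.c) hsub_c (fun f => by
    rw [norm_def]; linarith [norm_nonneg f.b, norm_nonneg f.a])
  refine ⟨⟨x, y, z⟩, ?_⟩
  rw [tendsto_iff_norm_sub_tendsto_zero] at hx hy hz ⊢
  have h4 := (hx.add hy).add hz
  rw [add_zero, add_zero] at h4
  refine h4.congr fun n => ?_
  rw [norm_def, hsub_a, hsub_b, hsub_c]

/-- the structure of the cubic extension -/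
noncomputable def cub [Fact (‖q‖ + ‖p‖ ≤ 1)] : Cub q p (Ext q p) where
  ι := { inc q p with commutes' := fun z => rfl }
  y := ⟨0, 1, 0⟩
  al := { toFun := fun f => f.a, map_add' := fun _ _ => rfl, map_smul' := fun _ _ => rfl }
  be := { toFun := fun f => f.b, map_add' := fun _ _ => rfl, map_smul' := fun _ _ => rfl }
  ga := { toFun := fun f => f.c, map_add' := fun _ _ => rfl, map_smul' := fun _ _ => rfl }
  rel := by
    change _ = inc q p q * _ + inc q p p
    rw [pow_succ, pow_two]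
    ext <;> simp
  dec := by
    intro f
    change f = inc q p f.a + inc q p f.b * _ + inc q p f.c * _
    rw [pow_two]
    ext <;> simp
  nrm := fun f => rfl
  co := by
    intro a b c
    change (inc q p a + inc q p b * _ + inc q p c * _).a = a ∧
      (inc q p a + inc q p b * _ + inc q p c * _).b = b ∧
      (inc q p a + inc q p b * _ + inc q p c * _).c = c
    rw [pow_two]
    refine ⟨?_, ?_, ?_⟩ <;> simp

end ExtX

open ExtX in
/-- the cubic extension exists -/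
theorem ext3 : S_EXT := by
  intro A _ _ _ q p _ h
  have : Fact (‖q‖ + ‖p‖ ≤ 1) := ⟨h⟩
  exact ⟨Ext q p, inferInstance, inferInstance, complete, ⟨cub⟩⟩

end Pool.Agent.R743.PB
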