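import Pool.Agent.R743.PB.Stm2

set_option autoImplicit false

open Filter Topology Set Asymptotics

namespace Pool.Agent.R743.PB

namespace FcAux

lemma pw {E : Type} [NormedCommRing E] (h1 : ‖(1 : E)‖ ≤ 1) {z : E} {s : ℝ} (hz : ‖z‖ ≤ s)
    (i : ℕ) : ‖z ^ i‖ ≤ s ^ i := by
  rcases Nat.eq_zero_or_pos i with rfl | hi
  · simpa using h1
  · exact (norm_pow_le' z hi).trans (pow_le_pow_left₀ (norm_nonneg z) hz i)

lemma pw_sub {E : Type} [NormedCommRing E] (h1 : ‖(1 : E)‖ ≤ 1) {z z' : E} {s : ℝ}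
    (hz : ‖z‖ ≤ s) (hz' : ‖z'‖ ≤ s) (i : ℕ) :
    ‖z ^ i - z' ^ i‖ ≤ (i : ℝ) * s ^ (i - 1) * ‖z - z'‖ := by
  have hs : 0 ≤ s := (norm_nonneg z).trans hz
  induction i with
  | zero => simp
  | succ i ih =>
    have e : z ^ (i + 1) - z' ^ (i + 1) = z ^ i * (z - z') + (z ^ i - z' ^ i) * z' := by ring
    rw [e]
    refine (norm_add_le _ _).trans ?_
    have a1 : ‖z ^ i * (z - z')‖ ≤ s ^ i * ‖z - z'‖ :=
      (norm_mul_le _ _).trans (mul_le_mul_of_nonneg_right (pw h1 hz i) (norm_nonneg _))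
    have a2 : ‖(z ^ i - z' ^ i) * z'‖ ≤ ((i : ℝ) * s ^ (i - 1) * ‖z - z'‖) * s :=
      (norm_mul_le _ _).trans (mul_le_mul ih hz' (norm_nonneg _) (by positivity))
    have a3 : ((i : ℝ) * s ^ (i - 1) * ‖z - z'‖) * s = (i : ℝ) * s ^ i * ‖z - z'‖ := by
      rcases Nat.eq_zero_or_pos i with rfl | hi
      · simp
      · obtain ⟨m, rfl⟩ : ∃ m, i = m + 1 := ⟨i - 1, by omega⟩
        simp only [Nat.add_sub_cancel]
        ring
    rw [a3] at a2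
    simp only [Nat.add_sub_cancel]
    push_cast
    linarith

lemma mul_sub' {E : Type} [NormedCommRing E] (h1 : ‖(1 : E)‖ ≤ 1) {z z' w w' : E} {s : ℝ}
    (hz : ‖z‖ ≤ s) (hz' : ‖z'‖ ≤ s) (hw : ‖w‖ ≤ s) (hw' : ‖w'‖ ≤ s) (i j : ℕ) :
    ‖z ^ i * w ^ j - z' ^ i * w' ^ j‖ ≤
      (((i + j : ℕ) : ℝ) * s ^ (i + j - 1)) * (‖z - z'‖ + ‖w - w'‖) := by
  have hs : 0 ≤ s := (norm_nonneg z).trans hz
  have e : z ^ i * w ^ j - z' ^ i * w' ^ j =
      (z ^ i - z' ^ i) * w ^ j + z' ^ i * (w ^ j - w' ^ j) := by ring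
  rw [e]
  refine (norm_add_le _ _).trans ?_
  have a1 : ‖(z ^ i - z' ^ i) * w ^ j‖ ≤ ((i : ℝ) * s ^ (i - 1) * ‖z - z'‖) * s ^ j :=
    (norm_mul_le _ _).trans (mul_le_mul (pw_sub h1 hz hz' i) (pw h1 hw j) (norm_nonneg _)
      (by positivity))
  have a2 : ‖z' ^ i * (w ^ j - w' ^ j)‖ ≤ s ^ i * ((j : ℝ) * s ^ (j - 1) * ‖w - w'‖) :=
    (norm_mul_le _ _).trans (mul_le_mul (pw h1 hz' i) (pw_sub h1 hw hw' j) (norm_nonneg _)
      (by positivity))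
  have b1 : (i : ℝ) * s ^ (i - 1) * s ^ j ≤ ((i + j : ℕ) : ℝ) * s ^ (i + j - 1) := by
    rcases Nat.eq_zero_or_pos i with rfl | hi
    · simp only [Nat.cast_zero, zero_mul]; positivity
    · rw [mul_assoc, ← pow_add, show i - 1 + j = i + j - 1 by omega]
      refine mul_le_mul_of_nonneg_right ?_ (by positivity)
      exact_mod_cast Nat.le_add_right i j
  have b2 : s ^ i * ((j : ℝ) * s ^ (j - 1)) ≤ ((i + j : ℕ) : ℝ) * s ^ (i + j - 1) := by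
    rcases Nat.eq_zero_or_pos j with rfl | hj
    · simp only [Nat.cast_zero, zero_mul, mul_zero]; positivity
    · rw [show s ^ i * ((j : ℝ) * s ^ (j - 1)) = (j : ℝ) * (s ^ i * s ^ (j - 1)) by ring, ← pow_add,
        show i + (j - 1) = i + j - 1 by omega]
      refine mul_le_mul_of_nonneg_right ?_ (by positivity)
      exact_mod_cast Nat.le_add_left j i
  have c1 := mul_le_mul_of_nonneg_right b1 (norm_nonneg (z - z'))
  have c2 := mul_le_mul_of_nonneg_right b2 (norm_nonneg (w - w'))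
  have d1 : ((i : ℝ) * s ^ (i - 1) * ‖z - z'‖) * s ^ j = (i : ℝ) * s ^ (i - 1) * s ^ j * ‖z - z'‖ := by
    ring
  have d2 : s ^ i * ((j : ℝ) * s ^ (j - 1) * ‖w - w'‖) =
      s ^ i * ((j : ℝ) * s ^ (j - 1)) * ‖w - w'‖ := by ring
  rw [d1] at a1
  rw [d2] at a2
  linarith

lemma geo2 : HasSum (fun t : ℕ × ℕ => (1 / 2 : ℝ) ^ (t.1 + t.2)) 4 := by
  have h : Summable (fun n : ℕ => (1 / 2 : ℝ) ^ n) := summable_geometric_two
  have hs : Summable (fun t : ℕ × ℕ => (1 / 2 : ℝ) ^ t.1 * (1 / 2 : ℝ) ^ t.2) :=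
    h.mul_of_nonneg h (fun n => by positivity) (fun n => by positivity)
  have ht : ∑' t : ℕ × ℕ, (1 / 2 : ℝ) ^ t.1 * (1 / 2 : ℝ) ^ t.2 = 4 := by
    rw [← tsum_mul_tsum_of_summable_norm (f := fun n : ℕ => (1 / 2 : ℝ) ^ n)
      (g := fun n : ℕ => (1 / 2 : ℝ) ^ n) h.norm h.norm, tsum_geometric_two]
    norm_num
  have := hs.hasSum
  rw [ht] at this
  simp only [← pow_add] at this
  exact this

/-- the coefficient bound -/
lemma coef {d : ℕ → ℕ → ℂ} {C ρ : ℝ} {k : ℕ} (hρ : 0 < ρ)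
    (hd : ∀ i j, ‖d i j‖ * ρ ^ (i + j) ≤ C) (hk : ∀ i j, i + j ≤ k → d i j = 0)
    {s : ℝ} (hs0 : 0 ≤ s) (hs : s ≤ ρ / 4) (i j : ℕ) :
    ‖d i j‖ * s ^ (i + j) ≤ s ^ (k + 1) * (C / (ρ / 4) ^ (k + 1) * (1 / 2) ^ (i + j)) ∧
    ‖d i j‖ * (((i + j : ℕ) : ℝ) * s ^ (i + j - 1)) ≤
      s ^ k * (C / (ρ / 4) ^ (k + 1) * (1 / 2) ^ (i + j)) := by
  have hC : 0 ≤ C := (mul_nonneg (norm_nonneg (d 0 0)) (by positivity)).trans (hd 0 0)
  by_cases hij : i + j ≤ k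
  · rw [hk i j hij, norm_zero, zero_mul, zero_mul]
    exact ⟨by positivity, by positivity⟩
  · obtain ⟨m, hm⟩ : ∃ m, i + j = k + 1 + m := ⟨i + j - (k + 1), by omega⟩
    have h1 := hd i j
    rw [hm] at h1 ⊢
    set a := ‖d i j‖ with ha
    have ha0 : 0 ≤ a := norm_nonneg _
    set t := ρ / 4 with ht
    have ht0 : 0 < t := by positivity
    have hρt : ρ = 4 * t := by rw [ht]; ring
    -- (n+1) (1/4)^n ≤ (1/2)^n
    have h2 : (((k + 1 + m : ℕ) : ℝ) + 1) * (1 / 4 : ℝ) ^ (k + 1 + m) ≤ (1 / 2) ^ (k + 1 + m) := by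
      have h3 : (k + 1 + m) + 1 ≤ 2 ^ (k + 1 + m) := Nat.lt_two_pow_self
      have h4 : (((k + 1 + m : ℕ) : ℝ) + 1) ≤ 2 ^ (k + 1 + m) := by exact_mod_cast h3
      calc (((k + 1 + m : ℕ) : ℝ) + 1) * (1 / 4 : ℝ) ^ (k + 1 + m)
          ≤ 2 ^ (k + 1 + m) * (1 / 4 : ℝ) ^ (k + 1 + m) :=
            mul_le_mul_of_nonneg_right h4 (by positivity)
        _ = (1 / 2) ^ (k + 1 + m) := by rw [← mul_pow]; norm_num
    have h5 : a * ((((k + 1 + m : ℕ) : ℝ) + 1) * t ^ (k + 1 + m)) ≤ C * (1 / 2) ^ (k + 1 + m) := by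
      have e : t ^ (k + 1 + m) = ρ ^ (k + 1 + m) * (1 / 4 : ℝ) ^ (k + 1 + m) := by
        rw [hρt, ← mul_pow]; congr 1; ring
      rw [e]
      calc a * ((((k + 1 + m : ℕ) : ℝ) + 1) * (ρ ^ (k + 1 + m) * (1 / 4 : ℝ) ^ (k + 1 + m)))
          = (a * ρ ^ (k + 1 + m)) *
            ((((k + 1 + m : ℕ) : ℝ) + 1) * (1 / 4 : ℝ) ^ (k + 1 + m)) := by ring
        _ ≤ C * (1 / 2) ^ (k + 1 + m) := mul_le_mul h1 h2 (by positivity) hC
    have h6 : a * ((((k + 1 + m : ℕ) : ℝ) + 1) * t ^ m) ≤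
        C / t ^ (k + 1) * (1 / 2) ^ (k + 1 + m) := by
      rw [div_mul_eq_mul_div, le_div_iff₀ (by positivity)]
      calc a * ((((k + 1 + m : ℕ) : ℝ) + 1) * t ^ m) * t ^ (k + 1)
          = a * ((((k + 1 + m : ℕ) : ℝ) + 1) * t ^ (k + 1 + m)) := by ring
        _ ≤ _ := h5
    have h7 : s ^ m ≤ t ^ m := pow_le_pow_left₀ hs0 hs m
    constructor
    · calc a * s ^ (k + 1 + m) = s ^ (k + 1) * (a * s ^ m) := by ring
        _ ≤ s ^ (k + 1) * (a * ((((k + 1 + m : ℕ) : ℝ) + 1) * t ^ m)) := by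
            refine mul_le_mul_of_nonneg_left (mul_le_mul_of_nonneg_left ?_ ha0) (by positivity)
            have : 0 ≤ ((k + 1 + m : ℕ) : ℝ) * t ^ m := by positivity
            linarith
        _ ≤ _ := mul_le_mul_of_nonneg_left h6 (by positivity)
    · rw [show k + 1 + m - 1 = k + m by omega]
      calc a * (((k + 1 + m : ℕ) : ℝ) * s ^ (k + m)) =
            s ^ k * (a * (((k + 1 + m : ℕ) : ℝ) * s ^ m)) := by ring
        _ ≤ s ^ k * (a * ((((k + 1 + m : ℕ) : ℝ) + 1) * t ^ m)) := by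
            refine mul_le_mul_of_nonneg_left (mul_le_mul_of_nonneg_left ?_ ha0) (by positivity)
            refine mul_le_mul ?_ h7 (by positivity) (by positivity)
            linarith
        _ ≤ _ := mul_le_mul_of_nonneg_left h6 (by positivity)

end FcAux

open FcAux in
theorem fc : S_FC := by
  intro d C ρ k hρ hd hk
  have hC : 0 ≤ C := (mul_nonneg (norm_nonneg (d 0 0)) (by positivity)).trans (hd 0 0)
  set M := C / (ρ / 4) ^ (k + 1) with hM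
  have hM0 : 0 ≤ M := by positivity
  refine ⟨M * 4 + 1, ρ / 4, by positivity, by positivity, ?_⟩
  intro E _ _ _ h1
  refine ⟨fun z w => ∑' t : ℕ × ℕ, d t.1 t.2 • (z ^ t.1 * w ^ t.2), ?_⟩
  intro s hs
  have hg : HasSum (fun t : ℕ × ℕ => M * (1 / 2 : ℝ) ^ (t.1 + t.2)) (M * 4) := geo2.mul_left M
  have bd : ∀ z w : E, ‖z‖ ≤ s → ‖w‖ ≤ s → ∀ t : ℕ × ℕ, ‖d t.1 t.2 • (z ^ t.1 * w ^ t.2)‖ ≤
      s ^ (k + 1) * (M * (1 / 2) ^ (t.1 + t.2)) := by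
    intro z w hz hw t
    have hs0 : 0 ≤ s := (norm_nonneg z).trans hz
    refine (norm_smul_le _ _).trans ?_
    refine le_trans ?_ (coef hρ hd hk hs0 hs t.1 t.2).1
    refine mul_le_mul_of_nonneg_left ?_ (norm_nonneg _)
    rw [pow_add]
    exact (norm_mul_le _ _).trans (mul_le_mul (pw h1 hz _) (pw h1 hw _) (norm_nonneg _)
      (by positivity))
  have hsum : ∀ z w : E, ‖z‖ ≤ s → ‖w‖ ≤ s →
      HasSum (fun t : ℕ × ℕ => d t.1 t.2 • (z ^ t.1 * w ^ t.2))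
        (∑' t : ℕ × ℕ, d t.1 t.2 • (z ^ t.1 * w ^ t.2)) := by
    intro z w hz hw
    exact (Summable.of_norm_bounded (hg.summable.mul_left (s ^ (k + 1))) (bd z w hz hw)).hasSum
  constructor
  · intro z w hz hw
    have hs0 : 0 ≤ s := (norm_nonneg z).trans hz
    refine ⟨hsum z w hz hw, ?_⟩
    have h2 := (hsum z w hz hw).norm_le_of_bounded (hg.mul_left (s ^ (k + 1))) (bd z w hz hw)
    refine h2.trans ?_
    have : 0 ≤ s ^ (k + 1) := by positivity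
    nlinarith
  · intro z w z' w' hz hw hz' hw'
    have hs0 : 0 ≤ s := (norm_nonneg z).trans hz
    have h2 := (hsum z w hz hw).sub (hsum z' w' hz' hw')
    have h3 := h2.norm_le_of_bounded
      (hg.mul_left (s ^ k * (‖z - z'‖ + ‖w - w'‖))) (by
        intro t
        rw [← smul_sub]
        refine (norm_smul_le _ _).trans ?_
        refine (mul_le_mul_of_nonneg_left (mul_sub' h1 hz hz' hw hw' t.1 t.2)
          (norm_nonneg _)).trans ?_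
        have h4 := mul_le_mul_of_nonneg_right (coef hρ hd hk hs0 hs t.1 t.2).2
          (add_nonneg (norm_nonneg (z - z')) (norm_nonneg (w - w')))
        calc ‖d t.1 t.2‖ * (((t.1 + t.2 : ℕ) : ℝ) * s ^ (t.1 + t.2 - 1) * (‖z - z'‖ + ‖w - w'‖))
            = ‖d t.1 t.2‖ * (((t.1 + t.2 : ℕ) : ℝ) * s ^ (t.1 + t.2 - 1)) *
              (‖z - z'‖ + ‖w - w'‖) := by ring
          _ ≤ s ^ k * (M * (1 / 2) ^ (t.1 + t.2)) * (‖z - z'‖ + ‖w - w'‖) := h4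
          _ = s ^ k * (‖z - z'‖ + ‖w - w'‖) * (M * (1 / 2) ^ (t.1 + t.2)) := by ring)
    refine h3.trans ?_
    have h5 : 0 ≤ s ^ k * (‖z - z'‖ + ‖w - w'‖) := by positivity
    calc s ^ k * (‖z - z'‖ + ‖w - w'‖) * (M * 4)
        ≤ s ^ k * (‖z - z'‖ + ‖w - w'‖) * (M * 4 + 1) :=
          mul_le_mul_of_nonneg_left (by linarith) h5
      _ = (M * 4 + 1) * s ^ k * (‖z - z'‖ + ‖w - w'‖) := by ring

end Pool.Agent.R743.PB
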