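import Pool.Agent.R743.PB.Stm2

/-!
FD-FIX: the nonlinear equation has a solution (contraction).
-/

set_option autoImplicit false

open Filter Topology Set Asymptotics
open scoped NNReal ENNReal

namespace Pool.Agent.R743.PB
namespace FFix

lemma exists_r (LR L LQ r₀ r₁ s₀ : ℝ) (hLR : 0 < LR) (hL : 0 < L) (hLQ : 0 < LQ) (h0 : 0 < r₀)
    (h1 : 0 < r₁) (hs : 0 < s₀) :
    ∃ r : ℝ, 0 < r ∧ r ≤ r₀ ∧ r ≤ r₁ ∧ 2 * r ≤ s₀ ∧ r ≤ 1 / 2 ∧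
      LR * (L * (2 * r) ^ 61 + 2 * LQ * r ^ 60) ≤ r ^ 50 ∧
      LR * (2 * (L * (2 * r) ^ 60 + LQ * r ^ 30)) ≤ r ^ 20 / 2 := by
  obtain ⟨M, hM⟩ : ∃ M : ℝ, M = LR * (L * 2 ^ 61 + 2 * LQ) := ⟨_, rfl⟩
  have hMp : 0 < M := by rw [hM]; positivity
  obtain ⟨r, hr⟩ : ∃ r : ℝ, r = min (min r₀ r₁) (min (s₀ / 2) (min (1 / 2) (1 / M))) := ⟨_, rfl⟩
  have hr0 : 0 < r := by
    rw [hr]
    exact lt_min (lt_min h0 h1) (lt_min (by linarith) (lt_min (by norm_num) (by positivity)))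
  have ha : r ≤ r₀ := by rw [hr]; exact (min_le_left _ _).trans (min_le_left _ _)
  have hb : r ≤ r₁ := by rw [hr]; exact (min_le_left _ _).trans (min_le_right _ _)
  have hc : r ≤ s₀ / 2 := by rw [hr]; exact (min_le_right _ _).trans (min_le_left _ _)
  have hd : r ≤ 1 / 2 := by
    rw [hr]
    exact (min_le_right _ _).trans ((min_le_right _ _).trans (min_le_left _ _))
  have he : r ≤ 1 / M := by
    rw [hr]
    exact (min_le_right _ _).trans ((min_le_right _ _).trans (min_le_right _ _))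
  have hrM : M * r ≤ 1 := by
    have := mul_le_mul_of_nonneg_left he hMp.le
    rwa [mul_one_div_cancel hMp.ne'] at this
  have hr1 : r ≤ 1 := by linarith
  have hp : ∀ a b : ℕ, b ≤ a → r ^ a ≤ r ^ b := fun a b h => pow_le_pow_of_le_one hr0.le hr1 h
  have hM1 : ∀ n : ℕ, M * r ^ (n + 1) ≤ r ^ n := by
    intro n
    have h : M * r ^ (n + 1) = (M * r) * r ^ n := by ring
    rw [h]
    exact mul_le_of_le_one_left (pow_nonneg hr0.le n) hrM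
  refine ⟨r, hr0, ha, hb, by linarith, hd, ?_, ?_⟩
  · have h1 : L * (2 * r) ^ 61 ≤ L * 2 ^ 61 * r ^ 60 := by
      rw [mul_pow, mul_assoc]
      exact mul_le_mul_of_nonneg_left
        (mul_le_mul_of_nonneg_left (hp 61 60 (by norm_num)) (by norm_num)) hL.le
    calc LR * (L * (2 * r) ^ 61 + 2 * LQ * r ^ 60)
        ≤ LR * (L * 2 ^ 61 * r ^ 60 + 2 * LQ * r ^ 60) :=
          mul_le_mul_of_nonneg_left (by linarith) hLR.le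
      _ = M * r ^ (59 + 1) := by rw [hM]; ring
      _ ≤ r ^ 59 := hM1 59
      _ ≤ r ^ 50 := hp 59 50 (by norm_num)
  · have h1 : L * (2 * r) ^ 60 ≤ L * 2 ^ 60 * r ^ 30 := by
      rw [mul_pow, mul_assoc]
      exact mul_le_mul_of_nonneg_left
        (mul_le_mul_of_nonneg_left (hp 60 30 (by norm_num)) (by norm_num)) hL.le
    calc LR * (2 * (L * (2 * r) ^ 60 + LQ * r ^ 30))
        ≤ LR * (2 * (L * 2 ^ 60 * r ^ 30 + LQ * r ^ 30)) :=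
          mul_le_mul_of_nonneg_left (by linarith) hLR.le
      _ = M * r ^ (29 + 1) := by rw [hM]; ring
      _ ≤ r ^ 29 := hM1 29
      _ ≤ r ^ 21 := hp 29 21 (by norm_num)
      _ = r ^ 20 * r := by ring
      _ ≤ r ^ 20 * (1 / 2) := mul_le_mul_of_nonneg_left hd (pow_nonneg hr0.le 20)
      _ = r ^ 20 / 2 := by ring

lemma fixed {E : Type} [NormedCommRing E] [NormedAlgebra ℂ E] [CompleteSpace E]
    (V : Submodule ℂ E) (hV : IsClosed (V : Set E)) (ε : ℝ) (hε : 0 ≤ ε) (T : E × E → E × E)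
    (hT : ∀ ξ : E × E, ‖ξ‖ ≤ ε → ξ.1 ∈ V → ξ.2 ∈ V → ‖T ξ‖ ≤ ε ∧ (T ξ).1 ∈ V ∧ (T ξ).2 ∈ V)
    (hc : ∀ ξ ξ' : E × E, ‖ξ‖ ≤ ε → ‖ξ'‖ ≤ ε → ‖T ξ - T ξ'‖ ≤ 1 / 2 * ‖ξ - ξ'‖) :
    ∃ ξ : E × E, ‖ξ‖ ≤ ε ∧ ξ.1 ∈ V ∧ ξ.2 ∈ V ∧ T ξ = ξ := by
  obtain ⟨B, hB⟩ : ∃ B : Set (E × E), B = {ξ | ‖ξ‖ ≤ ε ∧ ξ.1 ∈ V ∧ ξ.2 ∈ V} := ⟨_, rfl⟩
  have hmem : ∀ ξ : E × E, ξ ∈ B ↔ (‖ξ‖ ≤ ε ∧ ξ.1 ∈ V ∧ ξ.2 ∈ V) := fun ξ => by rw [hB]; rfl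
  have hBc : IsClosed B := by
    have h1 : IsClosed {ξ : E × E | ‖ξ‖ ≤ ε} := isClosed_le continuous_norm continuous_const
    have h2 : IsClosed {ξ : E × E | ξ.1 ∈ V} := hV.preimage continuous_fst
    have h3 : IsClosed {ξ : E × E | ξ.2 ∈ V} := hV.preimage continuous_snd
    rw [hB]
    exact (h1.inter (h2.inter h3))
  have hmaps : MapsTo T B B := fun ξ h => by
    rw [hmem] at h ⊢
    exact hT ξ h.1 h.2.1 h.2.2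
  have hcon : ContractingWith (1 / 2 : ℝ≥0) (hmaps.restrict T B B) := by
    refine ⟨by
      rw [← NNReal.coe_lt_coe]
      push_cast
      norm_num, LipschitzWith.of_dist_le_mul ?_⟩
    rintro ⟨ξ, h⟩ ⟨ξ', h'⟩
    rw [hmem] at h h'
    have := hc ξ ξ' h.1 h'.1
    rw [Subtype.dist_eq, Subtype.dist_eq, dist_eq_norm, dist_eq_norm]
    push_cast
    exact this
  have h0 : (0 : E × E) ∈ B := by
    rw [hmem]
    exact ⟨by rw [norm_zero]; exact hε, V.zero_mem, V.zero_mem⟩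
  obtain ⟨ξ, hξ, hfix, -⟩ := hcon.exists_fixedPoint' hBc.isComplete hmaps h0 (edist_ne_top _ _)
  rw [hmem] at hξ
  exact ⟨ξ, hξ.1, hξ.2.1, hξ.2.2, hfix⟩

variable {K r : ℝ} {E : Type} [NormedCommRing E] [NormedAlgebra ℂ E]

lemma pow_mem (m : Model K r E) (a : ℕ) (z : E) (hz : z ∈ m.V a) (n : ℕ) : z ^ n ∈ m.V (a * n) := by
  induction n with
  | zero => rw [mul_zero, m.top]; trivial
  | succ n ih =>
    rw [pow_succ, mul_add, mul_one]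
    exact m.vmul _ _ _ _ ih hz

lemma mem12 (m : Model K r E) (d : ℕ → ℕ → ℂ) (hd : ∀ i j, i + j ≤ 60 → d i j = 0) (z w D : E)
    (hz : z ∈ m.V 2) (hw : w ∈ m.V 1)
    (h : HasSum (fun t : ℕ × ℕ => d t.1 t.2 • (z ^ t.1 * w ^ t.2)) D) : D ∈ m.V 12 := by
  have hterm : ∀ t : ℕ × ℕ, d t.1 t.2 • (z ^ t.1 * w ^ t.2) ∈ m.V 12 := by
    intro t
    by_cases ht : t.1 + t.2 ≤ 60
    · rw [hd _ _ ht, zero_smul]
      exact (m.V 12).zero_mem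
    · refine (m.V 12).smul_mem _ (m.anti 12 (2 * t.1 + 1 * t.2) (by omega) ?_)
      exact m.vmul _ _ _ _ (pow_mem m 2 z hz _) (pow_mem m 1 w hw _)
  exact (m.closed 12).mem_of_tendsto h
    (Eventually.of_forall fun s => (m.V 12).sum_mem fun t _ => hterm t)

/-- evaluation as an algebra homomorphism -/
lemma exists_hom (m : Model K r E) (p : C2)
    (hp : (∀ f g, m.ev p (f + g) = m.ev p f + m.ev p g) ∧
    (∀ f g, m.ev p (f * g) = m.ev p f * m.ev p g) ∧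
    (∀ (z : ℂ), m.ev p (algebraMap ℂ E z) = z) ∧
    (∀ f, ‖m.ev p f‖ ≤ ‖f‖) ∧ m.ev p m.x = p.1 ∧ m.ev p m.y = p.2) :
    ∃ φ : E →ₐ[ℂ] ℂ, Continuous φ ∧ ∀ f, φ f = m.ev p f := by
  obtain ⟨h1, h2, h3, h4, -, -⟩ := hp
  let φ : E →ₐ[ℂ] ℂ :=
    { toFun := m.ev p
      map_one' := by have := h3 1; rwa [map_one] at this
      map_mul' := h2
      map_zero' := by have := h3 0; rwa [map_zero] at this
      map_add' := h1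
      commutes' := h3 }
  refine ⟨φ, ?_, fun f => rfl⟩
  refine AddMonoidHomClass.continuous_of_bound φ 1 fun f => ?_
  rw [one_mul]
  exact h4 f

lemma tendsto_ev (m : Model K r E) (f : E) (hf : f ∈ m.V 6) :
    Tendsto (fun p => m.ev p f) (𝓝 (0 : C2)) (𝓝 0) := by
  refine (m.ev_ord f hf).trans_tendsto ?_
  have : ContinuousAt (fun p : C2 => ‖p‖ ^ 2) 0 := by fun_prop
  have h := this.tendsto
  simpa using h

lemma QP_zero {E : Type} [CommRing E] (x y : E) : QP x y 0 0 = 0 := by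
  unfold QP Pf Px Py; ring

lemma QZ_zero {E : Type} [CommRing E] (x y : E) : QZ x y 0 0 = 0 := by
  unfold QZ Zf Zx Zy; ring

end FFix

open FFix in
theorem fix (hM : S_MODEL) (hR : S_RINV) (hQ : S_QUAD) (hV : S_QV) (hP : S_PSER) (hF : S_FC) :
    S_FIX := by
  intro δ han hO
  have hps : ∀ i : Fin 3, ∃ (d : ℕ → ℕ → ℂ) (C ρ : ℝ), 0 < ρ ∧
      (∀ i j, ‖d i j‖ * ρ ^ (i + j) ≤ C) ∧ (∀ i j, i + j ≤ 60 → d i j = 0) ∧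
      ∀ᶠ p in 𝓝 (0 : C2), HasSum (fun t : ℕ × ℕ => d t.1 t.2 * p.1 ^ t.1 * p.2 ^ t.2) (δ i p) :=
    fun i => hP (δ i) 60 (han i) (hO i)
  choose d C ρ hρ hdC hd0 hsum using hps
  have hfc := fun i : Fin 3 => hF (d i) (C i) (ρ i) 60 (hρ i) (hdC i) (hd0 i)
  choose L s₀ hL hs₀ hfc using hfc
  obtain ⟨K, r₀, hK, hr₀, hmodel⟩ := hM
  obtain ⟨LR, r₁, hLR, hr₁, hrinv⟩ := hR K hK
  obtain ⟨LQ, hLQ, hquad⟩ := hQ
  obtain ⟨Lm, hLm⟩ : ∃ Lm : ℝ, Lm = L 0 + L 1 + L 2 := ⟨_, rfl⟩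
  have hLmp : 0 < Lm := by
    rw [hLm]
    have h0 := hL 0
    have h1 := hL 1
    have h2 := hL 2
    positivity
  have hLi : ∀ i, L i ≤ Lm := by
    intro i
    have h0 := hL 0
    have h1 := hL 1
    have h2 := hL 2
    rw [hLm]
    fin_cases i
    · change L 0 ≤ _
      linarith
    · change L 1 ≤ _
      linarith
    · change L 2 ≤ _
      linarith
  obtain ⟨sm, hsm⟩ : ∃ sm : ℝ, sm = min (s₀ 0) (min (s₀ 1) (s₀ 2)) := ⟨_, rfl⟩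
  have hsmp : 0 < sm := by
    rw [hsm]
    exact lt_min (hs₀ 0) (lt_min (hs₀ 1) (hs₀ 2))
  have hsmi : ∀ i, sm ≤ s₀ i := by
    intro i
    rw [hsm]
    fin_cases i
    · exact min_le_left _ _
    · exact (min_le_right _ _).trans (min_le_left _ _)
    · exact (min_le_right _ _).trans (min_le_right _ _)
  obtain ⟨r, hr, hrr0, hrr1, hrs, hr12, hA, hB⟩ :=
    exists_r LR Lm LQ r₀ r₁ sm hLR hLmp hLQ hr₀ hr₁ hsmp
  obtain ⟨E, i1, i2, i3, ⟨m⟩⟩ := hmodel r hr hrr0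
  obtain ⟨R, hRn, hRe⟩ := hrinv r hr hrr1 E m
  have hD := fun i => hfc i E m.n1
  choose D hD using hD
  have hr1 : r ≤ 1 := by linarith
  have hp : ∀ a b : ℕ, b ≤ a → r ^ a ≤ r ^ b := fun a b h => pow_le_pow_of_le_one hr.le hr1 h
  have hr30 : r ^ 30 ≤ r := by simpa using hp 30 1 (by norm_num)
  have hr2 : r ^ 2 ≤ r := by simpa using hp 2 1 (by norm_num)
  have hr301 : r ^ 30 ≤ 1 := by simpa using hp 30 0 (by norm_num)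
  have hx1 : ‖m.x‖ ≤ 1 := m.nx.trans (hr2.trans hr1)
  have hy1 : ‖m.y‖ ≤ 1 := m.ny.trans hr1
  have h2r : (0 : ℝ) ≤ 2 * r := by linarith
  have hz1 : ∀ ξ : E × E, ‖ξ‖ ≤ r ^ 30 → ‖m.x + ξ.1‖ ≤ 2 * r := by
    intro ξ h
    have h1 := norm_fst_le ξ
    have h2 := norm_add_le m.x ξ.1
    have h3 := m.nx
    linarith
  have hz2 : ∀ ξ : E × E, ‖ξ‖ ≤ r ^ 30 → ‖m.y + ξ.2‖ ≤ 2 * r := by
    intro ξ h
    have h1 := norm_snd_le ξ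
    have h2 := norm_add_le m.y ξ.2
    have h3 := m.ny
    linarith
  have hDs : ∀ i, ∀ z w : E, ‖z‖ ≤ 2 * r → ‖w‖ ≤ 2 * r →
      HasSum (fun t : ℕ × ℕ => d i t.1 t.2 • (z ^ t.1 * w ^ t.2)) (D i z w) :=
    fun i z w hz hw => ((hD i (2 * r) (hrs.trans (hsmi i))).1 z w hz hw).1
  have hDn : ∀ i, ∀ z w : E, ‖z‖ ≤ 2 * r → ‖w‖ ≤ 2 * r → ‖D i z w‖ ≤ Lm * (2 * r) ^ 61 :=
    fun i z w hz hw => ((hD i (2 * r) (hrs.trans (hsmi i))).1 z w hz hw).2.trans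
      (mul_le_mul_of_nonneg_right (hLi i) (pow_nonneg h2r 61))
  have hDl : ∀ i, ∀ z w z' w' : E, ‖z‖ ≤ 2 * r → ‖w‖ ≤ 2 * r → ‖z'‖ ≤ 2 * r → ‖w'‖ ≤ 2 * r →
      ‖D i z w - D i z' w'‖ ≤ Lm * (2 * r) ^ 60 * (‖z - z'‖ + ‖w - w'‖) :=
    fun i z w z' w' hz hw hz' hw' =>
      ((hD i (2 * r) (hrs.trans (hsmi i))).2 z w z' w' hz hw hz' hw').trans
      (mul_le_mul_of_nonneg_right (mul_le_mul_of_nonneg_right (hLi i) (pow_nonneg h2r 60))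
        (by positivity))
  obtain ⟨H, hH⟩ : ∃ H : E × E → E × E × E, ∀ ξ : E × E, H ξ =
      (-(D 0 (m.x + ξ.1) (m.y + ξ.2)),
        -(D 1 (m.x + ξ.1) (m.y + ξ.2)) - QP m.x m.y ξ.1 ξ.2,
        -(D 2 (m.x + ξ.1) (m.y + ξ.2)) - QZ m.x m.y ξ.1 ξ.2) := ⟨_, fun _ => rfl⟩
  have hquad0 : ∀ ξ : E × E, ‖ξ‖ ≤ r ^ 30 →
      ‖QP m.x m.y ξ.1 ξ.2‖ ≤ 2 * LQ * r ^ 60 ∧ ‖QZ m.x m.y ξ.1 ξ.2‖ ≤ 2 * LQ * r ^ 60 := by
    intro ξ h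
    have h1 := (norm_fst_le ξ).trans h
    have h2 := (norm_snd_le ξ).trans h
    have h0 : ‖(0 : E)‖ ≤ r ^ 30 := by rw [norm_zero]; positivity
    have hq := hquad E m.x m.y ξ.1 ξ.2 0 0 (r ^ 30) m.n1 hx1 hy1 hr301 h1 h2 h0 h0
    rw [QP_zero, QZ_zero, sub_zero, sub_zero, sub_zero, sub_zero] at hq
    have h3 : LQ * r ^ 30 * (‖ξ.1‖ + ‖ξ.2‖) ≤ 2 * LQ * r ^ 60 := by
      calc LQ * r ^ 30 * (‖ξ.1‖ + ‖ξ.2‖) ≤ LQ * r ^ 30 * (r ^ 30 + r ^ 30) :=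
            mul_le_mul_of_nonneg_left (by linarith) (by positivity)
        _ = 2 * LQ * r ^ 60 := by ring
    exact ⟨hq.1.trans h3, hq.2.trans h3⟩
  have hHn : ∀ ξ : E × E, ‖ξ‖ ≤ r ^ 30 → ‖H ξ‖ ≤ Lm * (2 * r) ^ 61 + 2 * LQ * r ^ 60 := by
    intro ξ h
    have hz := hz1 ξ h
    have hw := hz2 ξ h
    have hq := hquad0 ξ h
    have hpos : 0 ≤ 2 * LQ * r ^ 60 := by positivity
    rw [hH, norm_prod_le_iff, norm_prod_le_iff]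
    refine ⟨?_, ?_, ?_⟩
    · rw [norm_neg]
      have := hDn 0 _ _ hz hw
      linarith
    · refine (norm_sub_le _ _).trans ?_
      rw [norm_neg]
      exact add_le_add (hDn 1 _ _ hz hw) hq.1
    · refine (norm_sub_le _ _).trans ?_
      rw [norm_neg]
      exact add_le_add (hDn 2 _ _ hz hw) hq.2
  have hHd : ∀ ξ ξ' : E × E, ‖ξ‖ ≤ r ^ 30 → ‖ξ'‖ ≤ r ^ 30 →
      ‖H ξ - H ξ'‖ ≤ (2 * (Lm * (2 * r) ^ 60 + LQ * r ^ 30)) * ‖ξ - ξ'‖ := by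
    intro ξ ξ' h h'
    have hz := hz1 ξ h
    have hw := hz2 ξ h
    have hz' := hz1 ξ' h'
    have hw' := hz2 ξ' h'
    have e1 : ‖ξ.1 - ξ'.1‖ ≤ ‖ξ - ξ'‖ := norm_fst_le (ξ - ξ')
    have e2 : ‖ξ.2 - ξ'.2‖ ≤ ‖ξ - ξ'‖ := norm_snd_le (ξ - ξ')
    have hds : ∀ i, ‖D i (m.x + ξ.1) (m.y + ξ.2) - D i (m.x + ξ'.1) (m.y + ξ'.2)‖ ≤
        Lm * (2 * r) ^ 60 * (2 * ‖ξ - ξ'‖) := by
      intro i
      refine (hDl i _ _ _ _ hz hw hz' hw').trans ?_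
      rw [add_sub_add_left_eq_sub, add_sub_add_left_eq_sub]
      exact mul_le_mul_of_nonneg_left (by linarith) (by positivity)
    have hq := hquad E m.x m.y ξ.1 ξ.2 ξ'.1 ξ'.2 (r ^ 30) m.n1 hx1 hy1 hr301
      ((norm_fst_le ξ).trans h) ((norm_snd_le ξ).trans h)
      ((norm_fst_le ξ').trans h') ((norm_snd_le ξ').trans h')
    have hq3 : LQ * r ^ 30 * (‖ξ.1 - ξ'.1‖ + ‖ξ.2 - ξ'.2‖) ≤ LQ * r ^ 30 * (2 * ‖ξ - ξ'‖) :=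
      mul_le_mul_of_nonneg_left (by linarith) (by positivity)
    have hpos : 0 ≤ LQ * r ^ 30 * (2 * ‖ξ - ξ'‖) := by positivity
    have hfin : (2 * (Lm * (2 * r) ^ 60 + LQ * r ^ 30)) * ‖ξ - ξ'‖ =
        Lm * (2 * r) ^ 60 * (2 * ‖ξ - ξ'‖) + LQ * r ^ 30 * (2 * ‖ξ - ξ'‖) := by ring
    rw [hfin, hH, hH, norm_prod_le_iff, norm_prod_le_iff]
    refine ⟨?_, ?_, ?_⟩
    · have e : -(D 0 (m.x + ξ.1) (m.y + ξ.2)) - -(D 0 (m.x + ξ'.1) (m.y + ξ'.2)) =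
          -(D 0 (m.x + ξ.1) (m.y + ξ.2) - D 0 (m.x + ξ'.1) (m.y + ξ'.2)) := by ring
      change ‖-(D 0 (m.x + ξ.1) (m.y + ξ.2)) - -(D 0 (m.x + ξ'.1) (m.y + ξ'.2))‖ ≤ _
      rw [e, norm_neg]
      have := hds 0
      linarith
    · have e : -(D 1 (m.x + ξ.1) (m.y + ξ.2)) - QP m.x m.y ξ.1 ξ.2 -
          (-(D 1 (m.x + ξ'.1) (m.y + ξ'.2)) - QP m.x m.y ξ'.1 ξ'.2) =
          -((D 1 (m.x + ξ.1) (m.y + ξ.2) - D 1 (m.x + ξ'.1) (m.y + ξ'.2)) +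
            (QP m.x m.y ξ.1 ξ.2 - QP m.x m.y ξ'.1 ξ'.2)) := by ring
      change ‖-(D 1 (m.x + ξ.1) (m.y + ξ.2)) - QP m.x m.y ξ.1 ξ.2 -
          (-(D 1 (m.x + ξ'.1) (m.y + ξ'.2)) - QP m.x m.y ξ'.1 ξ'.2)‖ ≤ _
      rw [e, norm_neg]
      exact (norm_add_le _ _).trans (add_le_add (hds 1) (hq.1.trans hq3))
    · have e : -(D 2 (m.x + ξ.1) (m.y + ξ.2)) - QZ m.x m.y ξ.1 ξ.2 -
          (-(D 2 (m.x + ξ'.1) (m.y + ξ'.2)) - QZ m.x m.y ξ'.1 ξ'.2) =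
          -((D 2 (m.x + ξ.1) (m.y + ξ.2) - D 2 (m.x + ξ'.1) (m.y + ξ'.2)) +
            (QZ m.x m.y ξ.1 ξ.2 - QZ m.x m.y ξ'.1 ξ'.2)) := by ring
      change ‖-(D 2 (m.x + ξ.1) (m.y + ξ.2)) - QZ m.x m.y ξ.1 ξ.2 -
          (-(D 2 (m.x + ξ'.1) (m.y + ξ'.2)) - QZ m.x m.y ξ'.1 ξ'.2)‖ ≤ _
      rw [e, norm_neg]
      exact (norm_add_le _ _).trans (add_le_add (hds 2) (hq.2.trans hq3))
  have hHV : ∀ ξ : E × E, ‖ξ‖ ≤ r ^ 30 → ξ.1 ∈ m.V 6 → ξ.2 ∈ m.V 6 →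
      (H ξ).1 ∈ m.V 12 ∧ (H ξ).2.1 ∈ m.V 12 ∧ (H ξ).2.2 ∈ m.V 12 := by
    intro ξ h h1 h2
    have hz := hz1 ξ h
    have hw := hz2 ξ h
    have hz2' : m.x + ξ.1 ∈ m.V 2 := (m.V 2).add_mem m.vx (m.anti 2 6 (by norm_num) h1)
    have hw1' : m.y + ξ.2 ∈ m.V 1 := (m.V 1).add_mem m.vy (m.anti 1 6 (by norm_num) h2)
    have hd : ∀ i, D i (m.x + ξ.1) (m.y + ξ.2) ∈ m.V 12 := fun i =>
      mem12 m (d i) (hd0 i) _ _ _ hz2' hw1' (hDs i _ _ hz hw)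
    have hq := hV K r E m ξ.1 h1 ξ.2 h2
    rw [hH]
    exact ⟨(m.V 12).neg_mem (hd 0), (m.V 12).sub_mem ((m.V 12).neg_mem (hd 1)) hq.1,
      (m.V 12).sub_mem ((m.V 12).neg_mem (hd 2)) hq.2⟩
  have hr20 : 0 < r ^ 20 := pow_pos hr 20
  have hRn' : ∀ ξ : E × E, ‖ξ‖ ≤ r ^ 30 → ∀ i, ‖R (H ξ) i‖ ≤ r ^ 30 := by
    intro ξ h i
    refine le_of_mul_le_mul_left ?_ hr20
    calc r ^ 20 * ‖R (H ξ) i‖ ≤ LR * ‖H ξ‖ := hRn _ _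
      _ ≤ LR * (Lm * (2 * r) ^ 61 + 2 * LQ * r ^ 60) := mul_le_mul_of_nonneg_left (hHn ξ h) hLR.le
      _ ≤ r ^ 50 := hA
      _ = r ^ 20 * r ^ 30 := by ring
  have hRd' : ∀ ξ ξ' : E × E, ‖ξ‖ ≤ r ^ 30 → ‖ξ'‖ ≤ r ^ 30 → ∀ i,
      ‖R (H ξ) i - R (H ξ') i‖ ≤ 1 / 2 * ‖ξ - ξ'‖ := by
    intro ξ ξ' h h' i
    refine le_of_mul_le_mul_left ?_ hr20
    have e : R (H ξ) i - R (H ξ') i = R (H ξ - H ξ') i := by rw [map_sub]; rfl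
    rw [e]
    calc r ^ 20 * ‖R (H ξ - H ξ') i‖ ≤ LR * ‖H ξ - H ξ'‖ := hRn _ _
      _ ≤ LR * ((2 * (Lm * (2 * r) ^ 60 + LQ * r ^ 30)) * ‖ξ - ξ'‖) :=
          mul_le_mul_of_nonneg_left (hHd ξ ξ' h h') hLR.le
      _ = (LR * (2 * (Lm * (2 * r) ^ 60 + LQ * r ^ 30))) * ‖ξ - ξ'‖ := by ring
      _ ≤ (r ^ 20 / 2) * ‖ξ - ξ'‖ := mul_le_mul_of_nonneg_right hB (norm_nonneg _)
      _ = r ^ 20 * (1 / 2 * ‖ξ - ξ'‖) := by ring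
  obtain ⟨ξ, hξn, hξ1, hξ2, hfix⟩ := fixed (m.V 6) (m.closed 6) (r ^ 30) (by positivity)
    (fun ξ => (R (H ξ) 0, R (H ξ) 1))
    (fun ξ h h1 h2 => ⟨by
      rw [norm_prod_le_iff]
      exact ⟨hRn' ξ h 0, hRn' ξ h 1⟩,
      (hRe (H ξ) (hHV ξ h h1 h2).1 (hHV ξ h h1 h2).2.1 (hHV ξ h h1 h2).2.2).1 0,
      (hRe (H ξ) (hHV ξ h h1 h2).1 (hHV ξ h h1 h2).2.1 (hHV ξ h h1 h2).2.2).1 1⟩)
    (fun ξ ξ' h h' => by
      rw [norm_prod_le_iff]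
      exact ⟨hRd' ξ ξ' h h' 0, hRd' ξ ξ' h h' 1⟩)
  have hf0 : R (H ξ) 0 = ξ.1 := congrArg Prod.fst hfix
  have hf1 : R (H ξ) 1 = ξ.2 := congrArg Prod.snd hfix
  have hHVξ := hHV ξ hξn hξ1 hξ2
  obtain ⟨g1, g2, g3, g4, g5⟩ := hRe (H ξ) hHVξ.1 hHVξ.2.1 hHVξ.2.2
  rw [hf0] at g3
  rw [hf0, hf1] at g4 g5
  have k1 : (H ξ).1 = -(D 0 (m.x + ξ.1) (m.y + ξ.2)) := by rw [hH]
  have k2 : (H ξ).2.1 = -(D 1 (m.x + ξ.1) (m.y + ξ.2)) - QP m.x m.y ξ.1 ξ.2 := by rw [hH]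
  have k3 : (H ξ).2.2 = -(D 2 (m.x + ξ.1) (m.y + ξ.2)) - QZ m.x m.y ξ.1 ξ.2 := by rw [hH]
  rw [k1] at g3
  rw [k2] at g4
  rw [k3] at g5
  have E1 : m.x + ξ.1 + D 0 (m.x + ξ.1) (m.y + ξ.2) = m.x + R (H ξ) 2 := by
    linear_combination g3
  have E2 : Pf (m.x + ξ.1) (m.y + ξ.2) + D 1 (m.x + ξ.1) (m.y + ξ.2) =
      Pf m.x m.y + R (H ξ) 3 := by
    have e : Pf (m.x + ξ.1) (m.y + ξ.2) = QP m.x m.y ξ.1 ξ.2 + Pf m.x m.y +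
      Px m.x m.y * ξ.1 + Py m.x m.y * ξ.2 := by unfold QP; ring
    rw [e]
    linear_combination g4
  have E3 : Zf (m.x + ξ.1) (m.y + ξ.2) + D 2 (m.x + ξ.1) (m.y + ξ.2) =
      Zf m.x m.y + R (H ξ) 4 + R (H ξ) 5 * Zf m.x m.y := by
    have e : Zf (m.x + ξ.1) (m.y + ξ.2) = QZ m.x m.y ξ.1 ξ.2 + Zf m.x m.y +
      Zx m.x m.y * ξ.1 + Zy m.x m.y * ξ.2 := by unfold QZ; ring
    rw [e]
    linear_combination g5
  refine ⟨K, r, E, i1, i2, m, fun i => R (H ξ) i, g1, g2, ?_⟩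
  have ht : Tendsto (fun p : C2 => (p.1 + m.ev p (R (H ξ) 0), p.2 + m.ev p (R (H ξ) 1)))
      (𝓝 0) (𝓝 0) := by
    have t1 : Tendsto (fun p : C2 => p.1) (𝓝 0) (𝓝 0) := continuous_fst.tendsto (0 : C2)
    have t2 : Tendsto (fun p : C2 => p.2) (𝓝 0) (𝓝 0) := continuous_snd.tendsto (0 : C2)
    have t3 := t1.add (tendsto_ev m _ (g1 0))
    have t4 := t2.add (tendsto_ev m _ (g1 1))
    rw [add_zero] at t3 t4
    exact t3.prodMk_nhds t4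
  have hs0 := ht.eventually (hsum 0)
  have hs1 := ht.eventually (hsum 1)
  have hs2 := ht.eventually (hsum 2)
  filter_upwards [m.ev_hom, hs0, hs1, hs2] with p hp q0 q1 q2
  obtain ⟨φ, hφc, hφ⟩ := exists_hom m p hp
  have hpx : φ m.x = p.1 := by rw [hφ]; exact hp.2.2.2.2.1
  have hpy : φ m.y = p.2 := by rw [hφ]; exact hp.2.2.2.2.2
  have a1 : p.1 + m.ev p (R (H ξ) 0) = φ (m.x + ξ.1) := by rw [map_add, hpx, hφ, hf0]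
  have a2 : p.2 + m.ev p (R (H ξ) 1) = φ (m.y + ξ.2) := by rw [map_add, hpy, hφ, hf1]
  rw [a1, a2] at q0 q1 q2
  have hcomp : ∀ i, HasSum (fun t : ℕ × ℕ => d i t.1 t.2 * (φ (m.x + ξ.1)) ^ t.1 *
      (φ (m.y + ξ.2)) ^ t.2) (δ i (φ (m.x + ξ.1), φ (m.y + ξ.2))) →
      φ (D i (m.x + ξ.1) (m.y + ξ.2)) = δ i (φ (m.x + ξ.1), φ (m.y + ξ.2)) := by
    intro i q
    have h1 := (hDs i _ _ (hz1 ξ hξn) (hz2 ξ hξn)).map φ hφc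
    have e : (φ ∘ fun t : ℕ × ℕ => d i t.1 t.2 • ((m.x + ξ.1) ^ t.1 * (m.y + ξ.2) ^ t.2)) =
        fun t : ℕ × ℕ => d i t.1 t.2 * (φ (m.x + ξ.1)) ^ t.1 * (φ (m.y + ξ.2)) ^ t.2 := by
      funext t
      simp only [Function.comp_apply, map_smul, map_mul, map_pow, smul_eq_mul, mul_assoc]
    rw [e] at h1
    exact h1.unique q
  have b0 := hcomp 0 q0
  have b1 := hcomp 1 q1
  have b2 := hcomp 2 q2
  have c1 := congrArg φ E1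
  have c2 := congrArg φ E2
  have c3 := congrArg φ E3
  have u1 : ∀ z w : E, φ (Pf z w) = Pf (φ z) (φ w) := by
    intro z w
    unfold Pf
    simp only [map_sub, map_add, map_mul, map_pow, map_one]
  have u2 : ∀ z w : E, φ (Zf z w) = Zf (φ z) (φ w) := by
    intro z w
    unfold Zf
    simp only [map_sub, map_add, map_mul, map_pow, map_one]
  rw [map_add φ (m.x + ξ.1), map_add φ m.x (R (H ξ) 2), b0, hpx, hφ (R (H ξ) 2)] at c1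
  rw [map_add φ (Pf (m.x + ξ.1) (m.y + ξ.2)), map_add φ (Pf m.x m.y), b1, u1, u1, hpx, hpy,
    hφ (R (H ξ) 3)] at c2
  rw [map_add φ (Zf (m.x + ξ.1) (m.y + ξ.2)), map_add φ (Zf m.x m.y + R (H ξ) 4),
    map_add φ (Zf m.x m.y), map_mul, b2, u2, u2, hpx, hpy, hφ (R (H ξ) 4), hφ (R (H ξ) 5)] at c3
  rw [a1, a2]
  exact ⟨c1, c2, c3⟩

end Pool.Agent.R743.PB
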