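import Pool.Agent.R743.PB.Stm2

/-!
# FD-GERM: from the solution of the nonlinear equation to the `𝒜`-equivalence of the germs
-/

set_option autoImplicit false

open Filter Topology Set Asymptotics

namespace Pool.Agent.R743.PB

namespace FGermAux

/-- flat germs -/
theorem flat {E F : Type} [NormedAddCommGroup E] [NormedSpace ℂ E] [NormedAddCommGroup F]
    [NormedSpace ℂ F] {f : E → F} (h : f =O[𝓝 0] fun p => ‖p‖ ^ 2) :
    f 0 = 0 ∧ HasFDerivAt f (0 : E →L[ℂ] F) 0 := by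
  have h1 : f =O[𝓝 0] fun p => ‖p - 0‖ ^ 2 := by simpa only [sub_zero] using h
  exact ⟨h1.eq_zero_of_norm_pow (by norm_num), h1.hasFDerivAt (by norm_num)⟩

theorem bih_id {E : Type} [NormedAddCommGroup E] [NormedSpace ℂ E] {f : E → E}
    (hf : AnalyticAt ℂ f 0) (h0 : f 0 = 0)
    (hd : HasFDerivAt f (ContinuousLinearMap.id ℂ E) 0) : IsBih f := by
  refine ⟨hf, h0, ?_⟩
  rw [hd.fderiv]
  exact Function.bijective_id

theorem inv_ex {E : Type} [NormedAddCommGroup E] [NormedSpace ℂ E] [CompleteSpace E] {f : E → E}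
    (hf : AnalyticAt ℂ f 0) (h0 : f 0 = 0)
    (hd : HasFDerivAt f (ContinuousLinearMap.id ℂ E) 0) :
    ∃ φ : E → E, IsBih φ ∧ Tendsto φ (𝓝 0) (𝓝 0) ∧ ∀ᶠ p in 𝓝 (0 : E), f (φ p) = p := by
  have hs : HasStrictFDerivAt f ((ContinuousLinearEquiv.refl ℂ E : E ≃L[ℂ] E) : E →L[ℂ] E) 0 := by
    have h1 := hf.hasStrictFDerivAt
    rw [hd.fderiv] at h1
    exact h1
  refine ⟨hs.localInverse f _ 0, ?_, ?_, ?_⟩
  · have h2 := hs.toOpenPartialHomeomorph f |>.analyticAt_symm' (a := 0)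
      (i := ContinuousLinearEquiv.refl ℂ E) hs.mem_toOpenPartialHomeomorph_source
      (by rw [hs.toOpenPartialHomeomorph_coe]; exact hf)
      (by rw [hs.toOpenPartialHomeomorph_coe]; exact hd.fderiv)
    rw [hs.toOpenPartialHomeomorph_coe, h0] at h2
    have h3 := hs.localInverse_apply_image
    rw [h0] at h3
    have h4 := hs.to_localInverse
    rw [h0] at h4
    refine bih_id h2 h3 ?_
    exact h4.hasFDerivAt
  · have h5 := hs.localInverse_tendsto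
    rwa [h0] at h5
  · have h6 := hs.eventually_right_inverse
    rwa [h0] at h6

theorem phi_an (p : C2) : AnalyticAt ℂ Φ p := by
  have h1 : AnalyticAt ℂ (fun p : C2 => p.1) p := analyticAt_fst
  have h2 : AnalyticAt ℂ (fun p : C2 => p.2) p := analyticAt_snd
  unfold Φ qq rr
  exact h1.prod (((h2.pow 3).sub ((h1.mul ((analyticAt_const.add h1).add (h1.pow 2))).mul h2)).prod
    ((h2.pow 4).sub ((h1.mul (analyticAt_const.add (h1.pow 2))).mul (h2.pow 2))))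

end FGermAux

open FGermAux

theorem fd (hX : S_FIX) : S_FD := by
  refine ⟨60, fun G hG hO => ?_⟩
  obtain ⟨δ, hδ⟩ : ∃ δ : Fin 3 → C2 → ℂ, δ = ![fun p => (G p - Φ p).1, fun p => (G p - Φ p).2.1,
    fun p => (G p - Φ p).2.2] := ⟨_, rfl⟩
  have hGP : AnalyticAt ℂ (fun p => G p - Φ p) 0 := hG.sub (phi_an 0)
  have hδa : ∀ i, AnalyticAt ℂ (δ i) 0 := by
    intro i
    rw [hδ]
    fin_cases i
    · exact analyticAt_fst.comp hGP
    · exact (analyticAt_fst.comp analyticAt_snd).comp hGP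
    · exact (analyticAt_snd.comp analyticAt_snd).comp hGP
  have hδO : ∀ i, δ i =O[𝓝 0] fun p => ‖p‖ ^ (61 : ℕ) := by
    intro i
    have h0 : ∀ z : C3, ‖z.1‖ ≤ ‖z‖ ∧ ‖z.2.1‖ ≤ ‖z‖ ∧ ‖z.2.2‖ ≤ ‖z‖ := fun z =>
      ⟨norm_fst_le z, (norm_fst_le z.2).trans (norm_snd_le z),
        (norm_snd_le z.2).trans (norm_snd_le z)⟩
    rw [hδ]
    fin_cases i
    · exact (IsBigO.of_bound 1 (Eventually.of_forall fun p => by
        rw [one_mul]; exact (h0 (G p - Φ p)).1)).trans hO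
    · exact (IsBigO.of_bound 1 (Eventually.of_forall fun p => by
        rw [one_mul]; exact (h0 (G p - Φ p)).2.1)).trans hO
    · exact (IsBigO.of_bound 1 (Eventually.of_forall fun p => by
        rw [one_mul]; exact (h0 (G p - Φ p)).2.2)).trans hO
  obtain ⟨K, r, E, _, _, m, R, hV, hA, hev⟩ := hX δ hδa hδO
  have ha := fun i => m.ev_an (R i)
  have hf := fun i => flat (m.ev_ord (R i) (hV i))
  obtain ⟨F2, hF2a, hF2e, hF2O⟩ := m.ev_A (R 2) (hA 2 (by decide))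
  obtain ⟨F3, hF3a, hF3e, hF3O⟩ := m.ev_A (R 3) (hA 3 (by decide))
  obtain ⟨F4, hF4a, hF4e, hF4O⟩ := m.ev_A (R 4) (hA 4 (by decide))
  obtain ⟨F5, hF5a, hF5e, hF5O⟩ := m.ev_A (R 5) (hA 5 (by decide))
  have hg2 := flat (hF2O (hV 2))
  have hg3 := flat (hF3O (hV 3))
  have hg4 := flat (hF4O (hV 4))
  have hg5 := flat (hF5O (hV 5))
  -- the map of the source
  obtain ⟨f, hfd⟩ : ∃ f : C2 → C2, f = fun p => (p.1 + m.ev p (R 0), p.2 + m.ev p (R 1)) :=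
    ⟨_, rfl⟩
  have hfa : AnalyticAt ℂ f 0 := by
    rw [hfd]
    exact (analyticAt_fst.add (ha 0)).prod (analyticAt_snd.add (ha 1))
  have hf0 : f 0 = 0 := by
    rw [hfd]
    have e1 := (hf 0).1
    have e2 := (hf 1).1
    beta_reduce at e1 e2 ⊢
    rw [e1, e2]
    simp
  have hf1 : HasFDerivAt f (ContinuousLinearMap.id ℂ C2) 0 := by
    rw [hfd]
    have h1 := ((hasFDerivAt_fst (𝕜 := ℂ) (p := (0 : C2))).add (hf 0).2).prodMk
      ((hasFDerivAt_snd (𝕜 := ℂ) (p := (0 : C2))).add (hf 1).2)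
    refine h1.congr_fderiv ?_
    ext <;> simp
  obtain ⟨φ, hφ, hφt, hφr⟩ := inv_ex hfa hf0 hf1
  -- the map of the target
  obtain ⟨π, hπ⟩ : ∃ π : C3 →L[ℂ] C2, π = (ContinuousLinearMap.fst ℂ ℂ (ℂ × ℂ)).prod
    ((ContinuousLinearMap.fst ℂ ℂ ℂ).comp (ContinuousLinearMap.snd ℂ ℂ (ℂ × ℂ))) := ⟨_, rfl⟩
  have hπv : ∀ z : C3, π z = (z.1, z.2.1) := by
    intro z
    rw [hπ]
    rfl
  have hπ0 : π (0 : C3) = 0 := map_zero π
  have hcomp : ∀ F : C2 → ℂ, AnalyticAt ℂ F 0 → AnalyticAt ℂ (fun z : C3 => F (π z)) 0 := by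
    intro F hF
    have h1 : AnalyticAt ℂ F (π 0) := by rw [hπ0]; exact hF
    exact h1.comp (π.analyticAt 0)
  have hcompd : ∀ F : C2 → ℂ, F 0 = 0 ∧ HasFDerivAt F (0 : C2 →L[ℂ] ℂ) 0 →
      F (π 0) = 0 ∧ HasFDerivAt (fun z : C3 => F (π z)) (0 : C3 →L[ℂ] ℂ) 0 := by
    intro F hF
    rw [hπ0]
    refine ⟨hF.1, ?_⟩
    have h1 : HasFDerivAt F (0 : C2 →L[ℂ] ℂ) (π 0) := by rw [hπ0]; exact hF.2
    have h2 := h1.comp (0 : C3) π.hasFDerivAt
    rw [ContinuousLinearMap.zero_comp] at h2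
    exact h2
  obtain ⟨ψ, hψ⟩ : ∃ ψ : C3 → C3, ψ = fun z => (z.1 + F2 (π z), z.2.1 + F3 (π z),
    z.2.2 + F4 (π z) + F5 (π z) * z.2.2) := ⟨_, rfl⟩
  have hz3 : AnalyticAt ℂ (fun z : C3 => z.2.2) 0 := analyticAt_snd.comp analyticAt_snd
  have hz2 : AnalyticAt ℂ (fun z : C3 => z.2.1) 0 := analyticAt_fst.comp analyticAt_snd
  have hψa : AnalyticAt ℂ ψ 0 := by
    rw [hψ]
    exact (analyticAt_fst.add (hcomp F2 hF2a)).prod ((hz2.add (hcomp F3 hF3a)).prod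
      ((hz3.add (hcomp F4 hF4a)).add ((hcomp F5 hF5a).mul hz3)))
  have hψ0 : ψ 0 = 0 := by
    rw [hψ]
    beta_reduce
    rw [(hcompd F2 hg2).1, (hcompd F3 hg3).1, (hcompd F4 hg4).1, (hcompd F5 hg5).1]
    simp
  have hψ1 : HasFDerivAt ψ (ContinuousLinearMap.id ℂ C3) 0 := by
    rw [hψ]
    have d3 : HasFDerivAt (fun z : C3 => z.2.2)
        ((ContinuousLinearMap.snd ℂ ℂ ℂ).comp (ContinuousLinearMap.snd ℂ ℂ (ℂ × ℂ))) 0 :=
      ((ContinuousLinearMap.snd ℂ ℂ ℂ).comp (ContinuousLinearMap.snd ℂ ℂ (ℂ × ℂ))).hasFDerivAt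
    have d2 : HasFDerivAt (fun z : C3 => z.2.1)
        ((ContinuousLinearMap.fst ℂ ℂ ℂ).comp (ContinuousLinearMap.snd ℂ ℂ (ℂ × ℂ))) 0 :=
      ((ContinuousLinearMap.fst ℂ ℂ ℂ).comp (ContinuousLinearMap.snd ℂ ℂ (ℂ × ℂ))).hasFDerivAt
    have h1 := ((hasFDerivAt_fst (𝕜 := ℂ) (p := (0 : C3))).add (hcompd F2 hg2).2).prodMk
      ((d2.add (hcompd F3 hg3).2).prodMk
        ((d3.add (hcompd F4 hg4).2).add ((hcompd F5 hg5).2.mul d3)))
    refine h1.congr_fderiv ?_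
    have e5 := (hcompd F5 hg5).1
    rw [e5]
    ext <;> simp
  refine ⟨φ, ψ, hφ, bih_id hψa hψ0 hψ1, ?_⟩
  have hall : ∀ᶠ p in 𝓝 (0 : C2), G (f p) = ψ (Φ p) := by
    filter_upwards [hev, hF2e, hF3e, hF4e, hF5e] with p hp h2 h3 h4 h5
    obtain ⟨p1, p2, p3⟩ := hp
    have hfp : f p = (p.1 + m.ev p (R 0), p.2 + m.ev p (R 1)) := by rw [hfd]
    rw [← hfp] at p1 p2 p3
    have q1 : (f p).1 = p.1 + m.ev p (R 0) := by rw [hfp]
    have q2 : (f p).2 = p.2 + m.ev p (R 1) := by rw [hfp]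
    rw [← q1] at p1
    rw [← q1, ← q2] at p2 p3
    have e0 : ∀ z, δ 0 z = (G z).1 - z.1 := by intro z; rw [hδ]; rfl
    have e1 : ∀ z, δ 1 z = (G z).2.1 - (z.2 ^ 3 - qq z.1 * z.2) := by intro z; rw [hδ]; rfl
    have e2 : ∀ z, δ 2 z = (G z).2.2 - (z.2 ^ 4 - rr z.1 * z.2 ^ 2) := by intro z; rw [hδ]; rfl
    have hπΦ : π (Φ p) = (p.1, p.2 ^ 3 - qq p.1 * p.2) := by rw [hπv]; rfl
    rw [e0] at p1
    rw [e1] at p2
    rw [e2] at p3
    have eP : ∀ a b : ℂ, Pf a b = b ^ 3 - qq a * b := by intro a b; unfold Pf qq; ring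
    have eZ : ∀ a b : ℂ, Zf a b = b ^ 4 - rr a * b ^ 2 := by intro a b; unfold Zf rr; ring
    rw [eP, eP] at p2
    rw [eZ, eZ] at p3
    rw [h2] at p1
    rw [h3] at p2
    rw [h4, h5] at p3
    rw [hψ]
    refine Prod.ext ?_ (Prod.ext ?_ ?_)
    · show (G (f p)).1 = p.1 + F2 (π (Φ p))
      rw [hπΦ, ← p1]
      ring
    · show (G (f p)).2.1 = (p.2 ^ 3 - qq p.1 * p.2) + F3 (π (Φ p))
      rw [hπΦ, ← p2]
      ring
    · show (G (f p)).2.2 = (p.2 ^ 4 - rr p.1 * p.2 ^ 2) + F4 (π (Φ p)) +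
        F5 (π (Φ p)) * (p.2 ^ 4 - rr p.1 * p.2 ^ 2)
      rw [hπΦ, ← p3]
      ring
  filter_upwards [hφt.eventually hall, hφr] with p h1 h2
  rw [h2] at h1
  exact h1

end Pool.Agent.R743.PB
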