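import Pool.Agent.R743.PB.Stm2

/-! # Project PB, piece FD-MODEL: assembly of the model -/

set_option autoImplicit false

open Filter Topology Set Asymptotics

namespace Pool.Agent.R743.PB

namespace FMod

variable {A : Type} [NormedCommRing A] [NormedAlgebra ℂ A]

theorem al_i {q p : A} {E : Type} [NormedCommRing E] [NormedAlgebra ℂ E] (e : Cub q p E) (a : A) :
    e.al (e.ι a) = a := by
  have h := (e.co a 0 0).1
  rwa [map_zero, zero_mul, zero_mul, add_zero, add_zero] at h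

theorem le_norm {q p : A} {E : Type} [NormedCommRing E] [NormedAlgebra ℂ E] (e : Cub q p E) (f : E) :
    ‖e.al f‖ ≤ ‖f‖ ∧ ‖e.be f‖ ≤ ‖f‖ ∧ ‖e.ga f‖ ≤ ‖f‖ := by
  rw [e.nrm f]
  have h1 := norm_nonneg (e.al f)
  have h2 := norm_nonneg (e.be f)
  have h3 := norm_nonneg (e.ga f)
  refine ⟨?_, ?_, ?_⟩ <;> linarith

omit [NormedAlgebra ℂ A] in
theorem inv_A [CompleteSpace A] (h1 : ‖(1 : A)‖ ≤ 1) (a : A) (ha : ‖1 - a‖ ≤ 1 / 2) :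
    ∃ v : A, a * v = 1 ∧ ‖v‖ ≤ 2 := by
  set t := 1 - a with ht
  have ht1 : ‖t‖ < 1 := by linarith
  set u := Units.oneSub t ht1 with hu
  have hua : (u : A) = a := by
    rw [hu, Units.val_oneSub, ht]
    ring
  refine ⟨((u⁻¹ : Aˣ) : A), ?_, ?_⟩
  · rw [← hua]
    exact u.mul_inv
  · set v := ((u⁻¹ : Aˣ) : A) with hv
    have h2 : v = 1 + t * v := by
      have h3 : a * v = 1 := by
        rw [← hua]
        exact u.mul_inv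
      rw [ht]
      linear_combination h3
    have h4 : ‖v‖ ≤ 1 + 1 / 2 * ‖v‖ := by
      calc ‖v‖ = ‖1 + t * v‖ := congrArg _ h2
        _ ≤ ‖(1 : A)‖ + ‖t * v‖ := norm_add_le _ _
        _ ≤ 1 + ‖t‖ * ‖v‖ := add_le_add h1 (norm_mul_le _ _)
        _ ≤ 1 + 1 / 2 * ‖v‖ := by gcongr
    linarith

theorem nreal (s : ℝ) (hs : 0 ≤ s) {F : Type} [NormedCommRing F] [NormedAlgebra ℂ F] (f : F) :
    ‖((s : ℝ) : ℂ) • f‖ = s * ‖f‖ := by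
  rw [norm_smul, Complex.norm_real, Real.norm_eq_abs, abs_of_nonneg hs]

end FMod

open FMod in
theorem model (hA : S_A) (hW : S_W) (hX : S_EXT) (hV : S_V) (hE : S_EVE) : S_MODEL := by
  refine ⟨4096, 1 / 2, by norm_num, by norm_num, fun r hr hr2 => ?_⟩
  obtain ⟨A, _, _, _, ⟨m⟩⟩ := hA
  obtain ⟨wn1, wnX, wnY, wcl, wanti, wtop, wX, wY, wmul, D1, D2, E1, E2, wdd, wee, wnd, wvd⟩ :=
    hW A m
  have hr1 : r ≤ 1 := by linarith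
  have hrr : r ^ 2 ≤ 1 / 4 := by nlinarith
  -- the norms
  have nxs : ‖m.xs r‖ ≤ r ^ 2 / 8 := by
    unfold MA.xs
    rw [nreal _ (by positivity)]
    calc r ^ 2 / 8 * ‖m.X‖ ≤ r ^ 2 / 8 * 1 := by gcongr
      _ = _ := mul_one _
  have nxs' : ‖m.xs r‖ ≤ 1 / 32 := by linarith
  have nq : ‖m.qs r‖ ≤ 1 / 2 := by
    unfold MA.qs
    rw [nreal _ (by norm_num)]
    have h1 : ‖(1 : A) + m.xs r + m.xs r ^ 2‖ ≤ 2 := by
      have e1 : ‖m.xs r ^ 2‖ ≤ 1 / 32 * (1 / 32) := by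
        rw [pow_two]
        exact (norm_mul_le _ _).trans (mul_le_mul nxs' nxs' (norm_nonneg _) (by norm_num))
      have e2 := norm_add_le ((1 : A) + m.xs r) (m.xs r ^ 2)
      have e3 := norm_add_le (1 : A) (m.xs r)
      linarith
    have h2 : ‖m.X * (1 + m.xs r + m.xs r ^ 2)‖ ≤ 1 * 2 :=
      (norm_mul_le _ _).trans (mul_le_mul wnX h1 (norm_nonneg _) (by norm_num))
    linarith
  have np : ‖m.ps‖ ≤ 1 / 2 := by
    unfold MA.ps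
    rw [nreal _ (by norm_num)]
    linarith
  obtain ⟨E, _, _, hcomp, ⟨e⟩⟩ := hX A (m.qs r) m.ps wn1 (by linarith)
  have mem0 : ∀ f : A, f ∈ m.W 0 := fun f => by
    rw [wtop]
    exact Submodule.mem_top
  have hxsW : m.xs r ∈ m.W 2 := by
    unfold MA.xs
    exact (m.W 2).smul_mem _ wX
  have hqW : m.qs r ∈ m.W 2 := by
    unfold MA.qs
    exact (m.W 2).smul_mem _ (wmul 2 0 _ _ wX (mem0 _))
  have hpW : m.ps ∈ m.W 3 := by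
    unfold MA.ps
    exact (m.W 3).smul_mem _ wY
  obtain ⟨vcl, vanti, vtop, vy, vi, vmul, vni, vny⟩ := hV A m _ _ E e hqW hpW
  obtain ⟨ev1, ev2, ev3, ev4⟩ := hE A m r hr E e
  have hrc : (r : ℂ) ≠ 0 := by exact_mod_cast hr.ne'
  -- memberships
  have mal : ∀ n, ∀ f ∈ e.V m n, e.al f ∈ m.W n := fun n f hf => hf.1.1
  have mbe : ∀ n, ∀ f ∈ e.V m n, e.be f ∈ m.W (n - 1) := fun n f hf => hf.1.2
  have mga : ∀ n, ∀ f ∈ e.V m n, e.ga f ∈ m.W (n - 2) := fun n f hf => hf.2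
  have rng : ∀ (z : ℂ) (a : A), z • e.ι a ∈ e.ι.range := fun z a =>
    ⟨z • a, by simp⟩
  have rng' : ∀ a : A, e.ι a ∈ e.ι.range := fun a => ⟨a, rfl⟩
  -- scalars
  have sc : ∀ (s : ℝ) (a : A), ((s : ℝ) : ℂ) • e.ι a = algebraMap ℂ E ((s : ℝ) : ℂ) * e.ι a :=
    fun s a => Algebra.smul_def _ _
  have ixs : e.ι (m.xs r) = ((r ^ 2 / 8 : ℝ) : ℂ) • e.ι m.X := by
    unfold MA.xs
    rw [map_smul]
  set al' : E →ₗ[ℂ] E := e.ι.toLinearMap ∘ₗ e.al with hal'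
  set be' : E →ₗ[ℂ] E := ((r⁻¹ : ℝ) : ℂ) • (e.ι.toLinearMap ∘ₗ e.be) with hbe'
  set ga' : E →ₗ[ℂ] E := (((r ^ 2)⁻¹ : ℝ) : ℂ) • (e.ι.toLinearMap ∘ₗ e.ga) with hga'
  set d1' : E →ₗ[ℂ] E := (((8 / r ^ 2) ^ 4 : ℝ) : ℂ) • (e.ι.toLinearMap ∘ₗ D1 ∘ₗ e.al) with hd1'
  set d2' : E →ₗ[ℂ] E := ((2 / r ^ 3 : ℝ) : ℂ) • (e.ι.toLinearMap ∘ₗ D2 ∘ₗ e.al) with hd2'
  set e1' : E →ₗ[ℂ] E := (((8 / r ^ 2) ^ 2 : ℝ) : ℂ) • (e.ι.toLinearMap ∘ₗ E1 ∘ₗ e.al) with he1'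
  set e2' : E →ₗ[ℂ] E := (((2 / r ^ 3) ^ 2 : ℝ) : ℂ) • (e.ι.toLinearMap ∘ₗ E2 ∘ₗ e.al) with he2'
  have a_al : ∀ f, al' f = e.ι (e.al f) := fun f => rfl
  have a_be : ∀ f, be' f = ((r⁻¹ : ℝ) : ℂ) • e.ι (e.be f) := fun f => rfl
  have a_ga : ∀ f, ga' f = (((r ^ 2)⁻¹ : ℝ) : ℂ) • e.ι (e.ga f) := fun f => rfl
  have a_d1 : ∀ f, d1' f = (((8 / r ^ 2) ^ 4 : ℝ) : ℂ) • e.ι (D1 (e.al f)) := fun f => rfl
  have a_d2 : ∀ f, d2' f = ((2 / r ^ 3 : ℝ) : ℂ) • e.ι (D2 (e.al f)) := fun f => rfl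
  have a_e1 : ∀ f, e1' f = (((8 / r ^ 2) ^ 2 : ℝ) : ℂ) • e.ι (E1 (e.al f)) := fun f => rfl
  have a_e2 : ∀ f, e2' f = (((2 / r ^ 3) ^ 2 : ℝ) : ℂ) • e.ι (E2 (e.al f)) := fun f => rfl
  have p_P : ((r ^ 3 / 2 : ℝ) : ℂ) • e.ι m.Y = ((r : ℂ) • e.y) ^ 3 -
      e.ι (m.xs r) * (1 + e.ι (m.xs r) + e.ι (m.xs r) ^ 2) * ((r : ℂ) • e.y) := by
    have h1 : e.ι (m.qs r) = ((1 / 8 : ℝ) : ℂ) • (e.ι m.X * (1 + e.ι (m.xs r) + e.ι (m.xs r) ^ 2)) := by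
      unfold MA.qs
      rw [map_smul, map_mul, map_add, map_add, map_one, map_pow]
    have h2 : e.ι m.ps = ((1 / 2 : ℝ) : ℂ) • e.ι m.Y := by
      unfold MA.ps
      rw [map_smul]
    have h3 : ((r : ℂ) • e.y) ^ 3 = ((r : ℂ) ^ 3) • (e.ι (m.qs r) * e.y + e.ι m.ps) := by
      rw [smul_pow, e.rel]
    rw [h3, h1, h2]
    have h4 : e.ι (m.xs r) * (1 + e.ι (m.xs r) + e.ι (m.xs r) ^ 2) =
        ((r ^ 2 / 8 : ℝ) : ℂ) • (e.ι m.X * (1 + e.ι (m.xs r) + e.ι (m.xs r) ^ 2)) := by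
      conv_lhs => rw [ixs]
      rw [smul_mul_assoc, ← ixs]
    rw [h4]
    set Q := e.ι m.X * (1 + e.ι (m.xs r) + e.ι (m.xs r) ^ 2)
    rw [smul_mul_assoc, smul_mul_assoc, mul_smul_comm, smul_add, smul_smul, smul_smul, smul_smul]
    have s1 : (r : ℂ) ^ 3 * ((1 / 8 : ℝ) : ℂ) = ((r ^ 2 / 8 : ℝ) : ℂ) * (r : ℂ) := by
      push_cast
      ring
    have s2 : (r : ℂ) ^ 3 * ((1 / 2 : ℝ) : ℂ) = ((r ^ 3 / 2 : ℝ) : ℂ) := by
      push_cast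
      ring
    rw [s1, s2]
    abel
  have p_dec : ∀ f, f = al' f + be' f * ((r : ℂ) • e.y) + ga' f * ((r : ℂ) • e.y) ^ 2 := by
    intro f
    rw [a_al, a_be, a_ga, smul_pow]
    rw [smul_mul_smul_comm, smul_mul_smul_comm]
    have s1 : ((r⁻¹ : ℝ) : ℂ) * (r : ℂ) = 1 := by
      push_cast
      exact inv_mul_cancel₀ hrc
    have s2 : (((r ^ 2)⁻¹ : ℝ) : ℂ) * (r : ℂ) ^ 2 = 1 := by
      push_cast
      exact inv_mul_cancel₀ (pow_ne_zero 2 hrc)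
    rw [s1, s2, one_smul, one_smul]
    exact e.dec f
  have p_dd : ∀ f ∈ e.ι.range, f ∈ e.V m 7 →
      f = e.ι (m.xs r) ^ 4 * d1' f + (((r ^ 3 / 2 : ℝ) : ℂ) • e.ι m.Y) * d2' f := by
    rintro _ ⟨a, rfl⟩ hf
    have h1 : e.ι a ∈ e.V m 7 := hf
    have h2 : a ∈ m.W 7 := by
      have := mal 7 _ h1
      rwa [al_i] at this
    show e.ι a = e.ι (m.xs r) ^ 4 * d1' (e.ι a) + (((r ^ 3 / 2 : ℝ) : ℂ) • e.ι m.Y) * d2' (e.ι a)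
    rw [a_d1, a_d2, al_i, ixs, smul_pow, smul_mul_smul_comm, smul_mul_smul_comm]
    have s1 : ((r ^ 2 / 8 : ℝ) : ℂ) ^ 4 * (((8 / r ^ 2) ^ 4 : ℝ) : ℂ) = 1 := by
      push_cast
      field_simp
    have s2 : ((r ^ 3 / 2 : ℝ) : ℂ) * ((2 / r ^ 3 : ℝ) : ℂ) = 1 := by
      push_cast
      field_simp
    rw [s1, s2, one_smul, one_smul, ← map_pow, ← map_mul, ← map_mul, ← map_add, ← wdd a h2]
  have p_ee : ∀ f ∈ e.ι.range, f ∈ e.V m 6 →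
      f = e.ι (m.xs r) ^ 2 * e1' f + (((r ^ 3 / 2 : ℝ) : ℂ) • e.ι m.Y) ^ 2 * e2' f := by
    rintro _ ⟨a, rfl⟩ hf
    have h1 : e.ι a ∈ e.V m 6 := hf
    have h2 : a ∈ m.W 6 := by
      have := mal 6 _ h1
      rwa [al_i] at this
    show e.ι a = e.ι (m.xs r) ^ 2 * e1' (e.ι a) + (((r ^ 3 / 2 : ℝ) : ℂ) • e.ι m.Y) ^ 2 * e2' (e.ι a)
    rw [a_e1, a_e2, al_i, ixs, smul_pow, smul_pow, smul_mul_smul_comm, smul_mul_smul_comm]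
    have s1 : ((r ^ 2 / 8 : ℝ) : ℂ) ^ 2 * (((8 / r ^ 2) ^ 2 : ℝ) : ℂ) = 1 := by
      push_cast
      field_simp
    have s2 : ((r ^ 3 / 2 : ℝ) : ℂ) ^ 2 * (((2 / r ^ 3) ^ 2 : ℝ) : ℂ) = 1 := by
      push_cast
      field_simp
    rw [s1, s2, one_smul, one_smul, ← map_pow, ← map_pow, ← map_mul, ← map_mul, ← map_add,
      ← wee a h2]
  have p_nd : ∀ f ∈ e.ι.range, r ^ 8 * ‖d1' f‖ ≤ 4096 * ‖f‖ ∧ r ^ 8 * ‖d2' f‖ ≤ 4096 * ‖f‖ ∧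
      r ^ 8 * ‖e1' f‖ ≤ 4096 * ‖f‖ ∧ r ^ 8 * ‖e2' f‖ ≤ 4096 * ‖f‖ := by
    rintro _ ⟨a, rfl⟩
    show r ^ 8 * ‖d1' (e.ι a)‖ ≤ 4096 * ‖e.ι a‖ ∧ r ^ 8 * ‖d2' (e.ι a)‖ ≤ 4096 * ‖e.ι a‖ ∧
      r ^ 8 * ‖e1' (e.ι a)‖ ≤ 4096 * ‖e.ι a‖ ∧ r ^ 8 * ‖e2' (e.ι a)‖ ≤ 4096 * ‖e.ι a‖
    rw [a_d1, a_d2, a_e1, a_e2, al_i, nreal _ (by positivity), nreal _ (by positivity),
      nreal _ (by positivity), nreal _ (by positivity), vni, vni, vni, vni, vni]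
    obtain ⟨n1, n2, n3, n4⟩ := wnd a
    have hn := norm_nonneg a
    have hpw : ∀ k : ℕ, r ^ k ≤ 1 := fun k => pow_le_one₀ hr.le hr1
    refine ⟨?_, ?_, ?_, ?_⟩
    · calc r ^ 8 * ((8 / r ^ 2) ^ 4 * ‖D1 a‖) = 4096 * ‖D1 a‖ := by
            field_simp
            ring
        _ ≤ 4096 * ‖a‖ := by gcongr
    · calc r ^ 8 * (2 / r ^ 3 * ‖D2 a‖) = 2 * r ^ 5 * ‖D2 a‖ := by
            field_simp
        _ ≤ 2 * 1 * ‖a‖ := by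
            gcongr
            exact hpw 5
        _ ≤ 4096 * ‖a‖ := by linarith
    · calc r ^ 8 * ((8 / r ^ 2) ^ 2 * ‖E1 a‖) = 64 * r ^ 4 * ‖E1 a‖ := by
            field_simp
            ring
        _ ≤ 64 * 1 * ‖a‖ := by
            gcongr
            exact hpw 4
        _ ≤ 4096 * ‖a‖ := by linarith
    · calc r ^ 8 * ((2 / r ^ 3) ^ 2 * ‖E2 a‖) = 4 * r ^ 2 * ‖E2 a‖ := by
            field_simp
            ring
        _ ≤ 4 * 1 * ‖a‖ := by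
            gcongr
            exact hpw 2
        _ ≤ 4096 * ‖a‖ := by linarith
  have p_vd : ∀ n, ∀ f ∈ e.ι.range, f ∈ e.V m n → d1' f ∈ e.V m (n - 8) ∧ d2' f ∈ e.V m (n - 3) ∧
      e1' f ∈ e.V m (n - 4) ∧ e2' f ∈ e.V m (n - 6) := by
    rintro n _ ⟨a, rfl⟩ hf
    have h1 : e.ι a ∈ e.V m n := hf
    have h2 : a ∈ m.W n := by
      have := mal n _ h1
      rwa [al_i] at this
    show d1' (e.ι a) ∈ e.V m (n - 8) ∧ d2' (e.ι a) ∈ e.V m (n - 3) ∧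
      e1' (e.ι a) ∈ e.V m (n - 4) ∧ e2' (e.ι a) ∈ e.V m (n - 6)
    obtain ⟨v1, v2, v3, v4⟩ := wvd n a h2
    rw [a_d1, a_d2, a_e1, a_e2, al_i]
    exact ⟨(e.V m _).smul_mem _ (vi _ _ v1), (e.V m _).smul_mem _ (vi _ _ v2),
      (e.V m _).smul_mem _ (vi _ _ v3), (e.V m _).smul_mem _ (vi _ _ v4)⟩
  have p_inv : ∀ u ∈ e.ι.range, ‖1 - u‖ ≤ 1 / 2 → ∃ v ∈ e.ι.range, u * v = 1 ∧ ‖v‖ ≤ 2 := by
    rintro _ ⟨a, rfl⟩ hu
    have h1 : ‖1 - a‖ ≤ 1 / 2 := by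
      have h2 : (1 : E) - e.ι a = e.ι (1 - a) := by rw [map_sub, map_one]
      have h3 : ‖(1 : E) - e.ι a‖ ≤ 1 / 2 := hu
      rwa [h2, vni] at h3
    obtain ⟨v, hv1, hv2⟩ := inv_A wn1 a h1
    refine ⟨e.ι v, rng' v, ?_, ?_⟩
    · show e.ι a * e.ι v = 1
      rw [← map_mul, hv1, map_one]
    · rw [vni]
      exact hv2
  refine ⟨E, _, _, hcomp, ⟨{
    A := e.ι.range
    V := e.V m
    x := e.ι (m.xs r)
    y := (r : ℂ) • e.y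
    P := ((r ^ 3 / 2 : ℝ) : ℂ) • e.ι m.Y
    al := al'
    be := be'
    ga := ga'
    d1 := d1'
    d2 := d2'
    e1 := e1'
    e2 := e2'
    ev := e.ev m r
    n1 := ?_
    hP := p_P
    hx := rng' _
    hPA := rng _ _
    nx := ?_
    ny := ?_
    closed := vcl
    anti := vanti
    top := vtop
    vmul := vmul
    vx := vi _ _ hxsW
    vy := (e.V m 1).smul_mem _ vy
    vP := (e.V m 3).smul_mem _ (vi _ _ wY)
    decomp := p_dec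
    memA := fun f => ⟨rng' _, rng _ _, rng _ _⟩
    nal := ?_
    val := ?_
    dmem := fun f _ => ⟨rng _ _, rng _ _, rng _ _, rng _ _⟩
    dd := p_dd
    ee := p_ee
    nd := p_nd
    vd := p_vd
    inv := p_inv
    ev_hom := ev1
    ev_an := ev2
    ev_ord := ev3
    ev_A := ?_ }⟩⟩
  · rw [← map_one e.ι, vni]
    exact wn1
  · rw [vni]
    have : 0 ≤ r ^ 2 := by positivity
    linarith
  · rw [nreal r hr.le]
    calc r * ‖e.y‖ ≤ r * 1 := by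
          gcongr
          exact vny.trans wn1
      _ = r := mul_one r
  · intro f
    rw [a_al, a_be, a_ga, nreal _ (by positivity), nreal _ (by positivity), vni, vni, vni]
    obtain ⟨n1, n2, n3⟩ := le_norm e f
    refine ⟨n1, ?_, ?_⟩
    · rw [← mul_assoc, mul_inv_cancel₀ hr.ne', one_mul]
      exact n2
    · rw [← mul_assoc, mul_inv_cancel₀ (by positivity), one_mul]
      exact n3
  · intro n f hf
    rw [a_al, a_be, a_ga]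
    exact ⟨vi _ _ (mal n f hf), (e.V m _).smul_mem _ (vi _ _ (mbe n f hf)),
      (e.V m _).smul_mem _ (vi _ _ (mga n f hf))⟩
  · rintro _ ⟨a, rfl⟩
    obtain ⟨F, f1, f2, f3⟩ := ev4 a
    refine ⟨F, f1, f2, fun hf => f3 ?_⟩
    have h1 : e.ι a ∈ e.V m 6 := hf
    have := mal 6 _ h1
    rwa [al_i] at this

end Pool.Agent.R743.PB
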