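import Pool.Agent.R743.PB.Stm2

/-!
# FD-PSER: the two-variable power series of a holomorphic germ
-/

set_option autoImplicit false

open Filter Topology Set Asymptotics

namespace Pool.Agent.R743.PB

namespace PSer

/-- coefficient of `x^(n-j) y^j` in the homogeneous polynomial `p n (z, …, z)` -/
noncomputable def cf (p : FormalMultilinearSeries ℂ C2 ℂ) (n j : ℕ) : ℂ :=
  ∑ s ∈ Finset.powersetCard j (Finset.univ : Finset (Fin n)),
    p n (s.piecewise (fun _ => ((0 : ℂ), (1 : ℂ))) (fun _ => ((1 : ℂ), (0 : ℂ))))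

lemma expand (p : FormalMultilinearSeries ℂ C2 ℂ) (n : ℕ) (z : C2) :
    p n (fun _ => z) = ∑ j ∈ Finset.range (n + 1), cf p n j * z.1 ^ (n - j) * z.2 ^ j := by
  classical
  have h1 : (fun _ : Fin n => z) = (fun _ : Fin n => z.2 • ((0 : ℂ), (1 : ℂ))) +
      (fun _ : Fin n => z.1 • ((1 : ℂ), (0 : ℂ))) := by
    funext i
    simp
  rw [h1, ContinuousMultilinearMap.map_add_univ, ← Finset.powerset_univ, Finset.sum_powerset,
    Finset.card_univ, Fintype.card_fin]
  refine Finset.sum_congr rfl fun j hj => ?_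
  rw [cf, Finset.sum_mul, Finset.sum_mul]
  refine Finset.sum_congr rfl fun s hs => ?_
  have hcard : s.card = j := (Finset.mem_powersetCard.mp hs).2
  have h2 : s.piecewise (fun _ : Fin n => z.2 • ((0 : ℂ), (1 : ℂ)))
      (fun _ : Fin n => z.1 • ((1 : ℂ), (0 : ℂ))) =
      fun i : Fin n => (if i ∈ s then z.2 else z.1) •
        (s.piecewise (fun _ => ((0 : ℂ), (1 : ℂ))) (fun _ => ((1 : ℂ), (0 : ℂ))) : Fin n → C2) i := by
    funext i
    by_cases hi : i ∈ s <;> simp [hi]
  rw [h2, ContinuousMultilinearMap.map_smul_univ, Finset.prod_ite]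
  have h3 : (Finset.univ.filter fun i => i ∈ s) = s := by
    ext i; simp
  have h4 : (Finset.univ.filter fun i => ¬ i ∈ s) = sᶜ := by
    ext i; simp
  rw [h3, h4, Finset.prod_const, Finset.prod_const, Finset.card_compl, Fintype.card_fin, hcard,
    smul_eq_mul]
  ring

lemma cf_bound (p : FormalMultilinearSeries ℂ C2 ℂ) (n j : ℕ) : ‖cf p n j‖ ≤ 2 ^ n * ‖p n‖ := by
  classical
  have h1 : ∀ s ∈ Finset.powersetCard j (Finset.univ : Finset (Fin n)),
      ‖p n (s.piecewise (fun _ => ((0 : ℂ), (1 : ℂ))) (fun _ => ((1 : ℂ), (0 : ℂ))))‖ ≤ ‖p n‖ := by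
    intro s _
    refine ((p n).le_opNorm _).trans ?_
    refine mul_le_of_le_one_right (norm_nonneg _) ?_
    refine Finset.prod_le_one (fun i _ => norm_nonneg _) fun i _ => ?_
    by_cases hi : i ∈ s <;> simp [hi, Prod.norm_def]
  refine (norm_sum_le _ _).trans ((Finset.sum_le_sum h1).trans ?_)
  rw [Finset.sum_const, Finset.card_powersetCard, Finset.card_univ, Fintype.card_fin, nsmul_eq_mul]
  refine mul_le_mul_of_nonneg_right ?_ (norm_nonneg _)
  exact_mod_cast Nat.choose_le_two_pow n j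

lemma vanish (p : FormalMultilinearSeries ℂ C2 ℂ) (n : ℕ) (h : ∀ z : C2, p n (fun _ => z) = 0)
    (j : ℕ) (hj : j ≤ n) : cf p n j = 0 := by
  have hQ : (∑ j ∈ Finset.range (n + 1), Polynomial.C (cf p n j) * Polynomial.X ^ j :
      Polynomial ℂ) = 0 := by
    refine Polynomial.funext fun t => ?_
    have h1 := h (1, t)
    rw [expand] at h1
    rw [Polynomial.eval_finsetSum, Polynomial.eval_zero, ← h1]
    refine Finset.sum_congr rfl fun i _ => ?_
    simp
  have h2 := congrArg (fun q : Polynomial ℂ => q.coeff j) hQ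
  simp only [Polynomial.finsetSum_coeff, Polynomial.coeff_C_mul, Polynomial.coeff_X_pow,
    Polynomial.coeff_zero] at h2
  rw [Finset.sum_eq_single j] at h2
  · simpa using h2
  · intro b _ hb
    simp [Ne.symm hb]
  · intro hn
    exact absurd (Finset.mem_range.mpr (by omega)) hn

lemma homog_zero {δ : C2 → ℂ} {p : FormalMultilinearSeries ℂ C2 ℂ} (hp : HasFPowerSeriesAt δ p 0)
    (k : ℕ) (hO : δ =O[𝓝 0] fun z => ‖z‖ ^ (k + 1)) :
    ∀ n, n ≤ k → ∀ y : C2, p n (fun _ => y) = 0 := by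
  intro n
  induction n using Nat.strong_induction_on with
  | _ n ih =>
    intro hn y
    have psum_eq : p.partialSum (n + 1) = fun y => p n fun _ => y := by
      funext z
      refine Finset.sum_eq_single _ (fun b hb hnb => ?_) fun hn => ?_
      · have := Finset.mem_range_succ_iff.mp hb
        exact ih b (this.lt_of_ne hnb) (by omega) z
      · exact False.elim (hn (Finset.mem_range.mpr (lt_add_one n)))
    have h1 := hp.isBigO_sub_partialSum_pow (n + 1)
    simp only [zero_add, psum_eq] at h1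
    have h2 : δ =O[𝓝 0] fun z : C2 => ‖z‖ ^ (n + 1) := by
      refine hO.trans ?_
      refine IsBigO.of_bound 1 ?_
      filter_upwards [Metric.ball_mem_nhds (0 : C2) one_pos] with z hz
      rw [mem_ball_zero_iff] at hz
      rw [one_mul, norm_pow, norm_pow, norm_norm]
      exact pow_le_pow_of_le_one (norm_nonneg _) hz.le (by omega)
    have h3 := h2.sub h1
    simp only [sub_sub_cancel] at h3
    exact h3.continuousMultilinearMap_apply_eq_zero y

end PSer

open PSer in
/-- FD-PSER -/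
theorem pser : S_PSER := by
  intro δ k hδ hO
  obtain ⟨p, hp⟩ := hδ
  obtain ⟨r, hr⟩ := hp
  obtain ⟨R, hR0, hRr⟩ := ENNReal.lt_iff_exists_nnreal_btwn.mp hr.r_pos
  have hR0' : (0 : ℝ) < R := by exact_mod_cast hR0
  obtain ⟨C, hC0, hC⟩ := p.norm_mul_pow_le_of_lt_radius (hRr.trans_le hr.r_le)
  have hbd : ∀ i j, ‖cf p (i + j) j‖ * ((R : ℝ) / 2) ^ (i + j) ≤ C := by
    intro i j
    refine le_trans (mul_le_mul_of_nonneg_right (cf_bound p (i + j) j) (by positivity)) ?_
    refine le_trans (le_of_eq ?_) (hC (i + j))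
    rw [div_pow]
    field_simp
  refine ⟨fun i j => cf p (i + j) j, C, R / 2, by positivity, hbd, ?_, ?_⟩
  · intro i j hij
    exact vanish p (i + j) (homog_zero ⟨r, hr⟩ k hO (i + j) hij) j (by omega)
  · filter_upwards [Metric.ball_mem_nhds (0 : C2) (show (0 : ℝ) < R / 2 by positivity)] with z hz
    rw [mem_ball_zero_iff] at hz
    have hz1 : ‖z.1‖ ≤ ‖z‖ := norm_fst_le z
    have hz2 : ‖z.2‖ ≤ ‖z‖ := norm_snd_le z
    have hq : ‖z‖ / (R / 2) < 1 := by
      rw [div_lt_one (by positivity)]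
      exact hz
    have hq0 : 0 ≤ ‖z‖ / (R / 2) := by positivity
    have hsum : Summable fun t : ℕ × ℕ => cf p (t.1 + t.2) t.2 * z.1 ^ t.1 * z.2 ^ t.2 := by
      refine Summable.of_norm_bounded
        (g := fun t : ℕ × ℕ => C * ((‖z‖ / (R / 2)) ^ t.1 * (‖z‖ / (R / 2)) ^ t.2)) ?_ ?_
      · refine Summable.mul_left _ ?_
        exact (summable_geometric_of_lt_one hq0 hq).mul_of_nonneg
          (summable_geometric_of_lt_one hq0 hq) (fun _ => by positivity) (fun _ => by positivity)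
      · rintro ⟨i, j⟩
        have h1 := hbd i j
        have h2 : ‖z.1‖ ^ i ≤ ‖z‖ ^ i := pow_le_pow_left₀ (norm_nonneg _) hz1 i
        have h3 : ‖z.2‖ ^ j ≤ ‖z‖ ^ j := pow_le_pow_left₀ (norm_nonneg _) hz2 j
        simp only [norm_mul, norm_pow]
        calc ‖cf p (i + j) j‖ * ‖z.1‖ ^ i * ‖z.2‖ ^ j
            ≤ ‖cf p (i + j) j‖ * ‖z‖ ^ i * ‖z‖ ^ j := by gcongr
          _ = (‖cf p (i + j) j‖ * ((R : ℝ) / 2) ^ (i + j)) *
              ((‖z‖ / (R / 2)) ^ i * (‖z‖ / (R / 2)) ^ j) := by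
              have hqz : ‖z‖ = (‖z‖ / (R / 2)) * ((R : ℝ) / 2) := by field_simp
              have e1 : ‖z‖ ^ i = (‖z‖ / (R / 2)) ^ i * ((R : ℝ) / 2) ^ i := by
                rw [← mul_pow, ← hqz]
              have e2 : ‖z‖ ^ j = (‖z‖ / (R / 2)) ^ j * ((R : ℝ) / 2) ^ j := by
                rw [← mul_pow, ← hqz]
              rw [e1, e2, pow_add]
              ring
          _ ≤ C * ((‖z‖ / (R / 2)) ^ i * (‖z‖ / (R / 2)) ^ j) := by gcongr
    have hzr : z ∈ Metric.eball (0 : C2) r := by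
      rw [Metric.mem_eball, edist_zero_right]
      refine lt_trans ?_ hRr
      rw [← ofReal_norm, ENNReal.ofReal_lt_coe_iff (by positivity)]
      linarith
    have h4 := hr.hasSum hzr
    rw [zero_add] at h4
    have h5 : HasSum (fun n => p n fun _ => z)
        (∑' t : ℕ × ℕ, cf p (t.1 + t.2) t.2 * z.1 ^ t.1 * z.2 ^ t.2) := by
      have h6 := (Equiv.hasSum_iff (Finset.HasAntidiagonal.sigmaAntidiagonalEquivProd (A := ℕ))).mpr
        hsum.hasSum
      refine h6.sigma fun n => ?_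
      convert hasSum_fintype _ using 1
      rw [expand]
      simp only [Function.comp, Finset.HasAntidiagonal.sigmaAntidiagonalEquivProd_apply]
      rw [Finset.sum_coe_sort (Finset.HasAntidiagonal.antidiagonal n) (fun t : ℕ × ℕ =>
        cf p (t.1 + t.2) t.2 * z.1 ^ t.1 * z.2 ^ t.2), ← Finset.Nat.sum_antidiagonal_swap,
        Finset.Nat.sum_antidiagonal_eq_sum_range_succ_mk]
      refine Finset.sum_congr rfl fun j hj => ?_
      have hj' : j ≤ n := Nat.lt_succ_iff.mp (Finset.mem_range.mp hj)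
      simp only [Prod.swap]
      rw [Nat.sub_add_cancel hj']
    have h7 := h4.unique h5
    rw [h7]
    exact hsum.hasSum

end Pool.Agent.R743.PB
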