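import Pool.Agent.R743.PB.Stm2

/-!
FD-QUAD, FD-QV (helper718): the quadratic remainders.
-/

set_option autoImplicit false

namespace Pool.Agent.R743.PB

section alg
variable {E : Type} [CommRing E]

theorem QP_eq (x y s t : E) : QP x y s t =
    t * t * (3 * y + t) - s * s * ((1 + 3 * x + s) * y) -
      s * t * (1 + 2 * x + s + 3 * (x * x) + 3 * (x * s) + s * s) := by
  unfold QP Pf Px Py
  ring

theorem QZ_eq (x y s t : E) : QZ x y s t =
    t * t * (6 * (y * y) + 4 * (y * t) + t * t - (x + s) * (1 + (x + s) * (x + s))) -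
      s * s * ((3 * x + s) * (y * y)) -
      s * t * (2 * ((1 + 3 * (x * x) + 3 * (x * s) + s * s) * y)) := by
  unfold QZ Zf Zx Zy
  ring

end alg

section nrm
variable {E : Type} [NormedCommRing E]

/-- bounded and Lipschitz pairs of values -/
def GG (D M : ℝ) (a a' : E) : Prop := 0 ≤ M ∧ ‖a‖ ≤ M ∧ ‖a'‖ ≤ M ∧ ‖a - a'‖ ≤ M * D

theorem GG.add {D M N : ℝ} {a a' b b' : E} (h : GG D M a a') (g : GG D N b b') :
    GG D (M + N) (a + b) (a' + b') := by
  obtain ⟨h0, h1, h2, h3⟩ := h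
  obtain ⟨g0, g1, g2, g3⟩ := g
  refine ⟨by linarith, (norm_add_le _ _).trans (by linarith), (norm_add_le _ _).trans (by linarith), ?_⟩
  have e : a + b - (a' + b') = (a - a') + (b - b') := by ring
  rw [e]
  exact (norm_add_le _ _).trans (by linarith)

theorem GG.sub {D M N : ℝ} {a a' b b' : E} (h : GG D M a a') (g : GG D N b b') :
    GG D (M + N) (a - b) (a' - b') := by
  obtain ⟨h0, h1, h2, h3⟩ := h
  obtain ⟨g0, g1, g2, g3⟩ := g
  refine ⟨by linarith, (norm_sub_le _ _).trans (by linarith), (norm_sub_le _ _).trans (by linarith), ?_⟩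
  have e : a - b - (a' - b') = (a - a') - (b - b') := by ring
  rw [e]
  exact (norm_sub_le _ _).trans (by linarith)

theorem GG.mul {D M N : ℝ} (hD : 0 ≤ D) {a a' b b' : E} (h : GG D M a a') (g : GG D N b b') :
    GG D (2 * (M * N)) (a * b) (a' * b') := by
  obtain ⟨h0, h1, h2, h3⟩ := h
  obtain ⟨g0, g1, g2, g3⟩ := g
  have hMN : 0 ≤ M * N := mul_nonneg h0 g0
  have k1 : ‖a * b‖ ≤ M * N := (norm_mul_le _ _).trans (mul_le_mul h1 g1 (norm_nonneg _) h0)
  have k2 : ‖a' * b'‖ ≤ M * N := (norm_mul_le _ _).trans (mul_le_mul h2 g2 (norm_nonneg _) h0)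
  refine ⟨by linarith, by linarith, by linarith, ?_⟩
  have e : a * b - a' * b' = a * (b - b') + (a - a') * b' := by ring
  rw [e]
  have k3 : ‖a * (b - b')‖ ≤ M * (N * D) :=
    (norm_mul_le _ _).trans (mul_le_mul h1 g3 (norm_nonneg _) h0)
  have k4 : ‖(a - a') * b'‖ ≤ (M * D) * N :=
    (norm_mul_le _ _).trans (mul_le_mul h3 g2 (norm_nonneg _) (mul_nonneg h0 hD))
  refine (norm_add_le _ _).trans ?_
  have : M * (N * D) + M * D * N = 2 * (M * N) * D := by ring
  linarith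

theorem GG.const {D M : ℝ} (hD : 0 ≤ D) {a : E} (h : ‖a‖ ≤ M) : GG D M a a := by
  have h0 : 0 ≤ M := (norm_nonneg _).trans h
  refine ⟨h0, h, h, ?_⟩
  rw [sub_self, norm_zero]
  exact mul_nonneg h0 hD

theorem trip {e D M : ℝ} (hD : 0 ≤ D) (he : e ≤ 1) {a a' b b' c c' : E} (ha : ‖a‖ ≤ e)
    (ha' : ‖a'‖ ≤ e) (hb' : ‖b'‖ ≤ e) (hab : ‖a - a'‖ ≤ D) (hbb : ‖b - b'‖ ≤ D)
    (h : GG D M c c') : ‖a * b * c - a' * b' * c'‖ ≤ 3 * M * (e * D) := by
  obtain ⟨h0, h1, h2, h3⟩ := h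
  have he0 : 0 ≤ e := (norm_nonneg _).trans ha
  have heD : 0 ≤ e * D := mul_nonneg he0 hD
  have k1 : ‖a * (b - b') * c‖ ≤ (e * D) * M :=
    (norm_mul_le _ _).trans (mul_le_mul ((norm_mul_le _ _).trans
      (mul_le_mul ha hbb (norm_nonneg _) he0)) h1 (norm_nonneg _) heD)
  have k2 : ‖(a - a') * b' * c‖ ≤ (D * e) * M :=
    (norm_mul_le _ _).trans (mul_le_mul ((norm_mul_le _ _).trans
      (mul_le_mul hab hb' (norm_nonneg _) hD)) h1 (norm_nonneg _) (mul_nonneg hD he0))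
  have k3 : ‖a' * b' * (c - c')‖ ≤ (e * 1) * (M * D) :=
    (norm_mul_le _ _).trans (mul_le_mul ((norm_mul_le _ _).trans
      (mul_le_mul ha' (hb'.trans he) (norm_nonneg _) he0)) h3 (norm_nonneg _)
        (mul_nonneg he0 zero_le_one))
  have e1 : a * b * c - a' * b' * c' = a * (b - b') * c + (a - a') * b' * c + a' * b' * (c - c') := by
    ring
  rw [e1]
  refine (norm_add₃_le).trans ?_
  have : (e * D) * M + (D * e) * M + (e * 1) * (M * D) = 3 * M * (e * D) := by ring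
  linarith

theorem norm_natCast_le (h1 : ‖(1 : E)‖ ≤ 1) (n : ℕ) : ‖(n : E)‖ ≤ n := by
  induction n with
  | zero => simp
  | succ n ih =>
    push_cast
    exact (norm_add_le _ _).trans (add_le_add ih h1)

end nrm

theorem quad : S_QUAD := by
  refine ⟨100000, by norm_num, ?_⟩
  intro E _ x y s t s' t' e h1 hx hy he hs ht hs' ht'
  set D : ℝ := ‖s - s'‖ + ‖t - t'‖ with hDdef
  have hD : 0 ≤ D := add_nonneg (norm_nonneg _) (norm_nonneg _)
  have he0 : 0 ≤ e := (norm_nonneg _).trans hs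
  have hsD : ‖s - s'‖ ≤ D := by rw [hDdef]; linarith [norm_nonneg (t - t')]
  have htD : ‖t - t'‖ ≤ D := by rw [hDdef]; linarith [norm_nonneg (s - s')]
  have heD : 0 ≤ e * D := mul_nonneg he0 hD
  have n2 : ‖(2 : E)‖ ≤ 2 := by exact_mod_cast norm_natCast_le h1 2
  have n3 : ‖(3 : E)‖ ≤ 3 := by exact_mod_cast norm_natCast_le h1 3
  have n4 : ‖(4 : E)‖ ≤ 4 := by exact_mod_cast norm_natCast_le h1 4
  have n6 : ‖(6 : E)‖ ≤ 6 := by exact_mod_cast norm_natCast_le h1 6
  have g1 : GG D 1 (1 : E) 1 := GG.const hD h1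
  have g2 : GG D 2 (2 : E) 2 := GG.const hD n2
  have g3 : GG D 3 (3 : E) 3 := GG.const hD n3
  have g4 : GG D 4 (4 : E) 4 := GG.const hD n4
  have g6 : GG D 6 (6 : E) 6 := GG.const hD n6
  have gx : GG D 1 x x := GG.const hD hx
  have gy : GG D 1 y y := GG.const hD hy
  have gs : GG D 1 s s' := ⟨zero_le_one, hs.trans he, hs'.trans he, by linarith⟩
  have gt : GG D 1 t t' := ⟨zero_le_one, ht.trans he, ht'.trans he, by linarith⟩
  constructor
  · rw [QP_eq, QP_eq]
    have k1 := trip hD he ht ht' ht' htD htD ((g3.mul hD gy).add gt)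
    have k2 := trip hD he hs hs' hs' hsD hsD (((g1.add (g3.mul hD gx)).add gs).mul hD gy)
    have k3 := trip hD he hs hs' ht' hsD htD (((((g1.add (g2.mul hD gx)).add gs).add
      (g3.mul hD (gx.mul hD gx))).add (g3.mul hD (gx.mul hD gs))).add (gs.mul hD gs))
    have e1 : ∀ a b c a' b' c' : E, a - b - c - (a' - b' - c') = (a - a') - (b - b') - (c - c') := by
      intros; ring
    rw [e1]
    refine (norm_sub_le _ _).trans ?_
    have k4 := norm_sub_le (t * t * (3 * y + t) - t' * t' * (3 * y + t'))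
      (s * s * ((1 + 3 * x + s) * y) - s' * s' * ((1 + 3 * x + s') * y))
    have k5 : 100000 * e * D = 100000 * (e * D) := by ring
    rw [k5]
    norm_num at k1 k2 k3
    nlinarith
  · rw [QZ_eq, QZ_eq]
    have k1 := trip hD he ht ht' ht' htD htD ((((g6.mul hD (gy.mul hD gy)).add
      (g4.mul hD (gy.mul hD gt))).add (gt.mul hD gt)).sub
        ((gx.add gs).mul hD (g1.add ((gx.add gs).mul hD (gx.add gs)))))
    have k2 := trip hD he hs hs' hs' hsD hsD (((g3.mul hD gx).add gs).mul hD (gy.mul hD gy))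
    have k3 := trip hD he hs hs' ht' hsD htD (g2.mul hD ((((g1.add (g3.mul hD (gx.mul hD gx))).add
      (g3.mul hD (gx.mul hD gs))).add (gs.mul hD gs)).mul hD gy))
    have e1 : ∀ a b c a' b' c' : E, a - b - c - (a' - b' - c') = (a - a') - (b - b') - (c - c') := by
      intros; ring
    rw [e1]
    refine (norm_sub_le _ _).trans ?_
    have k4 := norm_sub_le
      (t * t * (6 * (y * y) + 4 * (y * t) + t * t - (x + s) * (1 + (x + s) * (x + s))) -
        t' * t' * (6 * (y * y) + 4 * (y * t') + t' * t' - (x + s') * (1 + (x + s') * (x + s'))))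
      (s * s * ((3 * x + s) * (y * y)) - s' * s' * ((3 * x + s') * (y * y)))
    have k5 : 100000 * e * D = 100000 * (e * D) := by ring
    rw [k5]
    norm_num at k1 k2 k3
    nlinarith

theorem qv : S_QV := by
  intro K r E _ _ m s hs t ht
  have hid : ∀ f ∈ m.V 12, ∀ g : E, f * g ∈ m.V 12 := by
    intro f hf g
    have hg : g ∈ m.V 0 := by rw [m.top]; trivial
    exact m.vmul 12 0 f g hf hg
  have hss : s * s ∈ m.V 12 := m.vmul 6 6 s s hs hs
  have hst : s * t ∈ m.V 12 := m.vmul 6 6 s t hs ht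
  have htt : t * t ∈ m.V 12 := m.vmul 6 6 t t ht ht
  constructor
  · rw [QP_eq]
    exact Submodule.sub_mem _ (Submodule.sub_mem _ (hid _ htt _) (hid _ hss _)) (hid _ hst _)
  · rw [QZ_eq]
    exact Submodule.sub_mem _ (Submodule.sub_mem _ (hid _ htt _) (hid _ hss _)) (hid _ hst _)

end Pool.Agent.R743.PB
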