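import Pool.Agent.R743.PB.Stm2

/-!
# FD-RINV: an explicit bounded right inverse of the infinitesimal action
-/

set_option autoImplicit false

open Filter Topology Set Asymptotics

namespace Pool.Agent.R743.PB

namespace RInv

/-! ### the algebra -/

theorem eqs {E : Type} [CommRing E]
    (x y P qi u1 u1i u2 u2i w1i third half h1 h2 h3 a2 b2 c2 a3 b3 c3 B1 B2 G1 G2 : E)
    (q rr : E) (hqd : q = x * (1 + x + x ^ 2)) (hrr : rr = x * (1 + x ^ 2))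
    (hP : P = y ^ 3 - x * (1 + x + x ^ 2) * y) (hq : (1 + 2 * x + 3 * x ^ 2) * qi = 1)
    (T3 : 3 * third = 1) (T2 : 2 * half = 1)
    (hu1d : u1 = 1 + 6 * x * qi) (hu1 : u1 * u1i = 1)
    (hu2d : u2 = (1 + x + x ^ 2) * (1 + x) ^ 2) (hu2 : u2 * u2i = 1)
    (hw1 : (1 - x ^ 2) * qi * w1i = 1)
    (hd2 : h2 - Px x y * h1 = a2 + b2 * y + c2 * y ^ 2)
    (a0 s0 b0 : E) (ha0 : a0 = -(qi * b2)) (hs0 : s0 = third * c2)
    (hb0 : b0 = -(a2 + third * q * c2))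
    (hd3 : h3 - Zx x y * h1 - Zx x y * a0 - Zy x y * s0 = a3 + b3 * y + c3 * y ^ 2)
    (hB : b3 = x ^ 4 * B1 + P * B2) (hG : c3 = x ^ 2 * G1 + P ^ 2 * G2)
    (w f2 g X f1 : E) (hw : w = u1i * G2) (hf2 : f2 = 3 * half * x ^ 2 * u2i * B1 + P * w)
    (hg : g = B2 - 2 * third * x ^ 2 * u2 * w)
    (hX : X = G1 - B2 + 2 * third * x ^ 2 * u2 * w - 3 * half * P * u1 * u2i * B1)
    (hf1 : f1 = half * w1i * X)
    (R1 R2 R3 R4 R5 : E)
    (hR1 : R1 = s0 + y * f1 + (y ^ 2 - 2 * third * q) * f2)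
    (hR2 : R2 = a0 + 2 * q * qi * f1 + 3 * P * qi * f2)
    (hR3 : R3 = b0 + 3 * P * f1 + 2 * third * q ^ 2 * f2)
    (hR4 : R4 = P * (4 * third * q - 2 * rr) * f2 - a3)
    (hR5 : R5 = 4 * f1 - g) :
    Px x y * (h1 + R2) + Py x y * R1 - R3 = h2 ∧
      Zx x y * (h1 + R2) + Zy x y * R1 - R4 - R5 * Zf x y = h3 := by
  have e2 : P * g + 2 * third * x ^ 2 * u2 * f2 = b3 := by
    rw [hg, hf2, hB]
    linear_combination (x ^ 4 * B1 * (2 * half) * (u2 * u2i)) * T3 +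
      (x ^ 4 * B1 * (u2 * u2i)) * T2 + x ^ 4 * B1 * hu2
  have e3 : x ^ 2 * (g + 2 * ((1 - x ^ 2) * qi) * f1) + P * u1 * f2 = c3 := by
    rw [hf1, hf2, hG, hg, hw]
    rw [hw] at hX
    linear_combination (x ^ 2 * X * ((1 - x ^ 2) * qi * w1i)) * T2 + x ^ 2 * X * hw1 +
      P ^ 2 * G2 * hu1 + x ^ 2 * hX
  constructor
  · rw [hR2, hR1, hR3, ha0, hs0, hb0]
    simp only [Px, Py] at hd2 ⊢
    subst hP hqd
    linear_combination (b2 * y - 2 * (x * (1 + x + x ^ 2)) * y * f1 -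
      3 * (y ^ 3 - x * (1 + x + x ^ 2) * y) * y * f2) * hq +
      (y ^ 2 * c2 - 2 * (x * (1 + x + x ^ 2)) * y ^ 2 * f2) * T3 - hd2
  · rw [hR2, hR1, hR4, hR5]
    simp only [Zx, Zy, Zf] at hd3 ⊢
    subst hP hqd hrr hu1d hu2d
    linear_combination y * e2 + y ^ 2 * e3 - hd3 +
      (-2 * (x * (1 + x ^ 2)) * y ^ 2 * f1 -
        3 * (y ^ 3 - x * (1 + x + x ^ 2) * y) * y ^ 2 * f2) * hq -
      (4 * (x * (1 + x + x ^ 2)) * (y ^ 3 - x * (1 + x + x ^ 2) * y) +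
        y * (4 * (x * (1 + x + x ^ 2)) ^ 2 -
          2 * (x * (1 + x ^ 2)) * (x * (1 + x + x ^ 2)))) * f2 * T3


/-! ### linear maps with bounds -/

section maps

variable {E : Type} [NormedCommRing E] [NormedAlgebra ℂ E]

/-- the three components -/
noncomputable def p1 : E × E × E →ₗ[ℂ] E := LinearMap.fst ℂ E (E × E)
/-- the three components -/
noncomputable def p2 : E × E × E →ₗ[ℂ] E := (LinearMap.fst ℂ E E).comp (LinearMap.snd ℂ E (E × E))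
/-- the three components -/
noncomputable def p3 : E × E × E →ₗ[ℂ] E := (LinearMap.snd ℂ E E).comp (LinearMap.snd ℂ E (E × E))

/-- multiplication by a constant after a linear map -/
noncomputable def ml (c : E) (T : E × E × E →ₗ[ℂ] E) : E × E × E →ₗ[ℂ] E := (LinearMap.mulLeft ℂ c).comp T

theorem ml_apply (c : E) (T : E × E × E →ₗ[ℂ] E) (h : E × E × E) : ml c T h = c * T h := rfl

theorem p1_apply (h : E × E × E) : p1 h = h.1 := rfl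
theorem p2_apply (h : E × E × E) : p2 h = h.2.1 := rfl
theorem p3_apply (h : E × E × E) : p3 h = h.2.2 := rfl

/-- a bound for the norm -/
def Bd (M r : ℝ) (T : E × E × E →ₗ[ℂ] E) (j k : ℕ) : Prop := ∀ h, r ^ k * ‖T h‖ ≤ M ^ j * ‖h‖

variable {M r : ℝ} {T T' : E × E × E →ₗ[ℂ] E} {j k j' k' : ℕ} {c : E}

theorem Bd.mono (hM : 2 ≤ M) (h0 : 0 ≤ r) (h1 : r ≤ 1) (h : Bd M r T j k) (hj : j ≤ j')
    (hk : k ≤ k') : Bd M r T j' k' := by
  intro v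
  calc r ^ k' * ‖T v‖ ≤ r ^ k * ‖T v‖ :=
        mul_le_mul_of_nonneg_right (pow_le_pow_of_le_one h0 h1 hk) (norm_nonneg _)
    _ ≤ M ^ j * ‖v‖ := h v
    _ ≤ M ^ j' * ‖v‖ :=
        mul_le_mul_of_nonneg_right (pow_le_pow_right₀ (by linarith) hj) (norm_nonneg _)

theorem two_le (hM : 2 ≤ M) (v : E × E × E) : M ^ j * ‖v‖ + M ^ j * ‖v‖ ≤ M ^ (j + 1) * ‖v‖ := by
  have h1 : 0 ≤ M ^ j * ‖v‖ := by positivity
  calc M ^ j * ‖v‖ + M ^ j * ‖v‖ = 2 * (M ^ j * ‖v‖) := by ring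
    _ ≤ M * (M ^ j * ‖v‖) := mul_le_mul_of_nonneg_right hM h1
    _ = M ^ (j + 1) * ‖v‖ := by ring

theorem Bd.add (hM : 2 ≤ M) (h0 : 0 ≤ r) (h : Bd M r T j k) (h' : Bd M r T' j k) :
    Bd M r (T + T') (j + 1) k := by
  intro v
  calc r ^ k * ‖(T + T') v‖ ≤ r ^ k * (‖T v‖ + ‖T' v‖) :=
        mul_le_mul_of_nonneg_left (norm_add_le _ _) (by positivity)
    _ ≤ M ^ j * ‖v‖ + M ^ j * ‖v‖ := by
        rw [mul_add]
        exact add_le_add (h v) (h' v)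
    _ ≤ _ := two_le hM v

theorem Bd.sub (hM : 2 ≤ M) (h0 : 0 ≤ r) (h : Bd M r T j k) (h' : Bd M r T' j k) :
    Bd M r (T - T') (j + 1) k := by
  intro v
  calc r ^ k * ‖(T - T') v‖ ≤ r ^ k * (‖T v‖ + ‖T' v‖) :=
        mul_le_mul_of_nonneg_left (norm_sub_le _ _) (by positivity)
    _ ≤ M ^ j * ‖v‖ + M ^ j * ‖v‖ := by
        rw [mul_add]
        exact add_le_add (h v) (h' v)
    _ ≤ _ := two_le hM v

theorem Bd.neg (h : Bd M r T j k) : Bd M r (-T) j k := by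
  intro v
  rw [LinearMap.neg_apply, norm_neg]
  exact h v

theorem Bd.ml (hM : 2 ≤ M) (h0 : 0 ≤ r) (hc : ‖c‖ ≤ M) (h : Bd M r T j k) :
    Bd M r (ml c T) (j + 1) k := by
  intro v
  calc r ^ k * ‖c * T v‖ ≤ r ^ k * (M * ‖T v‖) :=
        mul_le_mul_of_nonneg_left ((norm_mul_le _ _).trans
          (mul_le_mul_of_nonneg_right hc (norm_nonneg _))) (by positivity)
    _ = M * (r ^ k * ‖T v‖) := by ring
    _ ≤ M * (M ^ j * ‖v‖) := mul_le_mul_of_nonneg_left (h v) (by linarith)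
    _ = M ^ (j + 1) * ‖v‖ := by ring

variable {K : ℝ} (m : Model K r E)

theorem Bd.al (h0 : 0 ≤ r) (h : Bd M r T j k) : Bd M r (m.al.comp T) j k := fun v =>
  (mul_le_mul_of_nonneg_left (m.nal (T v)).1 (by positivity)).trans (h v)

theorem Bd.be (h0 : 0 ≤ r) (h : Bd M r T j k) : Bd M r (m.be.comp T) j (k + 1) := fun v => by
  have h1 := mul_le_mul_of_nonneg_left (m.nal (T v)).2.1 (pow_nonneg h0 k)
  calc r ^ (k + 1) * ‖m.be (T v)‖ = r ^ k * (r * ‖m.be (T v)‖) := by ring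
    _ ≤ r ^ k * ‖T v‖ := h1
    _ ≤ _ := h v

theorem Bd.ga (h0 : 0 ≤ r) (h : Bd M r T j k) : Bd M r (m.ga.comp T) j (k + 2) := fun v => by
  have h1 := mul_le_mul_of_nonneg_left (m.nal (T v)).2.2 (pow_nonneg h0 k)
  calc r ^ (k + 2) * ‖m.ga (T v)‖ = r ^ k * (r ^ 2 * ‖m.ga (T v)‖) := by ring
    _ ≤ r ^ k * ‖T v‖ := h1
    _ ≤ _ := h v

theorem Bd.dd (hM : 2 ≤ M) (hK : K ≤ M) (h0 : 0 ≤ r) (D : E →ₗ[ℂ] E)
    (hD : ∀ f ∈ m.A, r ^ 8 * ‖D f‖ ≤ K * ‖f‖) (hT : ∀ v, T v ∈ m.A) (h : Bd M r T j k) :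
    Bd M r (D.comp T) (j + 1) (k + 8) := fun v => by
  have h1 := mul_le_mul_of_nonneg_left (hD (T v) (hT v)) (pow_nonneg h0 k)
  calc r ^ (k + 8) * ‖D (T v)‖ = r ^ k * (r ^ 8 * ‖D (T v)‖) := by ring
    _ ≤ r ^ k * (K * ‖T v‖) := h1
    _ = K * (r ^ k * ‖T v‖) := by ring
    _ ≤ M * (r ^ k * ‖T v‖) := mul_le_mul_of_nonneg_right hK (by positivity)
    _ ≤ M * (M ^ j * ‖v‖) := mul_le_mul_of_nonneg_left (h v) (by linarith)
    _ = M ^ (j + 1) * ‖v‖ := by ring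

/-- the weight of the image -/
def VV (T : E × E × E →ₗ[ℂ] E) (n : ℕ) : Prop :=
  ∀ h : E × E × E, h.1 ∈ m.V 12 → h.2.1 ∈ m.V 12 → h.2.2 ∈ m.V 12 → T h ∈ m.V n

variable {m} {n n' a : ℕ}

theorem VV.mono (h : VV m T n) (hn : n' ≤ n) : VV m T n' := fun v h1 h2 h3 =>
  m.anti n' n hn (h v h1 h2 h3)

theorem VV.add (h : VV m T n) (h' : VV m T' n) : VV m (T + T') n := fun v h1 h2 h3 =>
  (m.V n).add_mem (h v h1 h2 h3) (h' v h1 h2 h3)

theorem VV.sub (h : VV m T n) (h' : VV m T' n) : VV m (T - T') n := fun v h1 h2 h3 =>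
  (m.V n).sub_mem (h v h1 h2 h3) (h' v h1 h2 h3)

theorem VV.neg (h : VV m T n) : VV m (-T) n := fun v h1 h2 h3 =>
  (m.V n).neg_mem (h v h1 h2 h3)

theorem VV.ml (hc : c ∈ m.V a) (h : VV m T n) : VV m (ml c T) (a + n) := fun v h1 h2 h3 =>
  m.vmul a n _ _ hc (h v h1 h2 h3)

theorem mem0 (c : E) : c ∈ m.V 0 := by
  rw [m.top]
  trivial

theorem VV.ml0 (h : VV m T n) : VV m (RInv.ml c T) n := by
  have := VV.ml (mem0 c) h
  rwa [zero_add] at this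

theorem VV.al (h : VV m T n) : VV m (m.al.comp T) n := fun v h1 h2 h3 =>
  (m.val n _ (h v h1 h2 h3)).1

theorem VV.be (h : VV m T n) : VV m (m.be.comp T) (n - 1) := fun v h1 h2 h3 =>
  (m.val n _ (h v h1 h2 h3)).2.1

theorem VV.ga (h : VV m T n) : VV m (m.ga.comp T) (n - 2) := fun v h1 h2 h3 =>
  (m.val n _ (h v h1 h2 h3)).2.2

/-- multiples of an element of weight `a` -/
theorem memL {b : E} (hb : b ∈ m.V a) (c : E) : c * b ∈ m.V a := by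
  have := m.vmul 0 a _ _ (mem0 c) hb
  rwa [zero_add] at this

theorem memR {b : E} (hb : b ∈ m.V a) (c : E) : b * c ∈ m.V a := by
  rw [mul_comm]
  exact memL hb c

/-! norms of constants -/

theorem nmul {a b : E} {α β : ℝ} (ha : ‖a‖ ≤ α) (hb : ‖b‖ ≤ β) : ‖a * b‖ ≤ α * β :=
  (norm_mul_le a b).trans (mul_le_mul ha hb (norm_nonneg _) ((norm_nonneg _).trans ha))

theorem nadd {a b : E} {α β : ℝ} (ha : ‖a‖ ≤ α) (hb : ‖b‖ ≤ β) : ‖a + b‖ ≤ α + β :=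
  (norm_add_le a b).trans (add_le_add ha hb)

theorem nsub {a b : E} {α β : ℝ} (ha : ‖a‖ ≤ α) (hb : ‖b‖ ≤ β) : ‖a - b‖ ≤ α + β :=
  (norm_sub_le a b).trans (add_le_add ha hb)

theorem nneg {a : E} {α : ℝ} (ha : ‖a‖ ≤ α) : ‖-a‖ ≤ α := by rwa [norm_neg]

theorem nsq {a : E} {α : ℝ} (ha : ‖a‖ ≤ α) : ‖a ^ 2‖ ≤ α * α := by
  rw [sq]
  exact nmul ha ha

theorem nalg (h1 : ‖(1 : E)‖ ≤ 1) (z : ℂ) {α : ℝ} (hz : ‖z‖ ≤ α) : ‖algebraMap ℂ E z‖ ≤ α := by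
  rw [norm_algebraMap]
  calc ‖z‖ * ‖(1 : E)‖ ≤ ‖z‖ * 1 := mul_le_mul_of_nonneg_left h1 (norm_nonneg _)
    _ ≤ α := by rwa [mul_one]

end maps


theorem core {K r : ℝ} (hK : 0 < K) (hr : 0 < r) (hr1 : r ≤ 1 / 10) {E : Type} [NormedCommRing E]
    [NormedAlgebra ℂ E] (m : Model K r E) :
    ∃ R : (E × E × E) →ₗ[ℂ] (Fin 6 → E),
      (∀ h i, r ^ 20 * ‖R h i‖ ≤ (1000 + K) ^ 16 * ‖h‖) ∧
      ∀ h : E × E × E, h.1 ∈ m.V 12 → h.2.1 ∈ m.V 12 → h.2.2 ∈ m.V 12 →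
        (∀ i, R h i ∈ m.V 6) ∧ (∀ i : Fin 6, 2 ≤ i.val → R h i ∈ m.A) ∧
        R h 0 - R h 2 = h.1 ∧
        Px m.x m.y * R h 0 + Py m.x m.y * R h 1 - R h 3 = h.2.1 ∧
        Zx m.x m.y * R h 0 + Zy m.x m.y * R h 1 - R h 4 - R h 5 * Zf m.x m.y = h.2.2 := by
  have hr0 : 0 ≤ r := hr.le
  have hr11 : r ≤ 1 := by linarith
  have hr2 : r ^ 2 ≤ 1 / 100 := by nlinarith
  set M : ℝ := 1000 + K with hMdef
  have hM : 2 ≤ M := by rw [hMdef]; linarith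
  have hKM : K ≤ M := by rw [hMdef]; linarith
  have hcM : ∀ {α : ℝ}, α ≤ 1000 → α ≤ M := fun h => by rw [hMdef]; linarith
  -- norms
  have n1 := m.n1
  have nx : ‖m.x‖ ≤ r ^ 2 := m.nx
  have nx1 : ‖m.x‖ ≤ 1 := nx.trans (by linarith)
  have ny : ‖m.y‖ ≤ 1 := m.ny.trans hr11
  have n2 : ‖(2 : E)‖ ≤ 2 := by
    have : (2 : E) = algebraMap ℂ E 2 := (map_ofNat (algebraMap ℂ E) 2).symm
    rw [this]
    exact nalg n1 _ (by simp)
  have n3 : ‖(3 : E)‖ ≤ 3 := by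
    have : (3 : E) = algebraMap ℂ E 3 := (map_ofNat (algebraMap ℂ E) 3).symm
    rw [this]
    exact nalg n1 _ (by simp)
  have n4 : ‖(4 : E)‖ ≤ 4 := by
    have : (4 : E) = algebraMap ℂ E 4 := (map_ofNat (algebraMap ℂ E) 4).symm
    rw [this]
    exact nalg n1 _ (by simp)
  have n6 : ‖(6 : E)‖ ≤ 6 := by
    have : (6 : E) = algebraMap ℂ E 6 := (map_ofNat (algebraMap ℂ E) 6).symm
    rw [this]
    exact nalg n1 _ (by simp)
  -- scalars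
  obtain ⟨third, hthird⟩ : ∃ t : E, t = algebraMap ℂ E (1 / 3) := ⟨_, rfl⟩
  obtain ⟨half, hhalf⟩ : ∃ t : E, t = algebraMap ℂ E (1 / 2) := ⟨_, rfl⟩
  have T3 : 3 * third = 1 := by
    have h3 : (3 : E) = algebraMap ℂ E 3 := (map_ofNat (algebraMap ℂ E) 3).symm
    rw [hthird, h3, ← map_mul]
    norm_num
  have T2 : 2 * half = 1 := by
    have h3 : (2 : E) = algebraMap ℂ E 2 := (map_ofNat (algebraMap ℂ E) 2).symm
    rw [hhalf, h3, ← map_mul]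
    norm_num
  have nthird : ‖third‖ ≤ 1 := by
    rw [hthird]
    exact nalg n1 _ (by norm_num)
  have nhalf : ‖half‖ ≤ 1 := by
    rw [hhalf]
    exact nalg n1 _ (by norm_num)
  have Athird : third ∈ m.A := by rw [hthird]; exact m.A.algebraMap_mem _
  have Ahalf : half ∈ m.A := by rw [hhalf]; exact m.A.algebraMap_mem _
  have Ax := m.hx
  have AP := m.hPA
  have A1 : (1 : E) ∈ m.A := m.A.one_mem
  have A2 : (2 : E) ∈ m.A := ofNat_mem m.A 2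
  have A3 : (3 : E) ∈ m.A := ofNat_mem m.A 3
  have A4 : (4 : E) ∈ m.A := ofNat_mem m.A 4
  have A6 : (6 : E) ∈ m.A := ofNat_mem m.A 6
  have mulA : ∀ {a b : E}, a ∈ m.A → b ∈ m.A → a * b ∈ m.A := fun ha hb => m.A.mul_mem ha hb
  have addA : ∀ {a b : E}, a ∈ m.A → b ∈ m.A → a + b ∈ m.A := fun ha hb => m.A.add_mem ha hb
  have subA : ∀ {a b : E}, a ∈ m.A → b ∈ m.A → a - b ∈ m.A := fun ha hb => m.A.sub_mem ha hb
  have negA : ∀ {a : E}, a ∈ m.A → -a ∈ m.A := fun ha => m.A.neg_mem ha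
  have powA : ∀ {a : E} (k : ℕ), a ∈ m.A → a ^ k ∈ m.A := fun k ha => m.A.pow_mem ha k
  -- the inverse of `q'`
  have hq'A : 1 + 2 * m.x + 3 * m.x ^ 2 ∈ m.A :=
    addA (addA A1 (mulA A2 Ax)) (mulA A3 (powA 2 Ax))
  obtain ⟨qi, Aqi, hq, nqi⟩ := m.inv _ hq'A (by
    have h1 : (1 : E) - (1 + 2 * m.x + 3 * m.x ^ 2) = -((2 + 3 * m.x) * m.x) := by ring
    rw [h1]
    refine (nneg (nmul (nadd n2 (nmul n3 nx1)) nx)).trans ?_
    nlinarith)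
  -- `u1`
  have hu1A : 1 + 6 * m.x * qi ∈ m.A := addA A1 (mulA (mulA A6 Ax) Aqi)
  obtain ⟨u1i, Au1i, hu1, nu1i⟩ := m.inv _ hu1A (by
    have h1 : (1 : E) - (1 + 6 * m.x * qi) = -(6 * m.x * qi) := by ring
    rw [h1]
    refine (nneg (nmul (nmul n6 nx) nqi)).trans ?_
    nlinarith)
  -- `u2`
  have hu2A : (1 + m.x + m.x ^ 2) * (1 + m.x) ^ 2 ∈ m.A :=
    mulA (addA (addA A1 Ax) (powA 2 Ax)) (powA 2 (addA A1 Ax))
  obtain ⟨u2i, Au2i, hu2, nu2i⟩ := m.inv _ hu2A (by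
    have h1 : (1 : E) - (1 + m.x + m.x ^ 2) * (1 + m.x) ^ 2 =
        -((3 + 4 * m.x + (3 + m.x) * m.x ^ 2) * m.x) := by ring
    rw [h1]
    refine (nneg (nmul (nadd (nadd n3 (nmul n4 nx1)) (nmul (nadd n3 nx1) (nsq nx1))) nx)).trans ?_
    nlinarith)
  -- `v1 / 2`
  have hw1A : (1 - m.x ^ 2) * qi ∈ m.A := mulA (subA A1 (powA 2 Ax)) Aqi
  obtain ⟨w1i, Aw1i, hw1, nw1i⟩ := m.inv _ hw1A (by
    have h1 : (1 : E) - (1 - m.x ^ 2) * qi = (2 + 4 * m.x) * m.x * qi := by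
      linear_combination - hq
    rw [h1]
    refine (nmul (nmul (nadd n2 (nmul n4 nx1)) nx) nqi).trans ?_
    nlinarith)
  obtain ⟨q, hqd⟩ : ∃ q : E, q = m.x * (1 + m.x + m.x ^ 2) := ⟨_, rfl⟩
  obtain ⟨rr, hrr⟩ : ∃ q : E, q = m.x * (1 + m.x ^ 2) := ⟨_, rfl⟩
  obtain ⟨u1, hu1d⟩ : ∃ q : E, q = 1 + 6 * m.x * qi := ⟨_, rfl⟩
  obtain ⟨u2, hu2d⟩ : ∃ q : E, q = (1 + m.x + m.x ^ 2) * (1 + m.x) ^ 2 := ⟨_, rfl⟩
  rw [← hu1d] at hu1
  rw [← hu2d] at hu2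
  have Aq : q ∈ m.A := by rw [hqd]; exact mulA Ax (addA (addA A1 Ax) (powA 2 Ax))
  have Arr : rr ∈ m.A := by rw [hrr]; exact mulA Ax (addA A1 (powA 2 Ax))
  have Au1 : u1 ∈ m.A := by rw [hu1d]; exact hu1A
  have Au2 : u2 ∈ m.A := by rw [hu2d]; exact hu2A
  have nq : ‖q‖ ≤ 3 := by
    rw [hqd]
    refine (nmul nx1 (nadd (nadd n1 nx1) (nsq nx1))).trans (by norm_num)
  have nrr : ‖rr‖ ≤ 2 := by
    rw [hrr]
    refine (nmul nx1 (nadd n1 (nsq nx1))).trans (by norm_num)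
  have nu1 : ‖u1‖ ≤ 13 := by
    rw [hu1d]
    refine (nadd n1 (nmul (nmul n6 nx1) nqi)).trans (by norm_num)
  have nu2 : ‖u2‖ ≤ 12 := by
    rw [hu2d]
    refine (nmul (nadd (nadd n1 nx1) (nsq nx1)) (nsq (nadd n1 nx1))).trans (by norm_num)
  have nP : ‖m.P‖ ≤ 4 := by
    have h1 : m.P = m.y ^ 2 * m.y - m.x * (1 + m.x + m.x ^ 2) * m.y := by rw [m.hP]; ring
    rw [h1]
    refine (nsub (nmul (nsq ny) ny)
      (nmul (nmul nx1 (nadd (nadd n1 nx1) (nsq nx1))) ny)).trans (by norm_num)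
  -- the maps
  let H2 : E × E × E →ₗ[ℂ] E := p2 - ml (Px m.x m.y) p1
  let a2 : E × E × E →ₗ[ℂ] E := m.al.comp H2
  let b2 : E × E × E →ₗ[ℂ] E := m.be.comp H2
  let c2 : E × E × E →ₗ[ℂ] E := m.ga.comp H2
  let a0 : E × E × E →ₗ[ℂ] E := -(ml qi b2)
  let s0 : E × E × E →ₗ[ℂ] E := ml third c2
  let b0 : E × E × E →ₗ[ℂ] E := -(a2 + ml (third * q) c2)
  let H3 : E × E × E →ₗ[ℂ] E := p3 - ml (Zx m.x m.y) p1 - ml (Zx m.x m.y) a0 - ml (Zy m.x m.y) s0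
  let a3 : E × E × E →ₗ[ℂ] E := m.al.comp H3
  let b3 : E × E × E →ₗ[ℂ] E := m.be.comp H3
  let c3 : E × E × E →ₗ[ℂ] E := m.ga.comp H3
  let B1 : E × E × E →ₗ[ℂ] E := m.d1.comp b3
  let B2 : E × E × E →ₗ[ℂ] E := m.d2.comp b3
  let G1 : E × E × E →ₗ[ℂ] E := m.e1.comp c3
  let G2 : E × E × E →ₗ[ℂ] E := m.e2.comp c3
  let w : E × E × E →ₗ[ℂ] E := ml u1i G2
  let f2 : E × E × E →ₗ[ℂ] E := ml (3 * half * m.x ^ 2 * u2i) B1 + ml m.P w
  let g : E × E × E →ₗ[ℂ] E := B2 - ml (2 * third * m.x ^ 2 * u2) w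
  let X : E × E × E →ₗ[ℂ] E := G1 - B2 + ml (2 * third * m.x ^ 2 * u2) w -
    ml (3 * half * m.P * u1 * u2i) B1
  let f1 : E × E × E →ₗ[ℂ] E := ml (half * w1i) X
  let R1 : E × E × E →ₗ[ℂ] E := s0 + ml m.y f1 + ml (m.y ^ 2 - 2 * third * q) f2
  let R2 : E × E × E →ₗ[ℂ] E := a0 + ml (2 * q * qi) f1 + ml (3 * m.P * qi) f2
  let R3 : E × E × E →ₗ[ℂ] E := b0 + ml (3 * m.P) f1 + ml (2 * third * q ^ 2) f2
  let R4 : E × E × E →ₗ[ℂ] E := ml (m.P * (4 * third * q - 2 * rr)) f2 - a3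
  let R5 : E × E × E →ₗ[ℂ] E := ml 4 f1 - g
  let R0 : E × E × E →ₗ[ℂ] E := p1 + R2
  -- norms of the coefficients
  have nPx : ‖Px m.x m.y‖ ≤ M := by
    apply hcM
    unfold Px
    refine (nmul (nneg (nadd (nadd n1 (nmul n2 nx1)) (nmul n3 (nsq nx1)))) ny).trans (by norm_num)
  have nZx : ‖Zx m.x m.y‖ ≤ M := by
    apply hcM
    unfold Zx
    refine (nmul (nneg (nadd n1 (nmul n3 (nsq nx1)))) (nsq ny)).trans (by norm_num)
  have nZy : ‖Zy m.x m.y‖ ≤ M := by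
    apply hcM
    have h1 : Zy m.x m.y = 4 * (m.y ^ 2 * m.y) - 2 * (m.x * (1 + m.x ^ 2)) * m.y := by
      unfold Zy
      ring
    rw [h1]
    refine (nsub (nmul n4 (nmul (nsq ny) ny))
      (nmul (nmul n2 (nmul nx1 (nadd n1 (nsq nx1)))) ny)).trans (by norm_num)
  -- bounds
  have bp1 : Bd M r (p1 (E := E)) 0 0 := fun v => by
    rw [pow_zero, pow_zero, one_mul, one_mul]
    exact norm_fst_le v
  have bp2 : Bd M r (p2 (E := E)) 0 0 := fun v => by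
    rw [pow_zero, pow_zero, one_mul, one_mul]
    exact (norm_fst_le v.2).trans (norm_snd_le v)
  have bp3 : Bd M r (p3 (E := E)) 0 0 := fun v => by
    rw [pow_zero, pow_zero, one_mul, one_mul]
    exact (norm_snd_le v.2).trans (norm_snd_le v)
  have up : ∀ {T : E × E × E →ₗ[ℂ] E} {j k j' k' : ℕ}, Bd M r T j k → j ≤ j' → k ≤ k' →
      Bd M r T j' k' := fun h hj hk => h.mono hM hr0 hr11 hj hk
  have bH2 : Bd M r H2 2 0 := (up bp2 (by norm_num) le_rfl).sub hM hr0 (bp1.ml hM hr0 nPx)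
  have ba2 : Bd M r a2 2 0 := bH2.al m hr0
  have bb2 : Bd M r b2 2 1 := bH2.be m hr0
  have bc2 : Bd M r c2 2 2 := bH2.ga m hr0
  have ba0 : Bd M r a0 3 2 := up (bb2.ml hM hr0 (hcM (nqi.trans (by norm_num)))).neg le_rfl
    (by norm_num)
  have bs0 : Bd M r s0 3 2 := bc2.ml hM hr0 (hcM (nthird.trans (by norm_num)))
  have bb0 : Bd M r b0 4 2 := ((up ba2 (by norm_num) (by norm_num)).add hM hr0
    (bc2.ml hM hr0 (hcM ((nmul nthird nq).trans (by norm_num))))).neg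
  have bH3 : Bd M r H3 6 2 := by
    refine Bd.sub hM hr0 (Bd.sub hM hr0 (up (Bd.sub hM hr0 (up bp3 (by norm_num) le_rfl)
      (bp1.ml hM hr0 nZx)) (by norm_num : 2 ≤ 4) (by norm_num : 0 ≤ 2)) (ba0.ml hM hr0 nZx))
      (up (bs0.ml hM hr0 nZy) (by norm_num) le_rfl)
  have ba3 : Bd M r a3 6 2 := bH3.al m hr0
  have bb3 : Bd M r b3 6 3 := bH3.be m hr0
  have bc3 : Bd M r c3 6 4 := bH3.ga m hr0
  have Aa2 : ∀ v, a2 v ∈ m.A := fun v => (m.memA _).1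
  have Ab2 : ∀ v, b2 v ∈ m.A := fun v => (m.memA _).2.1
  have Ac2 : ∀ v, c2 v ∈ m.A := fun v => (m.memA _).2.2
  have Aa3 : ∀ v, a3 v ∈ m.A := fun v => (m.memA _).1
  have Ab3 : ∀ v, b3 v ∈ m.A := fun v => (m.memA _).2.1
  have Ac3 : ∀ v, c3 v ∈ m.A := fun v => (m.memA _).2.2
  have AB1 : ∀ v, B1 v ∈ m.A := fun v => (m.dmem _ (Ab3 v)).1
  have AB2 : ∀ v, B2 v ∈ m.A := fun v => (m.dmem _ (Ab3 v)).2.1
  have AG1 : ∀ v, G1 v ∈ m.A := fun v => (m.dmem _ (Ac3 v)).2.2.1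
  have AG2 : ∀ v, G2 v ∈ m.A := fun v => (m.dmem _ (Ac3 v)).2.2.2
  have bB1 : Bd M r B1 7 11 := bb3.dd m hM hKM hr0 m.d1 (fun f hf => (m.nd f hf).1) Ab3
  have bB2 : Bd M r B2 7 11 := bb3.dd m hM hKM hr0 m.d2 (fun f hf => (m.nd f hf).2.1) Ab3
  have bG1 : Bd M r G1 7 12 := bc3.dd m hM hKM hr0 m.e1 (fun f hf => (m.nd f hf).2.2.1) Ac3
  have bG2 : Bd M r G2 7 12 := bc3.dd m hM hKM hr0 m.e2 (fun f hf => (m.nd f hf).2.2.2) Ac3
  have bw : Bd M r w 8 12 := bG2.ml hM hr0 (hcM (nu1i.trans (by norm_num)))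
  have n2t : ‖2 * third * m.x ^ 2 * u2‖ ≤ M :=
    hcM ((nmul (nmul (nmul n2 nthird) (nsq nx1)) nu2).trans (by norm_num))
  have bf2 : Bd M r f2 10 12 := by
    refine Bd.add hM hr0 (up (bB1.ml hM hr0 (hcM ((nmul (nmul (nmul n3 nhalf) (nsq nx1))
      nu2i).trans (by norm_num)))) (by norm_num) (by norm_num))
      (bw.ml hM hr0 (hcM (nP.trans (by norm_num))))
  have bg : Bd M r g 10 12 := Bd.sub hM hr0 (up bB2 (by norm_num) (by norm_num))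
    (bw.ml hM hr0 n2t)
  have bX : Bd M r X 11 12 := by
    refine Bd.sub hM hr0 (Bd.add hM hr0 (up (Bd.sub hM hr0 bG1 (up bB2 le_rfl (by norm_num)))
      (by norm_num : 8 ≤ 9) le_rfl) (bw.ml hM hr0 n2t)) (up (bB1.ml hM hr0 (hcM ?_))
      (by norm_num) (by norm_num))
    exact (nmul (nmul (nmul (nmul n3 nhalf) nP) nu1) nu2i).trans (by norm_num)
  have bf1 : Bd M r f1 12 12 := bX.ml hM hr0 (hcM ((nmul nhalf nw1i).trans (by norm_num)))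
  have bR1 : Bd M r R1 15 12 := by
    refine Bd.add hM hr0 (Bd.add hM hr0 (up bs0 (by norm_num) (by norm_num))
      (bf1.ml hM hr0 (hcM (ny.trans (by norm_num))))) (up (bf2.ml hM hr0 (hcM ?_))
      (by norm_num) le_rfl)
    exact (nsub (nsq ny) (nmul (nmul n2 nthird) nq)).trans (by norm_num)
  have bR2 : Bd M r R2 15 12 := by
    refine Bd.add hM hr0 (Bd.add hM hr0 (up ba0 (by norm_num) (by norm_num))
      (bf1.ml hM hr0 (hcM ?_))) (up (bf2.ml hM hr0 (hcM ?_)) (by norm_num) le_rfl)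
    · exact (nmul (nmul n2 nq) nqi).trans (by norm_num)
    · exact (nmul (nmul n3 nP) nqi).trans (by norm_num)
  have bR3 : Bd M r R3 15 12 := by
    refine Bd.add hM hr0 (Bd.add hM hr0 (up bb0 (by norm_num) (by norm_num))
      (bf1.ml hM hr0 (hcM ?_))) (up (bf2.ml hM hr0 (hcM ?_)) (by norm_num) le_rfl)
    · exact (nmul n3 nP).trans (by norm_num)
    · exact (nmul (nmul n2 nthird) (nsq nq)).trans (by norm_num)
  have bR4 : Bd M r R4 12 12 := by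
    refine Bd.sub hM hr0 (bf2.ml hM hr0 (hcM ?_)) (up ba3 (by norm_num) (by norm_num))
    exact (nmul nP (nsub (nmul (nmul n4 nthird) nq) (nmul n2 nrr))).trans (by norm_num)
  have bR5 : Bd M r R5 14 12 :=
    Bd.sub hM hr0 (bf1.ml hM hr0 (hcM (n4.trans (by norm_num)))) (up bg (by norm_num) le_rfl)
  have bR0 : Bd M r R0 16 12 := Bd.add hM hr0 (up bp1 (by norm_num) (by norm_num)) bR2
  -- weights
  have vp1 : VV m (p1 (E := E)) 12 := fun v h1 _ _ => h1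
  have vp2 : VV m (p2 (E := E)) 12 := fun v _ h2 _ => h2
  have vp3 : VV m (p3 (E := E)) 12 := fun v _ _ h3 => h3
  have vyy : m.y ^ 2 ∈ m.V 2 := by
    rw [sq]
    exact m.vmul 1 1 _ _ m.vy m.vy
  have vxx : m.x ^ 2 ∈ m.V 4 := by
    rw [sq]
    exact m.vmul 2 2 _ _ m.vx m.vx
  have vZx : Zx m.x m.y ∈ m.V 2 := by
    unfold Zx
    exact memL vyy _
  have vZy : Zy m.x m.y ∈ m.V 2 := by
    have h1 : Zy m.x m.y = (4 * m.y) * m.y ^ 2 - (2 * (1 + m.x ^ 2) * m.y) * m.x := by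
      unfold Zy
      ring
    rw [h1]
    exact (m.V 2).sub_mem (memL vyy _) (memL m.vx _)
  have vH2 : VV m H2 12 := vp2.sub vp1.ml0
  have va2 : VV m a2 12 := vH2.al
  have vb2 : VV m b2 11 := vH2.be
  have vc2 : VV m c2 10 := vH2.ga
  have va0 : VV m a0 11 := vb2.ml0.neg
  have vs0 : VV m s0 10 := vc2.ml0
  have vb0 : VV m b0 10 := ((va2.mono (by norm_num)).add vc2.ml0).neg
  have vH3 : VV m H3 12 :=
    ((vp3.sub vp1.ml0).sub ((VV.ml vZx va0).mono (by norm_num))).sub (VV.ml vZy vs0)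
  have va3 : VV m a3 12 := vH3.al
  have vb3 : VV m b3 11 := vH3.be
  have vc3 : VV m c3 10 := vH3.ga
  have vB1 : VV m B1 3 := fun v h1 h2 h3 => (m.vd 11 _ (Ab3 v) (vb3 v h1 h2 h3)).1
  have vB2 : VV m B2 8 := fun v h1 h2 h3 => (m.vd 11 _ (Ab3 v) (vb3 v h1 h2 h3)).2.1
  have vG1 : VV m G1 6 := fun v h1 h2 h3 => (m.vd 10 _ (Ac3 v) (vc3 v h1 h2 h3)).2.2.1
  have vG2 : VV m G2 4 := fun v h1 h2 h3 => (m.vd 10 _ (Ac3 v) (vc3 v h1 h2 h3)).2.2.2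
  have vw : VV m w 4 := vG2.ml0
  have v2t : 2 * third * m.x ^ 2 * u2 ∈ m.V 4 := memR (memL vxx _) _
  have vf2 : VV m f2 6 := ((VV.ml (memR (memL vxx _) _) vB1).mono (by norm_num)).add
    ((VV.ml m.vP vw).mono (by norm_num))
  have vg : VV m g 6 := (vB2.mono (by norm_num)).sub ((VV.ml v2t vw).mono (by norm_num))
  have vX : VV m X 6 := by
    refine ((vG1.sub (vB2.mono (by norm_num))).add ((VV.ml v2t vw).mono (by norm_num))).sub ?_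
    exact VV.ml (memR (memR (memL m.vP _) _) _) vB1
  have vf1 : VV m f1 6 := vX.ml0
  have vR1 : VV m R1 6 := ((vs0.mono (by norm_num)).add vf1.ml0).add vf2.ml0
  have vR2 : VV m R2 6 := ((va0.mono (by norm_num)).add vf1.ml0).add vf2.ml0
  have vR3 : VV m R3 6 := ((vb0.mono (by norm_num)).add vf1.ml0).add vf2.ml0
  have vR4 : VV m R4 6 := vf2.ml0.sub (va3.mono (by norm_num))
  have vR5 : VV m R5 6 := vf1.ml0.sub vg
  have vR0 : VV m R0 6 := (vp1.mono (by norm_num)).add vR2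
  -- membership in `A`
  have Aa0 : ∀ v, a0 v ∈ m.A := fun v => negA (mulA Aqi (Ab2 v))
  have Ab0 : ∀ v, b0 v ∈ m.A := fun v => negA (addA (Aa2 v) (mulA (mulA Athird Aq) (Ac2 v)))
  have Aw : ∀ v, w v ∈ m.A := fun v => mulA Au1i (AG2 v)
  have A2t : 2 * third * m.x ^ 2 * u2 ∈ m.A := mulA (mulA (mulA A2 Athird) (powA 2 Ax)) Au2
  have Af2 : ∀ v, f2 v ∈ m.A := fun v =>
    addA (mulA (mulA (mulA (mulA A3 Ahalf) (powA 2 Ax)) Au2i) (AB1 v)) (mulA AP (Aw v))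
  have Ag : ∀ v, g v ∈ m.A := fun v => subA (AB2 v) (mulA A2t (Aw v))
  have AX : ∀ v, X v ∈ m.A := fun v => subA (addA (subA (AG1 v) (AB2 v)) (mulA A2t (Aw v)))
    (mulA (mulA (mulA (mulA (mulA A3 Ahalf) AP) Au1) Au2i) (AB1 v))
  have Af1 : ∀ v, f1 v ∈ m.A := fun v => mulA (mulA Ahalf Aw1i) (AX v)
  have AR2 : ∀ v, R2 v ∈ m.A := fun v => addA (addA (Aa0 v) (mulA (mulA (mulA A2 Aq) Aqi) (Af1 v)))
    (mulA (mulA (mulA A3 AP) Aqi) (Af2 v))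
  have AR3 : ∀ v, R3 v ∈ m.A := fun v => addA (addA (Ab0 v) (mulA (mulA A3 AP) (Af1 v)))
    (mulA (mulA (mulA A2 Athird) (powA 2 Aq)) (Af2 v))
  have AR4 : ∀ v, R4 v ∈ m.A := fun v => subA (mulA (mulA AP (subA (mulA (mulA A4 Athird) Aq)
    (mulA A2 Arr))) (Af2 v)) (Aa3 v)
  have AR5 : ∀ v, R5 v ∈ m.A := fun v => subA (mulA A4 (Af1 v)) (Ag v)
  refine ⟨LinearMap.pi ![R0, R1, R2, R3, R4, R5], ?_, ?_⟩
  · intro h i
    have : ∀ {T : E × E × E →ₗ[ℂ] E} {j k : ℕ}, Bd M r T j k → j ≤ 16 → k ≤ 20 →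
      r ^ 20 * ‖T h‖ ≤ M ^ 16 * ‖h‖ := fun hb hj hk => up hb hj hk h
    fin_cases i
    · exact this bR0 (by norm_num) (by norm_num)
    · exact this bR1 (by norm_num) (by norm_num)
    · exact this bR2 (by norm_num) (by norm_num)
    · exact this bR3 (by norm_num) (by norm_num)
    · exact this bR4 (by norm_num) (by norm_num)
    · exact this bR5 (by norm_num) (by norm_num)
  · intro h h1 h2 h3
    refine ⟨?_, ?_, ?_, ?_⟩
    · intro i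
      fin_cases i
      · exact vR0 h h1 h2 h3
      · exact vR1 h h1 h2 h3
      · exact vR2 h h1 h2 h3
      · exact vR3 h h1 h2 h3
      · exact vR4 h h1 h2 h3
      · exact vR5 h h1 h2 h3
    · intro i hi
      fin_cases i
      · exact absurd hi (by norm_num)
      · exact absurd hi (by norm_num)
      · exact AR2 h
      · exact AR3 h
      · exact AR4 h
      · exact AR5 h
    · show (h.1 + R2 h) - R2 h = h.1
      ring
    · show Px m.x m.y * (h.1 + R2 h) + Py m.x m.y * R1 h - R3 h = h.2.1 ∧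
        Zx m.x m.y * (h.1 + R2 h) + Zy m.x m.y * R1 h - R4 h - R5 h * Zf m.x m.y = h.2.2
      have hd2 := m.decomp (H2 h)
      have hd3 := m.decomp (H3 h)
      have hB := m.dd (b3 h) (Ab3 h) (m.anti 7 11 (by norm_num) (vb3 h h1 h2 h3))
      have hG := m.ee (c3 h) (Ac3 h) (m.anti 6 10 (by norm_num) (vc3 h h1 h2 h3))
      exact eqs m.x m.y m.P qi u1 u1i u2 u2i w1i third half h.1 h.2.1 h.2.2 (a2 h) (b2 h) (c2 h)
        (a3 h) (b3 h) (c3 h) (B1 h) (B2 h) (G1 h) (G2 h) q rr hqd hrr m.hP hq T3 T2 hu1d hu1 hu2d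
        hu2 hw1 hd2 (a0 h) (s0 h) (b0 h) rfl rfl rfl hd3 hB hG (w h) (f2 h) (g h) (X h) (f1 h)
        rfl rfl rfl rfl rfl (R1 h) (R2 h) (R3 h) (R4 h) (R5 h) rfl rfl rfl rfl rfl

end RInv

/-- FD-RINV -/
theorem rinv : S_RINV := by
  intro K hK
  refine ⟨(1000 + K) ^ 16, 1 / 10, by positivity, by norm_num, ?_⟩
  intro r hr hr1 E _ _ m
  exact RInv.core hK hr hr1 m

end Pool.Agent.R743.PB
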