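import Pool.Agent.R743.PB.Stm2

/-!
# FD-W: weights and division in the algebra of power series
-/

set_option autoImplicit false

open Filter Topology Set

namespace Pool.Agent.R743.PB

namespace FWX

variable {A : Type} [NormedCommRing A] [NormedAlgebra ℂ A] (m : MA A)

theorem norm_c (i j : ℕ) (f : A) : ‖m.c i j f‖ ≤ ‖f‖ := by
  rw [m.norm_eq f]
  exact (m.summ f).le_tsum (i, j) (fun _ _ => norm_nonneg _)

include m in
theorem norm_one' : ‖(1 : A)‖ ≤ 1 := by
  rw [m.norm_eq 1, tsum_eq_single ((0, 0) : ℕ × ℕ)]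
  · rw [m.c_one]; simp
  · intro t ht
    rw [m.c_one, if_neg, norm_zero]
    rintro ⟨h1, h2⟩
    exact ht (Prod.ext h1 h2)

theorem norm_X : ‖m.X‖ ≤ 1 := by
  rw [m.norm_eq m.X, tsum_eq_single ((1, 0) : ℕ × ℕ)]
  · rw [m.c_X]; simp
  · intro t ht
    rw [m.c_X, if_neg, norm_zero]
    rintro ⟨h1, h2⟩
    exact ht (Prod.ext h1 h2)

theorem norm_Y : ‖m.Y‖ ≤ 1 := by
  rw [m.norm_eq m.Y, tsum_eq_single ((0, 1) : ℕ × ℕ)]
  · rw [m.c_Y]; simp
  · intro t ht
    rw [m.c_Y, if_neg, norm_zero]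
    rintro ⟨h1, h2⟩
    exact ht (Prod.ext h1 h2)

theorem cont_c (i j : ℕ) : Continuous (m.c i j) := by
  have h := (LinearMap.mkContinuous
    ({ toFun := m.c i j
       map_add' := m.c_add i j
       map_smul' := fun z f => by rw [m.c_smul]; rfl } : A →ₗ[ℂ] ℂ) 1
    (fun f => by rw [one_mul]; exact norm_c m i j f)).continuous
  exact h

theorem closed_W (n : ℕ) : IsClosed (m.W n : Set A) := by
  have h : (m.W n : Set A) = ⋂ i : ℕ, ⋂ j : ℕ, ⋂ _ : 2 * i + 3 * j < n, {f : A | m.c i j f = 0} := by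
    ext f
    simp only [Set.mem_iInter]
    rfl
  rw [h]
  exact isClosed_iInter fun i => isClosed_iInter fun j => isClosed_iInter fun _ =>
    isClosed_eq (cont_c m i j) continuous_const

theorem mem_W (n : ℕ) (f : A) : f ∈ m.W n ↔ ∀ i j : ℕ, 2 * i + 3 * j < n → m.c i j f = 0 :=
  Iff.rfl

theorem mul_W (k n : ℕ) (f g : A) (hf : f ∈ m.W k) (hg : g ∈ m.W n) : f * g ∈ m.W (k + n) := by
  rw [mem_W] at *
  intro i j hij
  rw [m.c_mul]
  refine Finset.sum_eq_zero fun s hs => Finset.sum_eq_zero fun t ht => ?_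
  rw [Finset.HasAntidiagonal.mem_antidiagonal] at hs ht
  by_cases h : 2 * s.1 + 3 * t.1 < k
  · rw [hf _ _ h, zero_mul]
  · rw [hg s.2 t.2 (by omega), mul_zero]

theorem hinj' (a b : ℕ) : Function.Injective (fun t : ℕ × ℕ => ((t.1 + a, t.2 + b) : ℕ × ℕ)) := by
    intro s t h
    have h1 : s.1 + a = t.1 + a := congrArg Prod.fst h
    have h2 : s.2 + b = t.2 + b := congrArg Prod.snd h
    exact Prod.ext (by omega) (by omega)

theorem sumshift (a b : ℕ) (f : A) : Summable fun t : ℕ × ℕ => ‖m.c (t.1 + a) (t.2 + b) f‖ := by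
  have h := (m.summ f).comp_injective (hinj' a b)
  rw [Function.comp_def] at h
  exact h

theorem tsumshift (a b : ℕ) (f : A) : ∑' t : ℕ × ℕ, ‖m.c (t.1 + a) (t.2 + b) f‖ ≤ ‖f‖ := by
  rw [m.norm_eq f]
  have h := tsum_comp_le_tsum_of_inj (m.summ f) (fun _ => norm_nonneg _) (hinj' a b)
  rw [Function.comp_def] at h
  exact h

theorem exists_shift0 (P : ℕ → ℕ → Prop) [∀ i j, Decidable (P i j)] (a b : ℕ) (f : A) :
    ∃ g : A, (∀ i j, m.c i j g = if P i j then m.c (i + a) (j + b) f else 0) ∧ ‖g‖ ≤ ‖f‖ := by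
  have hle : ∀ (t : ℕ × ℕ), ‖(if P t.1 t.2 then m.c (t.1 + a) (t.2 + b) f else 0 : ℂ)‖ ≤
      ‖m.c (t.1 + a) (t.2 + b) f‖ := by
    intro t
    split_ifs
    · exact le_rfl
    · rw [norm_zero]; exact norm_nonneg _
  obtain ⟨g, hg⟩ := m.surj (fun i j => if P i j then m.c (i + a) (j + b) f else 0)
    (Summable.of_nonneg_of_le (fun _ => norm_nonneg _) hle (sumshift m a b f))
  refine ⟨g, hg, ?_⟩
  refine le_trans ?_ (tsumshift m a b f)
  rw [m.norm_eq g]
  refine Summable.tsum_le_tsum ?_ (m.summ g) (sumshift m a b f)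
  intro t
  rw [hg]
  exact hle t

theorem exists_shift (P : ℕ → ℕ → Prop) [∀ i j, Decidable (P i j)] (a b : ℕ) :
    ∃ D : A →ₗ[ℂ] A, (∀ f i j, m.c i j (D f) = if P i j then m.c (i + a) (j + b) f else 0) ∧
      ∀ f, ‖D f‖ ≤ ‖f‖ := by
  choose D hD hn using fun f : A => exists_shift0 m P a b f
  have hadd : ∀ f g, D (f + g) = D f + D g := by
    intro f g
    apply m.ext
    intro i j
    rw [m.c_add, hD, hD, hD, m.c_add]
    split_ifs
    · rfl
    · rw [add_zero]
  have hsmul : ∀ (z : ℂ) (f : A), D (z • f) = z • D f := by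
    intro z f
    apply m.ext
    intro i j
    rw [m.c_smul, hD, hD, m.c_smul]
    split_ifs
    · rfl
    · rw [mul_zero]
  exact ⟨{ toFun := D, map_add' := hadd, map_smul' := hsmul }, hD, hn⟩

theorem cX_succ (i j : ℕ) (f : A) : m.c (i + 1) j (m.X * f) = m.c i j f := by
  rw [m.c_mul, Finset.sum_eq_single ((1, i) : ℕ × ℕ), Finset.sum_eq_single ((0, j) : ℕ × ℕ)]
  · rw [m.c_X]; simp
  · intro t ht hne
    rw [m.c_X, if_neg, zero_mul]
    rintro ⟨-, h⟩
    rw [Finset.HasAntidiagonal.mem_antidiagonal] at ht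
    exact hne (Prod.ext h (by omega))
  · intro h
    exact absurd (Finset.HasAntidiagonal.mem_antidiagonal.2 (by simp)) h
  · intro s hs hne
    refine Finset.sum_eq_zero fun t _ => ?_
    rw [m.c_X, if_neg, zero_mul]
    rintro ⟨h, -⟩
    rw [Finset.HasAntidiagonal.mem_antidiagonal] at hs
    exact hne (Prod.ext h (by omega))
  · intro h
    exact absurd (Finset.HasAntidiagonal.mem_antidiagonal.2 (by omega)) h

theorem cX_zero (j : ℕ) (f : A) : m.c 0 j (m.X * f) = 0 := by
  rw [m.c_mul]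
  refine Finset.sum_eq_zero fun s hs => Finset.sum_eq_zero fun t _ => ?_
  rw [Finset.HasAntidiagonal.mem_antidiagonal] at hs
  rw [m.c_X, if_neg, zero_mul]
  rintro ⟨h, -⟩
  omega

theorem cY_succ (i j : ℕ) (f : A) : m.c i (j + 1) (m.Y * f) = m.c i j f := by
  rw [m.c_mul, Finset.sum_eq_single ((0, i) : ℕ × ℕ), Finset.sum_eq_single ((1, j) : ℕ × ℕ)]
  · rw [m.c_Y]; simp
  · intro t ht hne
    rw [m.c_Y, if_neg, zero_mul]
    rintro ⟨-, h⟩
    rw [Finset.HasAntidiagonal.mem_antidiagonal] at ht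
    exact hne (Prod.ext h (by omega))
  · intro h
    exact absurd (Finset.HasAntidiagonal.mem_antidiagonal.2 (by omega)) h
  · intro s hs hne
    refine Finset.sum_eq_zero fun t _ => ?_
    rw [m.c_Y, if_neg, zero_mul]
    rintro ⟨h, -⟩
    rw [Finset.HasAntidiagonal.mem_antidiagonal] at hs
    exact hne (Prod.ext h (by omega))
  · intro h
    exact absurd (Finset.HasAntidiagonal.mem_antidiagonal.2 (by simp)) h

theorem cY_zero (i : ℕ) (f : A) : m.c i 0 (m.Y * f) = 0 := by
  rw [m.c_mul]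
  refine Finset.sum_eq_zero fun s _ => Finset.sum_eq_zero fun t ht => ?_
  rw [Finset.HasAntidiagonal.mem_antidiagonal] at ht
  rw [m.c_Y, if_neg, zero_mul]
  rintro ⟨-, h⟩
  omega

theorem cX_pow (k : ℕ) : ∀ (i j : ℕ) (f : A),
    m.c i j (m.X ^ k * f) = if k ≤ i then m.c (i - k) j f else 0 := by
  induction k with
  | zero => intro i j f; simp
  | succ k ih =>
    intro i j f
    rw [pow_succ, mul_assoc, ih]
    by_cases h : k ≤ i
    · rw [if_pos h]
      by_cases h' : k + 1 ≤ i
      · rw [if_pos h']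
        have h2 : i - k = (i - (k + 1)) + 1 := by omega
        rw [h2, cX_succ]
      · rw [if_neg h']
        have h2 : i - k = 0 := by omega
        rw [h2, cX_zero]
    · rw [if_neg h, if_neg (by omega)]

theorem cY_pow (k : ℕ) : ∀ (i j : ℕ) (f : A),
    m.c i j (m.Y ^ k * f) = if k ≤ j then m.c i (j - k) f else 0 := by
  induction k with
  | zero => intro i j f; simp
  | succ k ih =>
    intro i j f
    rw [pow_succ, mul_assoc, ih]
    by_cases h : k ≤ j
    · rw [if_pos h]
      by_cases h' : k + 1 ≤ j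
      · rw [if_pos h']
        have h2 : j - k = (j - (k + 1)) + 1 := by omega
        rw [h2, cY_succ]
      · rw [if_neg h']
        have h2 : j - k = 0 := by omega
        rw [h2, cY_zero]
    · rw [if_neg h, if_neg (by omega)]

end FWX

open FWX in
/-- FD-W -/
theorem wA : S_W := by
  intro A _ _ m
  refine ⟨norm_one' m, norm_X m, norm_Y m, closed_W m, ?_, ?_, ?_, ?_, mul_W m, ?_⟩
  · intro k n hkn f hf i j hij
    exact hf i j (lt_of_lt_of_le hij hkn)
  · rw [eq_top_iff]
    intro f _ i j hij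
    omega
  · intro i j hij
    rw [m.c_X, if_neg]
    omega
  · intro i j hij
    rw [m.c_Y, if_neg]
    omega
  · obtain ⟨D1, hD1, nD1⟩ := exists_shift m (fun _ _ => True) 4 0
    obtain ⟨D2, hD2, nD2⟩ := exists_shift m (fun i _ => i < 4) 0 1
    obtain ⟨E1, hE1, nE1⟩ := exists_shift m (fun _ _ => True) 2 0
    obtain ⟨E2, hE2, nE2⟩ := exists_shift m (fun i _ => i < 2) 0 2
    refine ⟨D1, D2, E1, E2, ?_, ?_, fun f => ⟨nD1 f, nD2 f, nE1 f, nE2 f⟩, ?_⟩
    · intro f hf
      apply m.ext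
      intro i j
      have h0 : m.Y * D2 f = m.Y ^ 1 * D2 f := by rw [pow_one]
      rw [m.c_add, h0, cX_pow, cY_pow, hD1, hD2, if_pos trivial, add_zero, add_zero]
      by_cases h : 4 ≤ i
      · rw [if_pos h, if_neg (by omega : ¬ i < 4), Nat.sub_add_cancel h]
        simp
      · rw [if_neg h, if_pos (by omega : i < 4), zero_add]
        by_cases h' : 1 ≤ j
        · rw [if_pos h', Nat.sub_add_cancel h']
        · rw [if_neg h']
          exact hf i j (by omega)
    · intro f hf
      apply m.ext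
      intro i j
      rw [m.c_add, cX_pow, cY_pow, hE1, hE2, if_pos trivial, add_zero, add_zero]
      by_cases h : 2 ≤ i
      · rw [if_pos h, if_neg (by omega : ¬ i < 2), Nat.sub_add_cancel h]
        simp
      · rw [if_neg h, if_pos (by omega : i < 2), zero_add]
        by_cases h' : 2 ≤ j
        · rw [if_pos h', Nat.sub_add_cancel h']
        · rw [if_neg h']
          exact hf i j (by omega)
    · intro n f hf
      refine ⟨?_, ?_, ?_, ?_⟩
      · intro i j hij
        rw [hD1, if_pos trivial]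
        exact hf _ _ (by omega)
      · intro i j hij
        rw [hD2]
        split_ifs
        · exact hf _ _ (by omega)
        · rfl
      · intro i j hij
        rw [hE1, if_pos trivial]
        exact hf _ _ (by omega)
      · intro i j hij
        rw [hE2]
        split_ifs
        · exact hf _ _ (by omega)
        · rfl

end Pool.Agent.R743.PB
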