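import Pool.Agent.R743.PB.Stm

/-!
# Project PB, piece PAIR: pairs of points with the same image
-/

set_option autoImplicit false

open Filter Topology Set

namespace Pool.Agent.R743.PB

theorem pair : S_PAIR := by
  rintro ⟨x, y⟩ ⟨x', y'⟩ hp - hne hΦ
  have e1 : x = x' := congrArg (fun v : C3 => v.1) hΦ
  have e2 : y ^ 3 - qq x * y = y' ^ 3 - qq x' * y' := congrArg (fun v : C3 => v.2.1) hΦ
  have e3 : y ^ 4 - rr x * y ^ 2 = y' ^ 4 - rr x' * y' ^ 2 :=
    congrArg (fun v : C3 => v.2.2) hΦ
  subst e1
  have hy : y - y' ≠ 0 := by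
    intro h
    exact hne (by rw [sub_eq_zero.1 h])
  have hA : y ^ 2 + y * y' + y' ^ 2 = qq x := by
    have h : (y - y') * (y ^ 2 + y * y' + y' ^ 2 - qq x) = 0 := by linear_combination e2
    exact sub_eq_zero.1 ((mul_eq_zero.1 h).resolve_left hy)
  have hB : (y + y') * (y ^ 2 + y' ^ 2 - rr x) = 0 := by
    have h : (y - y') * ((y + y') * (y ^ 2 + y' ^ 2 - rr x)) = 0 := by linear_combination e3
    exact (mul_eq_zero.1 h).resolve_left hy
  have hx0 : x ≠ 0 := by
    intro hx
    have hq : qq x = 0 := by rw [hx]; simp [qq]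
    have hr : rr x = 0 := by rw [hx]; simp [rr]
    rw [hq] at hA
    rw [hr, sub_zero] at hB
    rcases mul_eq_zero.1 hB with h | h
    · have h1 : y' = -y := by linear_combination h
      rw [h1] at hA
      have h2 : y ^ 2 = 0 := by linear_combination hA
      have h3 : y = 0 := by simpa using h2
      apply hy
      rw [h1, h3]
      ring
    · have h1 : y * y' = 0 := by linear_combination hA - h
      rcases mul_eq_zero.1 h1 with h2 | h2
      · rw [h2] at h
        have h3 : y' = 0 := by simpa using h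
        exact hy (by rw [h2, h3, sub_zero])
      · rw [h2] at h
        have h3 : y = 0 := by simpa using h
        exact hy (by rw [h2, h3, sub_zero])
  have hxn : ‖x‖ < 1 / 2 := lt_of_le_of_lt (norm_fst_le (x, y)) hp
  have hq0 : qq x ≠ 0 := by
    unfold qq
    refine mul_ne_zero hx0 ?_
    intro h
    have h1 : (1 : ℂ) = -(x + x ^ 2) := by linear_combination h
    have h2 : ‖(1 : ℂ)‖ ≤ ‖x‖ + ‖x‖ ^ 2 := by
      rw [h1, norm_neg]
      refine (norm_add_le _ _).trans ?_
      rw [norm_pow]
    rw [norm_one] at h2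
    have h3 := norm_nonneg x
    nlinarith
  refine ⟨rfl, hx0, ?_⟩
  rcases mul_eq_zero.1 hB with h | h
  · have h1 : y' = -y := by linear_combination h
    have h2 : y ^ 2 = qq x := by
      rw [h1] at hA
      linear_combination hA
    have h3 : y ≠ 0 := by
      intro h3
      apply hq0
      rw [← h2, h3]
      ring
    refine ⟨h3, ?_, Or.inl ⟨h1, h2⟩⟩
    show y' ≠ 0
    rw [h1]
    exact neg_ne_zero.2 h3
  · have hyy : y * y' = x ^ 2 := by
      have h1 : qq x - rr x = x ^ 2 := by
        unfold qq rr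
        ring
      linear_combination hA - h + h1
    have hprod : y * y' ≠ 0 := by
      rw [hyy]
      exact pow_ne_zero 2 hx0
    have hr : y ^ 2 + y' ^ 2 = x + x ^ 3 := by
      have h1 : rr x = x + x ^ 3 := by
        unfold rr
        ring
      linear_combination h + h1
    have hf : (y ^ 2 - x) * (y ^ 2 - x ^ 3) = 0 := by
      have h1 : (y ^ 2 - x) * (y ^ 2 - x ^ 3) =
          y ^ 4 - (x + x ^ 3) * y ^ 2 + (x ^ 2) ^ 2 := by ring
      rw [h1, ← hr, ← hyy]
      ring
    refine ⟨left_ne_zero_of_mul hprod, right_ne_zero_of_mul hprod, Or.inr ?_⟩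
    rcases mul_eq_zero.1 hf with h1 | h1
    · have h2 : y ^ 2 = x := sub_eq_zero.1 h1
      exact Or.inl ⟨hyy, h2, by
        show y' ^ 2 = x ^ 3
        linear_combination hr - h2⟩
    · have h2 : y ^ 2 = x ^ 3 := sub_eq_zero.1 h1
      exact Or.inr ⟨hyy, h2, by
        show y' ^ 2 = x
        linear_combination hr - h2⟩

end Pool.Agent.R743.PB
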