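import Pool.Agent.R743.PB.Stm

/-!
# PB-STAB: immersion off the origin with transverse double points
-/

set_option autoImplicit false

open Filter Topology Set

namespace Pool.Agent.R743.PB

/-- the derivative of `Φ` -/
noncomputable def DL (p : C2) : C2 →L[ℂ] C3 :=
  (ContinuousLinearMap.fst ℂ ℂ ℂ).prod
    (((3 * p.2 ^ 2 - qq p.1) • ContinuousLinearMap.snd ℂ ℂ ℂ -
        ((1 + 2 * p.1 + 3 * p.1 ^ 2) * p.2) • ContinuousLinearMap.fst ℂ ℂ ℂ).prod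
      ((4 * p.2 ^ 3 - 2 * rr p.1 * p.2) • ContinuousLinearMap.snd ℂ ℂ ℂ -
        ((1 + 3 * p.1 ^ 2) * p.2 ^ 2) • ContinuousLinearMap.fst ℂ ℂ ℂ))

theorem DL_apply (p v : C2) : DL p v = (v.1,
    (3 * p.2 ^ 2 - qq p.1) * v.2 - ((1 + 2 * p.1 + 3 * p.1 ^ 2) * p.2) * v.1,
    (4 * p.2 ^ 3 - 2 * rr p.1 * p.2) * v.2 - ((1 + 3 * p.1 ^ 2) * p.2 ^ 2) * v.1) := by
  simp [DL]

theorem hasFDerivAt_Φ (p : C2) : HasFDerivAt Φ (DL p) p := by
  have hx : HasFDerivAt (fun p : C2 => p.1) (ContinuousLinearMap.fst ℂ ℂ ℂ) p := hasFDerivAt_fst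
  have hy : HasFDerivAt (fun p : C2 => p.2) (ContinuousLinearMap.snd ℂ ℂ ℂ) p := hasFDerivAt_snd
  have hq : HasDerivAt qq (1 + 2 * p.1 + 3 * p.1 ^ 2) p.1 := by
    have h := (hasDerivAt_id p.1).mul (((hasDerivAt_const p.1 (1:ℂ)).add
      (hasDerivAt_id p.1)).add ((hasDerivAt_id p.1).pow 2))
    refine h.congr_deriv ?_
    simp
    ring
  have hr : HasDerivAt rr (1 + 3 * p.1 ^ 2) p.1 := by
    have h := (hasDerivAt_id p.1).mul ((hasDerivAt_const p.1 (1:ℂ)).add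
      ((hasDerivAt_id p.1).pow 2))
    refine h.congr_deriv ?_
    simp
    ring
  have hq' : HasFDerivAt (fun p : C2 => qq p.1)
      ((1 + 2 * p.1 + 3 * p.1 ^ 2) • ContinuousLinearMap.fst ℂ ℂ ℂ) p :=
    hq.comp_hasFDerivAt p hx
  have hr' : HasFDerivAt (fun p : C2 => rr p.1)
      ((1 + 3 * p.1 ^ 2) • ContinuousLinearMap.fst ℂ ℂ ℂ) p :=
    hr.comp_hasFDerivAt p hx
  have h2 := (hy.pow 3).sub (hq'.mul hy)
  have h3 := (hy.pow 4).sub (hr'.mul (hy.pow 2))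
  have h := hx.prodMk (h2.prodMk h3)
  refine h.congr_fderiv ?_
  apply ContinuousLinearMap.ext
  intro v
  rw [DL_apply]
  simp only [ContinuousLinearMap.prod_apply, ContinuousLinearMap.sub_apply,
    ContinuousLinearMap.add_apply, ContinuousLinearMap.smul_apply, ContinuousLinearMap.coe_fst',
    ContinuousLinearMap.coe_snd', smul_eq_mul]
  refine Prod.ext rfl (Prod.ext ?_ ?_)
  · simp; ring
  · simp; ring

theorem ne_of_small {x : ℂ} (hx : ‖x‖ < 1 / 2) :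
    1 + x ≠ 0 ∧ 1 - x ≠ 0 ∧ 1 + x + x ^ 2 ≠ 0 := by
  refine ⟨fun h => ?_, fun h => ?_, fun h => ?_⟩
  · have h1 : x = -1 := by linear_combination h
    rw [h1] at hx; norm_num at hx
  · have h1 : x = 1 := by linear_combination -h
    rw [h1] at hx; norm_num at hx
  · have h1 : x + x ^ 2 = -1 := by linear_combination h
    have h2 : ‖x + x ^ 2‖ = 1 := by rw [h1]; norm_num
    have h3 : ‖x + x ^ 2‖ ≤ ‖x‖ + ‖x‖ ^ 2 := by
      refine (norm_add_le _ _).trans ?_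
      rw [norm_pow]
    have h4 := norm_nonneg x
    nlinarith

theorem inj_of_ne {p : C2} (h : ¬ (3 * p.2 ^ 2 - qq p.1 = 0 ∧ 4 * p.2 ^ 3 - 2 * rr p.1 * p.2 = 0)) :
    Function.Injective (DL p) := by
  intro v w hvw
  rw [DL_apply, DL_apply] at hvw
  have h1 := congrArg Prod.fst hvw
  have h2 := congrArg (fun z : C3 => z.2.1) hvw
  have h3 := congrArg (fun z : C3 => z.2.2) hvw
  simp only at h1 h2 h3
  refine Prod.ext h1 ?_
  by_contra hne
  apply h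
  have hne' : v.2 - w.2 ≠ 0 := sub_ne_zero.2 hne
  constructor
  · apply mul_right_cancel₀ hne'
    rw [zero_mul]
    rw [h1] at h2
    linear_combination h2
  · apply mul_right_cancel₀ hne'
    rw [zero_mul]
    rw [h1] at h3
    linear_combination h3

theorem crit {p : C2} (hx : ‖p.1‖ < 1 / 2) (h1 : 3 * p.2 ^ 2 - qq p.1 = 0)
    (h2 : 4 * p.2 ^ 3 - 2 * rr p.1 * p.2 = 0) : p = 0 := by
  obtain ⟨ha, hb, hc⟩ := ne_of_small hx
  have key : p.1 = 0 := by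
    by_cases hy : p.2 = 0
    · rw [hy] at h1
      have h3 : p.1 * (1 + p.1 + p.1 ^ 2) = 0 := by
        unfold qq at h1; linear_combination -h1
      rcases mul_eq_zero.1 h3 with h | h
      · exact h
      · exact absurd h hc
    · have h3 : 2 * p.2 ^ 2 - rr p.1 = 0 := by
        have : (2 * p.2) * (2 * p.2 ^ 2 - rr p.1) = 0 := by linear_combination h2
        rcases mul_eq_zero.1 this with h | h
        · exfalso; apply hy; linear_combination h / 2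
        · exact h
      have h4 : p.1 * (1 - p.1) ^ 2 = 0 := by
        unfold qq at h1; unfold rr at h3
        linear_combination 2 * h1 - 3 * h3
      rcases mul_eq_zero.1 h4 with h | h
      · exact h
      · exact absurd (pow_eq_zero_iff (two_ne_zero)|>.1 h) hb
  refine Prod.ext key ?_
  rw [key] at h1
  have h5 : p.2 ^ 2 = 0 := by
    unfold qq at h1
    linear_combination h1 / 3
  exact (pow_eq_zero_iff two_ne_zero).1 h5

/-- the determinant -/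
noncomputable def dt (p p' : C2) : ℂ :=
  (3 * p.2 ^ 2 - qq p.1) * (4 * p'.2 ^ 3 - 2 * rr p'.1 * p'.2) -
    (3 * p'.2 ^ 2 - qq p'.1) * (4 * p.2 ^ 3 - 2 * rr p.1 * p.2)

theorem lin2 (c d c' d' V W : ℂ) (h : c * d' - c' * d ≠ 0) :
    ∃ b b' : ℂ, c * b + c' * b' = V ∧ d * b + d' * b' = W := by
  refine ⟨(V * d' - W * c') / (c * d' - c' * d), (c * W - d * V) / (c * d' - c' * d), ?_, ?_⟩
  · rw [mul_div_assoc', mul_div_assoc', ← add_div, div_eq_iff h]; ring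
  · rw [mul_div_assoc', mul_div_assoc', ← add_div, div_eq_iff h]; ring

theorem sup_top {p p' : C2} (h : dt p p' ≠ 0) :
    LinearMap.range (DL p : C2 →ₗ[ℂ] C3) ⊔ LinearMap.range (DL p' : C2 →ₗ[ℂ] C3) = ⊤ := by
  rw [Submodule.eq_top_iff']
  rintro ⟨u, v, w⟩
  rw [Submodule.mem_sup]
  obtain ⟨b, b', h1, h2⟩ := lin2 _ _ _ _ (v + ((1 + 2 * p.1 + 3 * p.1 ^ 2) * p.2) * u)
    (w + ((1 + 3 * p.1 ^ 2) * p.2 ^ 2) * u) h
  refine ⟨DL p (u, b), ⟨_, rfl⟩, DL p' (0, b'), ⟨_, rfl⟩, ?_⟩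
  rw [DL_apply, DL_apply]
  refine Prod.ext ?_ (Prod.ext ?_ ?_)
  · simp
  · simp only [Prod.fst_add, Prod.snd_add]
    linear_combination h1
  · simp only [Prod.snd_add]
    linear_combination h2

theorem dt_A {p p' : C2} (hx : ‖p.1‖ < 1 / 2) (h1 : p.1 = p'.1) (h0 : p.1 ≠ 0) (hy : p.2 ≠ 0)
    (h2 : p'.2 = -p.2) (h3 : p.2 ^ 2 = qq p.1) : dt p p' ≠ 0 := by
  obtain ⟨ha, -, -⟩ := ne_of_small hx
  have h : dt p p' = -8 * p.2 ^ 3 * (p.1 * (1 + p.1) ^ 2) := by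
    unfold dt
    rw [← h1, h2]
    unfold qq at h3 ⊢
    unfold rr
    linear_combination (-24 * p.2 ^ 3 + 4 * (p.1 * (1 + p.1 ^ 2)) * p.2) * h3
  rw [h]
  exact mul_ne_zero (mul_ne_zero (by norm_num) (pow_ne_zero _ hy))
    (mul_ne_zero h0 (pow_ne_zero _ ha))

theorem dt_B {p p' : C2} (hx : ‖p.1‖ < 1 / 2) (h1 : p.1 = p'.1) (h0 : p.1 ≠ 0) (hy : p.2 ≠ 0)
    (h2 : p.2 * p'.2 = p.1 ^ 2) (h3 : p.2 ^ 2 = p.1) : dt p p' ≠ 0 := by
  obtain ⟨ha, hb, -⟩ := ne_of_small hx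
  have h4 : p'.2 = p.2 ^ 3 := by
    apply mul_left_cancel₀ hy
    rw [h2, ← h3]; ring
  have h : dt p p' = 2 * p.1 ^ 2 * p.2 * (1 - p.1) * ((1 - p.1) * (1 + p.1)) ^ 2 := by
    unfold dt
    rw [← h1, h4]
    unfold qq rr
    rw [← h3]
    ring
  rw [h]
  exact mul_ne_zero (mul_ne_zero (mul_ne_zero (mul_ne_zero two_ne_zero (pow_ne_zero _ h0)) hy) hb)
    (pow_ne_zero _ (mul_ne_zero hb ha))

theorem dt_symm (p p' : C2) : dt p p' = -dt p' p := by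
  unfold dt; ring

/-- PB-STAB -/
theorem stab (hP : S_PAIR) : S_STAB := by
  have hfd : ∀ p, fderiv ℂ Φ p = DL p := fun p => (hasFDerivAt_Φ p).fderiv
  refine ⟨Metric.ball 0 (1 / 2), Metric.ball_mem_nhds _ (by norm_num), ?_, ?_, ?_, ?_⟩
  · intro p _ h
    have h1 : p.1 = 0 := congrArg Prod.fst h
    have h2 : p.2 ^ 3 - qq p.1 * p.2 = 0 := congrArg (fun z : C3 => z.2.1) h
    rw [h1] at h2
    have h3 : p.2 ^ 3 = 0 := by
      unfold qq at h2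
      linear_combination h2
    exact Prod.ext h1 ((pow_eq_zero_iff three_ne_zero).1 h3)
  · intro p hp hp0
    rw [hfd]
    apply inj_of_ne
    rintro ⟨h1, h2⟩
    have hx : ‖p.1‖ < 1 / 2 := (norm_fst_le p).trans_lt (mem_ball_zero_iff.1 hp)
    exact hp0 (crit hx h1 h2)
  · intro p hp p' hp' hne hΦ
    rw [mem_ball_zero_iff] at hp hp'
    rw [hfd, hfd]
    apply sup_top
    have hx : ‖p.1‖ < 1 / 2 := (norm_fst_le p).trans_lt hp
    have hx' : ‖p'.1‖ < 1 / 2 := (norm_fst_le p').trans_lt hp'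
    obtain ⟨h1, h0, hy, hy', h⟩ := hP p p' hp hp' hne hΦ
    rcases h with ⟨h2, h3⟩ | ⟨h2, h3, h4⟩ | ⟨h2, h3, h4⟩
    · exact dt_A hx h1 h0 hy h2 h3
    · exact dt_B hx h1 h0 hy h2 h3
    · rw [dt_symm, neg_ne_zero]
      exact dt_B hx' h1.symm (h1 ▸ h0) hy' (by rw [mul_comm, h2, h1]) (by rw [h4, h1])
  · intro p hp p' hp' p'' hp'' h12 h13 h23 hΦ hΦ'
    rw [mem_ball_zero_iff] at hp hp' hp''
    obtain ⟨h1, h0, -, -, -⟩ := hP p p' hp hp' h12 hΦ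
    obtain ⟨h1', -, -, -, -⟩ := hP p p'' hp hp'' h13 hΦ'
    have a1 : p.2 ^ 3 - qq p.1 * p.2 = p'.2 ^ 3 - qq p'.1 * p'.2 :=
      congrArg (fun z : C3 => z.2.1) hΦ
    have a2 : p.2 ^ 4 - rr p.1 * p.2 ^ 2 = p'.2 ^ 4 - rr p'.1 * p'.2 ^ 2 :=
      congrArg (fun z : C3 => z.2.2) hΦ
    have b1 : p.2 ^ 3 - qq p.1 * p.2 = p''.2 ^ 3 - qq p''.1 * p''.2 :=
      congrArg (fun z : C3 => z.2.1) hΦ'
    have b2 : p.2 ^ 4 - rr p.1 * p.2 ^ 2 = p''.2 ^ 4 - rr p''.1 * p''.2 ^ 2 :=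
      congrArg (fun z : C3 => z.2.2) hΦ'
    rw [← h1] at a1 a2
    rw [← h1'] at b1 b2
    have hqr : qq p.1 - rr p.1 = p.1 ^ 2 := by unfold qq rr; ring
    have hn1 : p.2 - p'.2 ≠ 0 := fun h => h12 (Prod.ext h1 (sub_eq_zero.1 h))
    have hn2 : p.2 - p''.2 ≠ 0 := fun h => h13 (Prod.ext h1' (sub_eq_zero.1 h))
    have c1 : p.1 ^ 2 * (p.2 + p'.2) + (p.2 ^ 3 - qq p.1 * p.2) = 0 := by
      apply mul_left_cancel₀ hn1
      rw [mul_zero, ← hqr]
      linear_combination a2 - p'.2 * a1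
    have c2 : p.1 ^ 2 * (p.2 + p''.2) + (p.2 ^ 3 - qq p.1 * p.2) = 0 := by
      apply mul_left_cancel₀ hn2
      rw [mul_zero, ← hqr]
      linear_combination b2 - p''.2 * b1
    have c3 : p'.2 = p''.2 := by
      have h5 : p.1 ^ 2 * (p'.2 - p''.2) = 0 := by linear_combination c1 - c2
      rcases mul_eq_zero.1 h5 with h | h
      · exact absurd ((pow_eq_zero_iff two_ne_zero).1 h) h0
      · exact sub_eq_zero.1 h
    exact h23 (Prod.ext (h1.symm.trans h1') c3)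

end Pool.Agent.R743.PB
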