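import Mathlib

/-!
# Paired branches of double point curves (project PB, MP_729182_ag): definitions and statements

The germ `Φ = (x, y³ - q y, y⁴ - r y²)`, `q = x (1 + x + x²)`, `r = x (1 + x²)`, pairs the smooth branch
`y² = x` of its double point curve with the cusp `y² = x³`.  Proofs: `NOTES.md` in this folder.
-/

set_option autoImplicit false

open Filter Topology Set

namespace Pool.Agent.R743.PB

/-- source and target -/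
abbrev C2 := ℂ × ℂ
abbrev C3 := ℂ × ℂ × ℂ

/-! ## General definitions -/

/-- the representative `Φ|U` is finite over `0`, and off `0` an immersion with only transverse double
points: by the Mather–Gaffney criterion this is finite `𝒜`-determinacy for germs `(ℂ², 0) → (ℂ³, 0)` -/
def StableOff (Φ : C2 → C3) : Prop := ∃ U ∈ 𝓝 (0 : C2),
  (∀ p ∈ U, Φ p = 0 → p = 0) ∧
  (∀ p ∈ U, p ≠ 0 → Function.Injective (fderiv ℂ Φ p)) ∧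
  (∀ p ∈ U, ∀ p' ∈ U, p ≠ p' → Φ p = Φ p' →
    LinearMap.range (fderiv ℂ Φ p : C2 →ₗ[ℂ] C3) ⊔ LinearMap.range (fderiv ℂ Φ p' : C2 →ₗ[ℂ] C3) = ⊤) ∧
  (∀ p ∈ U, ∀ p' ∈ U, ∀ p'' ∈ U, p ≠ p' → p ≠ p'' → p' ≠ p'' → Φ p = Φ p' → Φ p ≠ Φ p'')

/-- the closure of the double points of the restriction of `Φ` to `U` -/
def Dbl (Φ : C2 → C3) (U : Set C2) : Set C2 :=
  closure {p | p ∈ U ∧ ∃ p' ∈ U, p' ≠ p ∧ Φ p' = Φ p}

/-- `D` represents the germ of the double point set of `Φ` -/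
def IsDbl (Φ : C2 → C3) (D : Set C2) : Prop :=
  ∃ U₀ ∈ 𝓝 (0 : C2), ∀ U ∈ 𝓝 (0 : C2), U ⊆ U₀ → ∀ᶠ p in 𝓝 (0 : C2), (p ∈ Dbl Φ U ↔ p ∈ D)

/-- `C` represents an irreducible plane curve germ (it has an injective holomorphic parametrisation) -/
def IsBranch (C : Set C2) : Prop := ∃ γ : ℂ → C2, AnalyticAt ℂ γ 0 ∧ γ 0 = 0 ∧ ∃ ε₀ > (0 : ℝ),
  InjOn γ (Metric.ball 0 ε₀) ∧
  ∀ ε : ℝ, 0 < ε → ε ≤ ε₀ → ∀ᶠ p in 𝓝 (0 : C2), (p ∈ C ↔ p ∈ γ '' Metric.ball 0 ε)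

/-- the involution maps the germ `C` onto the germ `C'` -/
def Paired (Φ : C2 → C3) (C C' : Set C2) : Prop :=
  (∃ U ∈ 𝓝 (0 : C2), ∀ p ∈ U, ∀ p' ∈ U, p ≠ p' → Φ p = Φ p' → (p ∈ C ↔ p' ∈ C')) ∧
  ∀ U ∈ 𝓝 (0 : C2), ∀ᶠ p in 𝓝 (0 : C2), p ∈ C ∪ C' → p ≠ 0 → ∃ p' ∈ U, p ≠ p' ∧ Φ p = Φ p'

/-- topological equivalence of the germs of `C` and `C'` at `0` -/
def TopEquiv (C C' : Set C2) : Prop := ∃ h : OpenPartialHomeomorph C2 C2,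
  (0 : C2) ∈ h.source ∧ h 0 = 0 ∧ ∀ᶠ p in 𝓝 (0 : C2), (p ∈ C ↔ h p ∈ C')

/-! ## The example -/

def qq (x : ℂ) : ℂ := x * (1 + x + x ^ 2)

def rr (x : ℂ) : ℂ := x * (1 + x ^ 2)

/-- the germ -/
def Φ (p : C2) : C3 := (p.1, p.2 ^ 3 - qq p.1 * p.2, p.2 ^ 4 - rr p.1 * p.2 ^ 2)

/-- the branch `y² = q(x)` -/
def D1 : Set C2 := {p | p.2 ^ 2 = qq p.1}

/-- the smooth branch -/
def D2 : Set C2 := {p | p.2 ^ 2 = p.1}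

/-- the cusp -/
def D3 : Set C2 := {p | p.2 ^ 2 = p.1 ^ 3}

/-- PB-PAIR: pairs of points with the same image -/
def S_PAIR : Prop := ∀ p p' : C2, ‖p‖ < 1 / 2 → ‖p'‖ < 1 / 2 → p ≠ p' → Φ p = Φ p' →
  p.1 = p'.1 ∧ p.1 ≠ 0 ∧ p.2 ≠ 0 ∧ p'.2 ≠ 0 ∧
  ((p'.2 = -p.2 ∧ p.2 ^ 2 = qq p.1) ∨
    (p.2 * p'.2 = p.1 ^ 2 ∧ p.2 ^ 2 = p.1 ∧ p'.2 ^ 2 = p.1 ^ 3) ∨
    (p.2 * p'.2 = p.1 ^ 2 ∧ p.2 ^ 2 = p.1 ^ 3 ∧ p'.2 ^ 2 = p.1))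

/-- PB-STAB -/
def S_STAB : Prop := StableOff Φ

/-- PB-DBL -/
def S_DBL : Prop := IsDbl Φ (D1 ∪ D2 ∪ D3)

/-- PB-BR: the three branches and the pairing -/
def S_BR : Prop := AnalyticAt ℂ Φ 0 ∧ IsBranch D2 ∧ IsBranch D3 ∧ Paired Φ D2 D3

/-- the map whose discriminant is the cusp -/
noncomputable def cm (z : C2) : C2 := (z.1, (3 * z.1 * z.2 - z.2 ^ 3) / 2)

/-- PB-COV -/
def S_COV : Prop := IsCoveringMapOn cm D3ᶜ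

/-- PB-TOP: the line is not topologically equivalent to the cusp -/
def S_TOP : Prop := ¬ TopEquiv {p : C2 | p.1 = 0} D3

end Pool.Agent.R743.PB
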