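import Pool.Agent.R743.PB.Stm

/-!
# Project PB, second part: finite `𝒜`-determinacy of the germ `Φ` (statements, proofs in `NOTES2.md`)
-/

set_option autoImplicit false

open Filter Topology Set Asymptotics

namespace Pool.Agent.R743.PB

/-- germ of a biholomorphic map of `E` fixing `0` -/
def IsBih {E : Type} [NormedAddCommGroup E] [NormedSpace ℂ E] (f : E → E) : Prop :=
  AnalyticAt ℂ f 0 ∧ f 0 = 0 ∧ Function.Bijective (fderiv ℂ f 0)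

/-- `F` is finitely `𝒜`-determined: for some `k` every holomorphic germ `G` with the same `k`-jet
(`G - F = O(‖p‖^(k+1))`) is `ψ ∘ F ∘ φ` for biholomorphic germs `φ`, `ψ` -/
def FinDet (F : C2 → C3) : Prop := ∃ k : ℕ, ∀ G : C2 → C3, AnalyticAt ℂ G 0 →
  ((fun p => G p - F p) =O[𝓝 0] fun p => ‖p‖ ^ (k + 1)) →
  ∃ (φ : C2 → C2) (ψ : C3 → C3), IsBih φ ∧ IsBih ψ ∧ ∀ᶠ p in 𝓝 (0 : C2), G p = ψ (F (φ p))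

/-! ## Power series algebras -/

/-- `A` is the algebra of power series `∑ c i j X^i Y^j` with `∑ ‖c i j‖ < ∞`, normed by this sum. -/
structure MA (A : Type) [NormedCommRing A] [NormedAlgebra ℂ A] : Type where
  X : A
  Y : A
  c : ℕ → ℕ → A → ℂ
  summ : ∀ f : A, Summable fun t : ℕ × ℕ => ‖c t.1 t.2 f‖
  norm_eq : ∀ f : A, ‖f‖ = ∑' t : ℕ × ℕ, ‖c t.1 t.2 f‖
  ext : ∀ f g : A, (∀ i j, c i j f = c i j g) → f = g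
  surj : ∀ d : ℕ → ℕ → ℂ, (Summable fun t : ℕ × ℕ => ‖d t.1 t.2‖) → ∃ f : A, ∀ i j, c i j f = d i j
  c_add : ∀ (i j : ℕ) (f g : A), c i j (f + g) = c i j f + c i j g
  c_smul : ∀ (i j : ℕ) (z : ℂ) (f : A), c i j (z • f) = z * c i j f
  c_mul : ∀ (i j : ℕ) (f g : A), c i j (f * g) =
    (Finset.HasAntidiagonal.antidiagonal i).sum fun s : ℕ × ℕ =>
      (Finset.HasAntidiagonal.antidiagonal j).sum fun t : ℕ × ℕ => c s.1 t.1 f * c s.2 t.2 g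
  c_X : ∀ i j, c i j X = if i = 1 ∧ j = 0 then 1 else 0
  c_Y : ∀ i j, c i j Y = if i = 0 ∧ j = 1 then 1 else 0
  c_one : ∀ i j, c i j 1 = if i = 0 ∧ j = 0 then 1 else 0

/-- FD-A: such an algebra exists -/
def S_A : Prop := ∃ (A : Type) (_ : NormedCommRing A) (_ : NormedAlgebra ℂ A) (_ : CompleteSpace A),
  Nonempty (MA A)

/-- the germs at the scale `r`: a Banach algebra `E = A ⊕ A y ⊕ A y²` of convergent power series in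
`x, y`, where `A` is an algebra of power series in `x` and `P = y³ - x (1 + x + x²) y`; `V n` consists
of the series of weight at least `n` (`x, y, P` have weights `2, 1, 3`) -/
structure Model (K r : ℝ) (E : Type) [NormedCommRing E] [NormedAlgebra ℂ E] : Type where
  A : Subalgebra ℂ E
  V : ℕ → Submodule ℂ E
  x : E
  y : E
  P : E
  al : E →ₗ[ℂ] E
  be : E →ₗ[ℂ] E
  ga : E →ₗ[ℂ] E
  d1 : E →ₗ[ℂ] E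
  d2 : E →ₗ[ℂ] E
  e1 : E →ₗ[ℂ] E
  e2 : E →ₗ[ℂ] E
  ev : C2 → E → ℂ
  n1 : ‖(1 : E)‖ ≤ 1
  hP : P = y ^ 3 - x * (1 + x + x ^ 2) * y
  hx : x ∈ A
  hPA : P ∈ A
  nx : ‖x‖ ≤ r ^ 2
  ny : ‖y‖ ≤ r
  closed : ∀ n, IsClosed (V n : Set E)
  anti : ∀ m n, m ≤ n → V n ≤ V m
  top : V 0 = ⊤
  vmul : ∀ m n f g, f ∈ V m → g ∈ V n → f * g ∈ V (m + n)
  vx : x ∈ V 2
  vy : y ∈ V 1
  vP : P ∈ V 3
  decomp : ∀ f, f = al f + be f * y + ga f * y ^ 2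
  memA : ∀ f, al f ∈ A ∧ be f ∈ A ∧ ga f ∈ A
  nal : ∀ f, ‖al f‖ ≤ ‖f‖ ∧ r * ‖be f‖ ≤ ‖f‖ ∧ r ^ 2 * ‖ga f‖ ≤ ‖f‖
  val : ∀ n, ∀ f ∈ V n, al f ∈ V n ∧ be f ∈ V (n - 1) ∧ ga f ∈ V (n - 2)
  dmem : ∀ f ∈ A, d1 f ∈ A ∧ d2 f ∈ A ∧ e1 f ∈ A ∧ e2 f ∈ A
  dd : ∀ f ∈ A, f ∈ V 7 → f = x ^ 4 * d1 f + P * d2 f
  ee : ∀ f ∈ A, f ∈ V 6 → f = x ^ 2 * e1 f + P ^ 2 * e2 f
  nd : ∀ f ∈ A, r ^ 8 * ‖d1 f‖ ≤ K * ‖f‖ ∧ r ^ 8 * ‖d2 f‖ ≤ K * ‖f‖ ∧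
    r ^ 8 * ‖e1 f‖ ≤ K * ‖f‖ ∧ r ^ 8 * ‖e2 f‖ ≤ K * ‖f‖
  vd : ∀ n, ∀ f ∈ A, f ∈ V n → d1 f ∈ V (n - 8) ∧ d2 f ∈ V (n - 3) ∧ e1 f ∈ V (n - 4) ∧
    e2 f ∈ V (n - 6)
  inv : ∀ u ∈ A, ‖1 - u‖ ≤ 1 / 2 → ∃ v ∈ A, u * v = 1 ∧ ‖v‖ ≤ 2
  ev_hom : ∀ᶠ p in 𝓝 (0 : C2), (∀ f g, ev p (f + g) = ev p f + ev p g) ∧
    (∀ f g, ev p (f * g) = ev p f * ev p g) ∧ (∀ (z : ℂ), ev p (algebraMap ℂ E z) = z) ∧
    (∀ f, ‖ev p f‖ ≤ ‖f‖) ∧ ev p x = p.1 ∧ ev p y = p.2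
  ev_an : ∀ f, AnalyticAt ℂ (fun p => ev p f) 0
  ev_ord : ∀ f ∈ V 6, (fun p => ev p f) =O[𝓝 0] fun p => ‖p‖ ^ 2
  ev_A : ∀ f ∈ A, ∃ F : C2 → ℂ, AnalyticAt ℂ F 0 ∧
    (∀ᶠ p in 𝓝 (0 : C2), ev p f = F (p.1, p.2 ^ 3 - qq p.1 * p.2)) ∧
    (f ∈ V 6 → F =O[𝓝 0] fun p => ‖p‖ ^ 2)

/-! ### construction of the models -/

variable {A : Type} [NormedCommRing A] [NormedAlgebra ℂ A]

/-- the series of weight at least `n` (`X`, `Y` have weights `2`, `3`) -/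
def MA.W (m : MA A) (n : ℕ) : Submodule ℂ A where
  carrier := {f | ∀ i j : ℕ, 2 * i + 3 * j < n → m.c i j f = 0}
  add_mem' := by
    intro f g hf hg i j h
    rw [m.c_add, hf i j h, hg i j h, add_zero]
  zero_mem' := by
    intro i j _
    have h := m.c_smul i j 0 0
    rwa [zero_smul, zero_mul] at h
  smul_mem' := by
    intro z f hf i j h
    rw [m.c_smul, hf i j h, mul_zero]

/-- FD-W: weights and division in the algebra of power series -/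
def S_W : Prop := ∀ (A : Type) [NormedCommRing A] [NormedAlgebra ℂ A] (m : MA A),
  ‖(1 : A)‖ ≤ 1 ∧ ‖m.X‖ ≤ 1 ∧ ‖m.Y‖ ≤ 1 ∧ (∀ n, IsClosed (m.W n : Set A)) ∧
  (∀ k n, k ≤ n → m.W n ≤ m.W k) ∧ m.W 0 = ⊤ ∧ m.X ∈ m.W 2 ∧ m.Y ∈ m.W 3 ∧
  (∀ k n f g, f ∈ m.W k → g ∈ m.W n → f * g ∈ m.W (k + n)) ∧
  ∃ D1 D2 E1 E2 : A →ₗ[ℂ] A,
    (∀ f ∈ m.W 7, f = m.X ^ 4 * D1 f + m.Y * D2 f) ∧
    (∀ f ∈ m.W 6, f = m.X ^ 2 * E1 f + m.Y ^ 2 * E2 f) ∧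
    (∀ f, ‖D1 f‖ ≤ ‖f‖ ∧ ‖D2 f‖ ≤ ‖f‖ ∧ ‖E1 f‖ ≤ ‖f‖ ∧ ‖E2 f‖ ≤ ‖f‖) ∧
    ∀ n, ∀ f ∈ m.W n, D1 f ∈ m.W (n - 8) ∧ D2 f ∈ m.W (n - 3) ∧ E1 f ∈ m.W (n - 4) ∧
      E2 f ∈ m.W (n - 6)

/-- evaluation of a power series -/
noncomputable def MA.ev (m : MA A) (p : C2) (f : A) : ℂ :=
  ∑' t : ℕ × ℕ, m.c t.1 t.2 f * p.1 ^ t.1 * p.2 ^ t.2

/-- FD-EVA: evaluation is a homomorphism and analytic -/
def S_EVA : Prop := ∀ (A : Type) [NormedCommRing A] [NormedAlgebra ℂ A] (m : MA A),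
  (∀ p : C2, ‖p‖ ≤ 1 → (∀ f g, m.ev p (f + g) = m.ev p f + m.ev p g) ∧
    (∀ f g, m.ev p (f * g) = m.ev p f * m.ev p g) ∧ (∀ (z : ℂ), m.ev p (algebraMap ℂ A z) = z) ∧
    (∀ f, ‖m.ev p f‖ ≤ ‖f‖) ∧ m.ev p m.X = p.1 ∧ m.ev p m.Y = p.2) ∧
  (∀ f, AnalyticAt ℂ (fun p => m.ev p f) 0) ∧
  (∀ f ∈ m.W 4, (fun p => m.ev p f) =O[𝓝 0] fun p => ‖p‖ ^ 2)

/-- `E = A ⊕ A y ⊕ A y²` with `y³ = q y + p` -/
structure Cub (q p : A) (E : Type) [NormedCommRing E] [NormedAlgebra ℂ E] : Type where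
  ι : A →ₐ[ℂ] E
  y : E
  al : E →ₗ[ℂ] A
  be : E →ₗ[ℂ] A
  ga : E →ₗ[ℂ] A
  rel : y ^ 3 = ι q * y + ι p
  dec : ∀ f, f = ι (al f) + ι (be f) * y + ι (ga f) * y ^ 2
  nrm : ∀ f, ‖f‖ = ‖al f‖ + ‖be f‖ + ‖ga f‖
  co : ∀ a b c : A, al (ι a + ι b * y + ι c * y ^ 2) = a ∧ be (ι a + ι b * y + ι c * y ^ 2) = b ∧
    ga (ι a + ι b * y + ι c * y ^ 2) = c

/-- FD-EXT: the cubic extension exists -/
def S_EXT : Prop := ∀ (A : Type) [NormedCommRing A] [NormedAlgebra ℂ A] [CompleteSpace A] (q p : A),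
  ‖(1 : A)‖ ≤ 1 → ‖q‖ + ‖p‖ ≤ 1 →
  ∃ (E : Type) (_ : NormedCommRing E) (_ : NormedAlgebra ℂ E) (_ : CompleteSpace E),
    Nonempty (Cub q p E)

/-- the weight filtration of the extension -/
noncomputable def Cub.V {q p : A} {E : Type} [NormedCommRing E] [NormedAlgebra ℂ E] (e : Cub q p E) (m : MA A)
    (n : ℕ) : Submodule ℂ E :=
  (m.W n).comap e.al ⊓ (m.W (n - 1)).comap e.be ⊓ (m.W (n - 2)).comap e.ga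

/-- FD-V: weights in the extension -/
def S_V : Prop := ∀ (A : Type) [NormedCommRing A] [NormedAlgebra ℂ A] (m : MA A) (q p : A) (E : Type)
  [NormedCommRing E] [NormedAlgebra ℂ E] (e : Cub q p E), q ∈ m.W 2 → p ∈ m.W 3 →
  (∀ n, IsClosed (e.V m n : Set E)) ∧ (∀ k n, k ≤ n → e.V m n ≤ e.V m k) ∧ e.V m 0 = ⊤ ∧
  e.y ∈ e.V m 1 ∧ (∀ n, ∀ a ∈ m.W n, e.ι a ∈ e.V m n) ∧
  (∀ k n f g, f ∈ e.V m k → g ∈ e.V m n → f * g ∈ e.V m (k + n)) ∧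
  (∀ a, ‖e.ι a‖ = ‖a‖) ∧ ‖e.y‖ ≤ ‖(1 : A)‖

/-- the scaled coefficients: `x = (r²/8) X`, `P = (r³/2) Y`, `y_E = r y` -/
noncomputable def MA.xs (m : MA A) (r : ℝ) : A := ((r ^ 2 / 8 : ℝ) : ℂ) • m.X

noncomputable def MA.qs (m : MA A) (r : ℝ) : A :=
  ((1 / 8 : ℝ) : ℂ) • (m.X * (1 + m.xs r + m.xs r ^ 2))

noncomputable def MA.ps (m : MA A) : A := ((1 / 2 : ℝ) : ℂ) • m.Y

/-- evaluation in the extension -/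
noncomputable def Cub.ev {q p : A} {E : Type} [NormedCommRing E] [NormedAlgebra ℂ E]
    (e : Cub q p E) (m : MA A) (r : ℝ) (z : C2) (f : E) : ℂ :=
  m.ev (8 * z.1 / r ^ 2, 2 * (z.2 ^ 3 - qq z.1 * z.2) / r ^ 3) (e.al f) +
  m.ev (8 * z.1 / r ^ 2, 2 * (z.2 ^ 3 - qq z.1 * z.2) / r ^ 3) (e.be f) * (z.2 / r) +
  m.ev (8 * z.1 / r ^ 2, 2 * (z.2 ^ 3 - qq z.1 * z.2) / r ^ 3) (e.ga f) * (z.2 / r) ^ 2

/-- FD-EVE: evaluation in the extension -/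
def S_EVE : Prop := ∀ (A : Type) [NormedCommRing A] [NormedAlgebra ℂ A] (m : MA A) (r : ℝ),
  0 < r → ∀ (E : Type) [NormedCommRing E] [NormedAlgebra ℂ E] (e : Cub (m.qs r) m.ps E),
  (∀ᶠ z in 𝓝 (0 : C2), (∀ f g, e.ev m r z (f + g) = e.ev m r z f + e.ev m r z g) ∧
    (∀ f g, e.ev m r z (f * g) = e.ev m r z f * e.ev m r z g) ∧
    (∀ (w : ℂ), e.ev m r z (algebraMap ℂ E w) = w) ∧
    (∀ f, ‖e.ev m r z f‖ ≤ ‖f‖) ∧ e.ev m r z (e.ι (m.xs r)) = z.1 ∧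
    e.ev m r z ((r : ℂ) • e.y) = z.2) ∧
  (∀ f, AnalyticAt ℂ (fun z => e.ev m r z f) 0) ∧
  (∀ f ∈ e.V m 6, (fun z => e.ev m r z f) =O[𝓝 0] fun z => ‖z‖ ^ 2) ∧
  ∀ a : A, ∃ F : C2 → ℂ, AnalyticAt ℂ F 0 ∧
    (∀ᶠ z in 𝓝 (0 : C2), e.ev m r z (e.ι a) = F (z.1, z.2 ^ 3 - qq z.1 * z.2)) ∧
    (a ∈ m.W 6 → F =O[𝓝 0] fun z => ‖z‖ ^ 2)

/-- FD-MODEL: the models exist for all small `r` with a common constant -/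
def S_MODEL : Prop := ∃ K r₀ : ℝ, 0 < K ∧ 0 < r₀ ∧ ∀ r : ℝ, 0 < r → r ≤ r₀ →
  ∃ (E : Type) (_ : NormedCommRing E) (_ : NormedAlgebra ℂ E) (_ : CompleteSpace E),
    Nonempty (Model K r E)

/-! ## The right inverse -/

section ops
variable {E : Type} [CommRing E]

/-- the third component and the partial derivatives -/
def Pf (x y : E) : E := y ^ 3 - x * (1 + x + x ^ 2) * y
def Px (x y : E) : E := - (1 + 2 * x + 3 * x ^ 2) * y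
def Py (x y : E) : E := 3 * y ^ 2 - x * (1 + x + x ^ 2)
def Zf (x y : E) : E := y ^ 4 - x * (1 + x ^ 2) * y ^ 2
def Zx (x y : E) : E := - (1 + 3 * x ^ 2) * y ^ 2
def Zy (x y : E) : E := 4 * y ^ 3 - 2 * (x * (1 + x ^ 2)) * y

/-- quadratic remainders -/
def QP (x y s t : E) : E := Pf (x + s) (y + t) - Pf x y - Px x y * s - Py x y * t
def QZ (x y s t : E) : E := Zf (x + s) (y + t) - Zf x y - Zx x y * s - Zy x y * t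

end ops

/-- FD-RINV: a bounded right inverse of the infinitesimal action -/
def S_RINV : Prop := ∀ K : ℝ, 0 < K → ∃ L r₁ : ℝ, 0 < L ∧ 0 < r₁ ∧ ∀ r : ℝ, 0 < r → r ≤ r₁ →
  ∀ (E : Type) [NormedCommRing E] [NormedAlgebra ℂ E] (m : Model K r E),
    ∃ R : (E × E × E) →ₗ[ℂ] (Fin 6 → E),
      (∀ h i, r ^ 20 * ‖R h i‖ ≤ L * ‖h‖) ∧
      ∀ h : E × E × E, h.1 ∈ m.V 12 → h.2.1 ∈ m.V 12 → h.2.2 ∈ m.V 12 →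
        (∀ i, R h i ∈ m.V 6) ∧ (∀ i : Fin 6, 2 ≤ i.val → R h i ∈ m.A) ∧
        R h 0 - R h 2 = h.1 ∧
        Px m.x m.y * R h 0 + Py m.x m.y * R h 1 - R h 3 = h.2.1 ∧
        Zx m.x m.y * R h 0 + Zy m.x m.y * R h 1 - R h 4 - R h 5 * Zf m.x m.y = h.2.2

/-- FD-QUAD: the quadratic remainders -/
def S_QUAD : Prop := ∃ L : ℝ, 0 < L ∧ ∀ (E : Type) [NormedCommRing E], ∀ x y s t s' t' : E, ∀ ε : ℝ,
  ‖(1 : E)‖ ≤ 1 → ‖x‖ ≤ 1 → ‖y‖ ≤ 1 → ε ≤ 1 → ‖s‖ ≤ ε → ‖t‖ ≤ ε → ‖s'‖ ≤ ε → ‖t'‖ ≤ ε →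
  ‖QP x y s t - QP x y s' t'‖ ≤ L * ε * (‖s - s'‖ + ‖t - t'‖) ∧
  ‖QZ x y s t - QZ x y s' t'‖ ≤ L * ε * (‖s - s'‖ + ‖t - t'‖)

/-- FD-QV: weights of the remainders -/
def S_QV : Prop := ∀ (K r : ℝ) (E : Type) [NormedCommRing E] [NormedAlgebra ℂ E] (m : Model K r E),
  ∀ s ∈ m.V 6, ∀ t ∈ m.V 6, QP m.x m.y s t ∈ m.V 12 ∧ QZ m.x m.y s t ∈ m.V 12

/-- FD-PSER: power series of a holomorphic germ in two variables -/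
def S_PSER : Prop := ∀ (δ : C2 → ℂ) (k : ℕ), AnalyticAt ℂ δ 0 →
  (δ =O[𝓝 0] fun p => ‖p‖ ^ (k + 1)) →
  ∃ (d : ℕ → ℕ → ℂ) (C ρ : ℝ), 0 < ρ ∧ (∀ i j, ‖d i j‖ * ρ ^ (i + j) ≤ C) ∧
    (∀ i j, i + j ≤ k → d i j = 0) ∧
    ∀ᶠ p in 𝓝 (0 : C2), HasSum (fun t : ℕ × ℕ => d t.1 t.2 * p.1 ^ t.1 * p.2 ^ t.2) (δ p)

/-- FD-FC: substitution of elements of a Banach algebra into such a power series -/
def S_FC : Prop := ∀ (d : ℕ → ℕ → ℂ) (C ρ : ℝ) (k : ℕ), 0 < ρ →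
  (∀ i j, ‖d i j‖ * ρ ^ (i + j) ≤ C) → (∀ i j, i + j ≤ k → d i j = 0) →
  ∃ L s₀ : ℝ, 0 < L ∧ 0 < s₀ ∧ ∀ (E : Type) [NormedCommRing E] [NormedAlgebra ℂ E] [CompleteSpace E],
    ‖(1 : E)‖ ≤ 1 → ∃ D : E → E → E, ∀ (s : ℝ), s ≤ s₀ →
      (∀ z w : E, ‖z‖ ≤ s → ‖w‖ ≤ s →
        HasSum (fun t : ℕ × ℕ => d t.1 t.2 • (z ^ t.1 * w ^ t.2)) (D z w) ∧
        ‖D z w‖ ≤ L * s ^ (k + 1)) ∧
      (∀ z w z' w' : E, ‖z‖ ≤ s → ‖w‖ ≤ s → ‖z'‖ ≤ s → ‖w'‖ ≤ s →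
        ‖D z w - D z' w'‖ ≤ L * s ^ k * (‖z - z'‖ + ‖w - w'‖))

/-- FD-FIX: the nonlinear equation has a solution -/
def S_FIX : Prop := ∀ (δ : Fin 3 → C2 → ℂ), (∀ i, AnalyticAt ℂ (δ i) 0) →
  (∀ i, δ i =O[𝓝 0] fun p => ‖p‖ ^ (61 : ℕ)) →
  ∃ (K r : ℝ) (E : Type) (_ : NormedCommRing E) (_ : NormedAlgebra ℂ E) (m : Model K r E)
    (R : Fin 6 → E), (∀ i, R i ∈ m.V 6) ∧ (∀ i : Fin 6, 2 ≤ i.val → R i ∈ m.A) ∧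
    ∀ᶠ p in 𝓝 (0 : C2),
      p.1 + m.ev p (R 0) + δ 0 (p.1 + m.ev p (R 0), p.2 + m.ev p (R 1)) = p.1 + m.ev p (R 2) ∧
      Pf (p.1 + m.ev p (R 0)) (p.2 + m.ev p (R 1)) +
        δ 1 (p.1 + m.ev p (R 0), p.2 + m.ev p (R 1)) = Pf p.1 p.2 + m.ev p (R 3) ∧
      Zf (p.1 + m.ev p (R 0)) (p.2 + m.ev p (R 1)) +
        δ 2 (p.1 + m.ev p (R 0), p.2 + m.ev p (R 1)) =
          Zf p.1 p.2 + m.ev p (R 4) + m.ev p (R 5) * Zf p.1 p.2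

/-- FD-GERM: from the solution to the equivalence of the germs -/
def S_FD : Prop := FinDet Φ

end Pool.Agent.R743.PB
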