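import Pool.Agent.R743.PB.Stm

/-!
# PB-TOP: the line is not topologically equivalent to the cusp (helper773)
-/

set_option autoImplicit false

open Filter Topology Set

namespace Pool.Agent.R743.PB

namespace TopPf

/-- Uniqueness of lifts of paths. -/
theorem uniq {X Y : Type*} [TopologicalSpace X] [TopologicalSpace Y] {p : X → Y} {s : Set Y}
    (cov : IsCoveringMapOn p s) {f : ℝ → Y} (hf : Continuous f) (hs : ∀ a, f a ∈ s) {F G : ℝ → X}
    (hF : Continuous F) (hG : Continuous G) (h1 : ∀ t, p (F t) = f t) (h2 : ∀ t, p (G t) = f t)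
    (h0 : F 0 = G 0) : F = G := by
  obtain ⟨H, -, h⟩ := cov.existsUnique_continuousMap_lifts (A := ℝ) ⟨f, hf⟩ (a₀ := 0) (e₀ := F 0)
    (h1 0) hs
  have a := h ⟨F, hF⟩ ⟨rfl, funext h1⟩
  have b := h ⟨G, hG⟩ ⟨h0.symm, funext h2⟩
  exact congrArg (fun K : C(ℝ, X) => (K : ℝ → X)) (a.trans b.symm)

/-- the half plane times the disc -/
def HS (ρ : ℝ) : Set (ℂ × ℂ) := {q | q.1.re < Real.log ρ ∧ ‖q.2‖ < ρ}

theorem convex_HS (ρ : ℝ) : Convex ℝ (HS ρ) := by
  have h1 : Convex ℝ {q : ℂ × ℂ | q.1.re < Real.log ρ} :=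
    (convex_Iio (Real.log ρ)).linear_preimage (Complex.reLm ∘ₗ LinearMap.fst ℝ ℂ ℂ)
  have h2 : Convex ℝ {q : ℂ × ℂ | ‖q.2‖ < ρ} := by
    have := (convex_ball (0 : ℂ) ρ).linear_preimage (LinearMap.snd ℝ ℂ ℂ)
    intro x hx y hy a b ha hb hab
    have h3 := this (x := x) (by simpa using hx) (y := y) (by simpa using hy) ha hb hab
    simpa using h3
  exact h1.inter h2

theorem isOpen_HS (ρ : ℝ) : IsOpen (HS ρ) :=
  (isOpen_lt (Complex.continuous_re.comp continuous_fst) continuous_const).inter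
    (isOpen_lt (continuous_norm.comp continuous_snd) continuous_const)

theorem mem_ball_of_HS {ρ : ℝ} (hρ : 0 < ρ) {q : ℂ × ℂ} (hq : q ∈ HS ρ) :
    (Complex.exp q.1, q.2) ∈ Metric.ball (0 : C2) ρ := by
  rw [mem_ball_zero_iff, Prod.norm_def]
  refine max_lt ?_ hq.2
  show ‖Complex.exp q.1‖ < ρ
  rw [Complex.norm_exp, ← Real.exp_log hρ]
  exact Real.exp_lt_exp.2 hq.1

theorem HS_of_mem_ball {ρ : ℝ} {w : ℂ} {p : C2} (hp : p ∈ Metric.ball (0 : C2) ρ)
    (hw : Complex.exp w = p.1) : (w, p.2) ∈ HS ρ := by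
  rw [mem_ball_zero_iff, Prod.norm_def, max_lt_iff] at hp
  refine ⟨?_, hp.2⟩
  show w.re < _
  have h1 : 0 < ‖p.1‖ := by rw [← hw, Complex.norm_exp]; exact Real.exp_pos _
  rw [← Real.log_exp w.re, ← Complex.norm_exp, hw]
  exact Real.log_lt_log h1 hp.1

/-- Global lift over the half plane. -/
theorem lift_exists (hC : S_COV) {ρ : ℝ} (hρ : 0 < ρ) {h : C2 → C2}
    (hc : ContinuousOn h (Metric.ball 0 ρ))
    (hD : ∀ p ∈ Metric.ball (0 : C2) ρ, p.1 ≠ 0 → h p ∉ D3) {q0 : ℂ × ℂ} (hq0 : q0 ∈ HS ρ)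
    {e : C2} (he : cm e = h (Complex.exp q0.1, q0.2)) :
    ∃ F : ℂ × ℂ → C2, ContinuousOn F (HS ρ) ∧
      (∀ q ∈ HS ρ, cm (F q) = h (Complex.exp q.1, q.2)) ∧ F q0 = e := by
  have h1 : ContractibleSpace (HS ρ) := (convex_HS ρ).contractibleSpace ⟨q0, hq0⟩
  have h2 : LocallyPathConnectedSpace (HS ρ) := (isOpen_HS ρ).locallyPathConnectedSpace
  have h3 : Continuous fun q : HS ρ => h (Complex.exp q.1.1, q.1.2) :=
    hc.comp_continuous (by fun_prop) fun q => mem_ball_of_HS hρ q.2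
  obtain ⟨F, ⟨hF1, hF2⟩, -⟩ := hC.existsUnique_continuousMap_lifts (A := HS ρ) ⟨_, h3⟩
    (a₀ := ⟨q0, hq0⟩) (e₀ := e) he
    (fun q => hD _ (mem_ball_of_HS hρ q.2) (Complex.exp_ne_zero _))
  refine ⟨Function.extend Subtype.val F (fun _ => 0), ?_, fun q hq => ?_, ?_⟩
  · rw [continuousOn_iff_continuous_domRestrict]
    have : (HS ρ).domRestrict (Function.extend Subtype.val F fun _ => 0) = F := by
      ext q : 1
      exact Subtype.val_injective.extend_apply _ _ q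
    rw [this]
    exact F.continuous
  · have := Subtype.val_injective.extend_apply F (fun _ => 0) (⟨q, hq⟩ : HS ρ)
    rw [show Function.extend Subtype.val F (fun _ => 0) q = F ⟨q, hq⟩ from this]
    exact congrFun hF2 ⟨q, hq⟩
  · have := Subtype.val_injective.extend_apply F (fun _ => 0) (⟨q0, hq0⟩ : HS ρ)
    rw [show Function.extend Subtype.val F (fun _ => 0) q0 = F ⟨q0, hq0⟩ from this]
    exact hF1

/-- Transport along a loop. -/
theorem loop (hC : S_COV) {ρ : ℝ} {h : OpenPartialHomeomorph C2 C2}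
    (hsrc : Metric.ball 0 ρ ⊆ h.source)
    (hD : ∀ p ∈ Metric.ball (0 : C2) ρ, p.1 = 0 → h p ∈ D3)
    {F : ℂ × ℂ → C2} (hFc : ContinuousOn F (HS ρ))
    (hF : ∀ q ∈ HS ρ, cm (F q) = h (Complex.exp q.1, q.2))
    {p0 : C2} (hp0 : p0 ∈ Metric.ball (0 : C2) ρ) {w0 : ℂ} (hw0 : Complex.exp w0 = p0.1)
    {g : ℝ → C2} (hg : Continuous g) (hgm : ∀ s, g s ∈ h '' Metric.ball 0 ρ)
    (hgD : ∀ s, g s ∉ D3) (hg0 : g 0 = h p0) (hg1 : g 1 = h p0) :
    ∃ n : ℤ, ∀ (k : ℤ) (R : ℝ → C2), Continuous R → (∀ s, cm (R s) = g s) →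
      R 0 = F (w0 + k * (2 * Real.pi * Complex.I), p0.2) →
      R 1 = F (w0 + (k + n : ℤ) * (2 * Real.pi * Complex.I), p0.2) := by
  have ha : ∀ s, h.symm (g s) ∈ Metric.ball (0 : C2) ρ ∧ h (h.symm (g s)) = g s := fun s => by
    obtain ⟨p, hp, hps⟩ := hgm s
    have h1 : h.symm (g s) = p := by rw [← hps]; exact h.left_inv (hsrc hp)
    rw [h1]
    exact ⟨hp, hps⟩
  have hac : Continuous fun s => h.symm (g s) :=
    h.continuousOn_symm.comp_continuous hg fun s => by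
      obtain ⟨p, hp, hps⟩ := hgm s
      rw [← hps]
      exact h.map_source (hsrc hp)
  have ha0 : h.symm (g 0) = p0 := by rw [hg0]; exact h.left_inv (hsrc hp0)
  have ha1 : h.symm (g 1) = p0 := by rw [hg1]; exact h.left_inv (hsrc hp0)
  obtain ⟨w, ⟨hw1, hw2⟩, -⟩ := Complex.isCoveringMapOn_exp.existsUnique_continuousMap_lifts
    (A := ℝ) ⟨fun s => (h.symm (g s)).1, continuous_fst.comp hac⟩ (a₀ := 0) (e₀ := w0)
    (by show Complex.exp w0 = (h.symm (g 0)).1; rw [ha0, hw0])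
    (fun s => by
      show (h.symm (g s)).1 ≠ 0
      intro h1
      apply hgD s
      rw [← (ha s).2]
      exact hD _ (ha s).1 h1)
  have hw : ∀ s, Complex.exp (w s) = (h.symm (g s)).1 := fun s => congrFun hw2 s
  obtain ⟨n, hn⟩ := Complex.exp_eq_exp_iff_exists_int.1
    (show Complex.exp (w 1) = Complex.exp w0 by rw [hw, ha1, hw0])
  refine ⟨n, fun k R hR hRg hR0 => ?_⟩
  have hexp : ∀ s, Complex.exp (w s + k * (2 * Real.pi * Complex.I)) = (h.symm (g s)).1 :=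
    fun s => by
      rw [Complex.exp_add, Complex.exp_int_mul_two_pi_mul_I, mul_one, hw]
  have hmem : ∀ s, (w s + k * (2 * Real.pi * Complex.I), (h.symm (g s)).2) ∈ HS ρ := fun s =>
    HS_of_mem_ball (ha s).1 (hexp s)
  have hG : Continuous fun s => F (w s + k * (2 * Real.pi * Complex.I), (h.symm (g s)).2) :=
    hFc.comp_continuous ((w.continuous.add continuous_const).prodMk (continuous_snd.comp hac)) hmem
  have h3 : ∀ s, cm (F (w s + k * (2 * Real.pi * Complex.I), (h.symm (g s)).2)) = g s := fun s => by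
    rw [hF _ (hmem s)]
    show h (Complex.exp (w s + k * (2 * Real.pi * Complex.I)), (h.symm (g s)).2) = g s
    rw [hexp]
    exact (ha s).2
  have h4 := uniq hC hg (fun s => hgD s) hR hG hRg h3 (by
    show R 0 = F (w 0 + k * (2 * Real.pi * Complex.I), (h.symm (g 0)).2)
    rw [hR0, hw1, ha0])
  have h5 := congrFun h4 1
  rw [h5]
  show F (w 1 + k * (2 * Real.pi * Complex.I), (h.symm (g 1)).2) = _
  rw [hn, ha1]
  congr 2
  push_cast
  ring

end TopPf

open TopPf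

/-- the unit circle -/
noncomputable def uu (s : ℝ) : ℂ := Complex.exp (s * (Real.pi * Complex.I))

theorem uu_cont : Continuous uu := by
  unfold uu
  fun_prop

theorem norm_uu (s : ℝ) : ‖uu s‖ = 1 := by
  unfold uu
  rw [show (s : ℂ) * (Real.pi * Complex.I) = ((s * Real.pi : ℝ) : ℂ) * Complex.I by
    push_cast; ring]
  exact Complex.norm_exp_ofReal_mul_I _

theorem uu_zero : uu 0 = 1 := by simp [uu]

theorem uu_one : uu 1 = -1 := by simp [uu, Complex.exp_pi_mul_I]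

/-- the loop -/
noncomputable def gg (ε c : ℂ) (s : ℝ) : C2 :=
  (ε ^ 2 * (3 + uu s ^ 2) / 12, c * ε ^ 3 * (1 - uu s ^ 2) / 8)

theorem top (hC : S_COV) : S_TOP := by
  rintro ⟨h, h0s, h00, hev⟩
  have h1 : ∀ᶠ p in 𝓝 (0 : C2), p ∈ h.source ∧ (p.1 = 0 ↔ h p ∈ D3) :=
    (h.open_source.eventually_mem h0s).and hev
  obtain ⟨ρ, hρ, hQ⟩ := Metric.eventually_nhds_iff_ball.1 h1
  have hsrc : Metric.ball 0 ρ ⊆ h.source := fun p hp => (hQ p hp).1
  have h2 : IsOpen (h '' Metric.ball 0 ρ) :=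
    h.isOpen_image_of_subset_source Metric.isOpen_ball hsrc
  have h3 : (0 : C2) ∈ h '' Metric.ball 0 ρ := ⟨0, Metric.mem_ball_self hρ, h00⟩
  obtain ⟨δ, hδ, hball⟩ := Metric.isOpen_iff.1 h2 0 h3
  obtain ⟨ε, hε, hε1, hεδ⟩ : ∃ ε : ℝ, 0 < ε ∧ ε ≤ 1 ∧ ε < δ :=
    ⟨min 1 (δ / 2), lt_min one_pos (half_pos hδ), min_le_left _ _,
      (min_le_right _ _).trans_lt (half_lt_self hδ)⟩
  have hε0 : (ε : ℂ) ≠ 0 := by exact_mod_cast hε.ne'
  have hεn : ‖(ε : ℂ)‖ = ε := by rw [Complex.norm_real, Real.norm_eq_abs, abs_of_pos hε]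
  have hgc : ∀ c : ℂ, Continuous (gg ε c) := fun c => by
    have := uu_cont
    unfold gg
    fun_prop
  have hgm : ∀ c : ℂ, ‖c‖ = 1 → ∀ s, gg ε c s ∈ h '' Metric.ball 0 ρ := fun c hc s => by
    apply hball
    rw [mem_ball_zero_iff, Prod.norm_def]
    have e2 : ε ^ 2 ≤ ε := by nlinarith
    have e3 : ε ^ 3 ≤ ε := by nlinarith [pow_pos hε 2]
    refine max_lt ?_ ?_
    · show ‖(ε : ℂ) ^ 2 * (3 + uu s ^ 2) / 12‖ < δ
      have h4 : ‖(3 : ℂ) + uu s ^ 2‖ ≤ 4 := by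
        refine (norm_add_le _ _).trans ?_
        rw [norm_pow, norm_uu]
        norm_num
      rw [norm_div, norm_mul, norm_pow, hεn]
      have h5 : ‖(12 : ℂ)‖ = 12 := by norm_num
      rw [h5, div_lt_iff₀ (by norm_num)]
      have h6 : ε ^ 2 * ‖(3 : ℂ) + uu s ^ 2‖ ≤ ε ^ 2 * 4 := by gcongr
      nlinarith
    · show ‖c * (ε : ℂ) ^ 3 * (1 - uu s ^ 2) / 8‖ < δ
      have h4 : ‖(1 : ℂ) - uu s ^ 2‖ ≤ 2 := by
        refine (norm_sub_le _ _).trans ?_
        rw [norm_pow, norm_uu]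
        norm_num
      rw [norm_div, norm_mul, norm_mul, norm_pow, hεn, hc, one_mul]
      have h5 : ‖(8 : ℂ)‖ = 8 := by norm_num
      rw [h5, div_lt_iff₀ (by norm_num)]
      have h6 : ε ^ 3 * ‖(1 : ℂ) - uu s ^ 2‖ ≤ ε ^ 3 * 2 := by gcongr
      nlinarith
  have hgD : ∀ c : ℂ, c ^ 2 = 1 → ∀ s, gg ε c s ∉ D3 := fun c hc s h4 => by
    have h5 : (c * (ε : ℂ) ^ 3 * (1 - uu s ^ 2) / 8) ^ 2 =
      ((ε : ℂ) ^ 2 * (3 + uu s ^ 2) / 12) ^ 3 := h4
    have h6 : (ε : ℂ) ^ 6 * (uu s ^ 2 * (9 - uu s ^ 2) ^ 2) = 0 := by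
      linear_combination (-1728) * h5 + 27 * (ε : ℂ) ^ 6 * (1 - uu s ^ 2) ^ 2 * hc
    have h7 : uu s ≠ 0 := by
      intro h8
      have := norm_uu s
      rw [h8, norm_zero] at this
      exact zero_ne_one this
    have h8 : (9 : ℂ) - uu s ^ 2 ≠ 0 := by
      intro h9
      have h10 : ‖uu s ^ 2‖ = 9 := by
        rw [← sub_eq_zero.1 h9]
        norm_num
      rw [norm_pow, norm_uu] at h10
      norm_num at h10
    exact (mul_ne_zero (pow_ne_zero _ hε0) (mul_ne_zero (pow_ne_zero _ h7) (pow_ne_zero _ h8))) h6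
  have hg0 : ∀ c : ℂ, gg ε c 0 = ((ε : ℂ) ^ 2 / 3, 0) := fun c => by
    simp only [gg, uu_zero]
    ext <;> norm_num
    ring
  have hg1 : ∀ c : ℂ, gg ε c 1 = ((ε : ℂ) ^ 2 / 3, 0) := fun c => by
    simp only [gg, uu_one]
    ext <;> norm_num
    ring
  have hb := hgm 1 (by simp) 0
  rw [hg0] at hb
  obtain ⟨p0, hp0, hp0b⟩ := hb
  have hbD := hgD 1 (by simp) 0
  rw [hg0] at hbD
  have hp01 : p0.1 ≠ 0 := fun h4 => hbD (by rw [← hp0b]; exact (hQ p0 hp0).2.1 h4)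
  have hw0 : Complex.exp (Complex.log p0.1) = p0.1 := Complex.exp_log hp01
  obtain ⟨F, hFc, hF, hF0⟩ := lift_exists hC hρ (h := h) (h.continuousOn.mono hsrc)
    (fun p hp h4 h5 => h4 ((hQ p hp).2.2 h5)) (q0 := (Complex.log p0.1, p0.2))
    (HS_of_mem_ball hp0 hw0) (e := ((ε : ℂ) ^ 2 / 3, -(ε : ℂ))) (by
      show cm _ = h (Complex.exp (Complex.log p0.1), p0.2)
      rw [hw0]
      show cm _ = h p0
      rw [hp0b]
      simp only [cm]
      ext
      · rfl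
      · show _ = (0 : ℂ)
        ring)
  have hloop : ∀ c : ℂ, ‖c‖ = 1 → c ^ 2 = 1 → _ := fun c hc hc2 =>
    loop hC hsrc (fun p hp => (hQ p hp).2.1) hFc hF hp0 hw0 (hgc c) (hgm c hc) (hgD c hc2)
      (by rw [hg0, hp0b]) (by rw [hg1, hp0b])
  obtain ⟨n1, hn1⟩ := hloop (-1) (by simp) (by norm_num)
  obtain ⟨n2, hn2⟩ := hloop 1 (by simp) (by norm_num)
  have hu := uu_cont
  -- first way
  have s1 := hn1 0 (fun s => ((ε : ℂ) ^ 2 * (3 + uu s ^ 2) / 12, -(ε : ℂ) / 2 - ε / 2 * uu s))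
    (by fun_prop) (fun s => by simp only [cm, gg]; ext <;> simp only; ring)
    (by
      simp only [uu_zero, Int.cast_zero, zero_mul, add_zero]
      rw [hF0]
      ext <;> simp only <;> ring)
  simp only [uu_one, zero_add] at s1
  have s2 := hn2 n1 (fun s => ((ε : ℂ) ^ 2 * (3 + uu s ^ 2) / 12, (ε : ℂ) / 2 - ε / 2 * uu s))
    (by fun_prop) (fun s => by simp only [cm, gg]; ext <;> simp only; ring)
    (by
      rw [← s1]
      simp only [uu_zero]
      ext <;> simp only <;> ring)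
  simp only [uu_one] at s2
  -- second way
  have s3 := hn2 0 (fun s => ((ε : ℂ) ^ 2 * (3 + uu s ^ 2) / 12, -(ε : ℂ)))
    (by fun_prop) (fun s => by simp only [cm, gg]; ext <;> simp only; ring)
    (by
      simp only [uu_zero, Int.cast_zero, zero_mul, add_zero]
      rw [hF0]
      ext <;> simp only <;> ring)
  simp only [uu_one, zero_add] at s3
  have s4 := hn1 n2 (fun s => ((ε : ℂ) ^ 2 * (3 + uu s ^ 2) / 12, -(ε : ℂ) / 2 - ε / 2 * uu s))
    (by fun_prop) (fun s => by simp only [cm, gg]; ext <;> simp only; ring)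
    (by
      rw [← s3]
      simp only [uu_zero]
      ext <;> simp only <;> ring)
  simp only [uu_one] at s4
  rw [add_comm n2 n1, ← s2] at s4
  have h9 := congrArg Prod.snd s4
  simp only at h9
  apply hε0
  linear_combination -h9

end Pool.Agent.R743.PB
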